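import Pool.Agent.Y984.MD.Stm

set_option autoImplicit false

/-! Project MD: pointwise gradient bound (my own version of BES, with the kernel splitting). -/

namespace Pool.Agent.Y984.MD

open Finset

namespace BESx

variable {n : ℕ}

lemma flp_flp (x : Cube n) (i : Fin n) : flp (flp x i) i = x := by
  funext j
  unfold flp
  by_cases h : j = i
  · subst h; simp
  · simp [h]

/-- the flip as a permutation -/
def fe (i : Fin n) : Equiv.Perm (Cube n) where
  toFun := fun x => flp x i
  invFun := fun x => flp x i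
  left_inv := fun x => flp_flp x i
  right_inv := fun x => flp_flp x i

lemma cases_bit (i : Fin n) (x : Cube n) :
    (x = up i x ∧ flp x i = dn i x) ∨ (x = dn i x ∧ flp x i = up i x) := by
  unfold up dn flp
  by_cases h : x i = true
  · left
    refine ⟨?_, ?_⟩
    · funext j; by_cases hj : j = i
      · subst hj; simp [h]
      · simp [hj]
    · rw [h]; rfl
  · right
    have h' : x i = false := by simpa using h
    refine ⟨?_, ?_⟩
    · funext j; by_cases hj : j = i
      · subst hj; simp [h']
      · simp [hj]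
    · rw [h']; rfl

/-- averaging over one bit -/
lemma av_bit (i : Fin n) (F : Cube n → ℝ) : av F = av (fun x => (F (up i x) + F (dn i x)) / 2) := by
  have h1 : ∑ x, F (flp x i) = ∑ x, F x := Equiv.sum_comp (fe i) F
  have h2 : ∑ x, (F (up i x) + F (dn i x)) / 2 = ∑ x, (F x + F (flp x i)) / 2 := by
    refine sum_congr rfl fun x _ => ?_
    rcases cases_bit i x with ⟨h, h'⟩ | ⟨h, h'⟩
    · rw [h', ← h]
    · rw [h', ← h]; ring
  unfold av
  rw [h2, ← sum_div, sum_add_distrib, h1]
  ring

/-- kernel without coordinate `i` -/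
noncomputable def kr (r : ℝ) (i : Fin n) (x y : Cube n) : ℝ :=
  ∏ m ∈ univ.erase i, (1 + r * sg (x m) (y m))

lemma ker_eq (r : ℝ) (i : Fin n) (x y : Cube n) :
    ker r x y = (1 + r * sg (x i) (y i)) * kr r i x y := by
  unfold ker kr
  exact (Finset.mul_prod_erase univ (fun m => 1 + r * sg (x m) (y m)) (mem_univ i)).symm

lemma kr_up (r : ℝ) (i : Fin n) (x y : Cube n) : kr r i x (up i y) = kr r i x y := by
  unfold kr
  refine prod_congr rfl fun m hm => ?_
  have : m ≠ i := ne_of_mem_erase hm
  unfold up
  simp [this]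

lemma kr_dn (r : ℝ) (i : Fin n) (x y : Cube n) : kr r i x (dn i y) = kr r i x y := by
  unfold kr
  refine prod_congr rfl fun m hm => ?_
  have : m ≠ i := ne_of_mem_erase hm
  unfold dn
  simp [this]

lemma ker_up (r : ℝ) (i : Fin n) (x y : Cube n) :
    ker r x (up i y) = (1 + r * sg (x i) true) * kr r i x y := by
  rw [ker_eq r i, kr_up]; unfold up; simp

lemma ker_dn (r : ℝ) (i : Fin n) (x y : Cube n) :
    ker r x (dn i y) = (1 - r * sg (x i) true) * kr r i x y := by
  rw [ker_eq r i, kr_dn]
  have : sg (x i) false = - sg (x i) true := by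
    unfold sg; cases x i <;> simp
  have h : (dn i y) i = false := by unfold dn; simp
  rw [h, this]; ring

lemma av_ker : ∀ (r : ℝ) (x : Cube n), av (fun y => ker r x y) = 1 := by
  intro r x
  unfold av ker
  have h := Finset.prod_univ_sum (fun _ : Fin n => (univ : Finset Bool))
    (fun i b => 1 + r * sg (x i) b)
  rw [Fintype.piFinset_univ] at h
  rw [← h]
  have h2 : ∀ i : Fin n, ∑ b : Bool, (1 + r * sg (x i) b) = 2 := by
    intro i
    rw [Fintype.sum_bool]
    unfold sg
    cases x i <;> simp <;> ring
  simp only [h2, prod_const, card_univ, Fintype.card_fin]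
  exact div_self (by positivity)

lemma up_up (i : Fin n) (y : Cube n) : up i (up i y) = up i y := by unfold up; simp
lemma up_dn (i : Fin n) (y : Cube n) : up i (dn i y) = up i y := by unfold up dn; simp
lemma dn_up (i : Fin n) (y : Cube n) : dn i (up i y) = dn i y := by unfold up dn; simp
lemma dn_dn (i : Fin n) (y : Cube n) : dn i (dn i y) = dn i y := by unfold dn; simp

lemma D_up (i : Fin n) (φ : Cube n → ℝ) (y : Cube n) : D i φ (up i y) = D i φ y := by
  unfold D; rw [up_up, dn_up]
lemma D_dn (i : Fin n) (φ : Cube n → ℝ) (y : Cube n) : D i φ (dn i y) = D i φ y := by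
  unfold D; rw [up_dn, dn_dn]

/-- centred coordinate -/
noncomputable def z (r : ℝ) (x : Cube n) (i : Fin n) (y : Cube n) : ℝ :=
  sg true (y i) - r * sg (x i) true

lemma sgsq (a b : Bool) : sg a b ^ 2 = 1 := by unfold sg; split_ifs <;> norm_num

lemma TD_eq (r : ℝ) (i : Fin n) (φ : Cube n → ℝ) (x : Cube n) :
    T r (D i φ) x = av (fun y => kr r i x y * D i φ y) := by
  unfold T
  rw [av_bit i]
  congr 1
  funext y
  rw [ker_up, ker_dn, D_up, D_dn]
  ring

lemma int_z (r : ℝ) (i : Fin n) (φ : Cube n → ℝ) (x : Cube n) :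
    av (fun y => ker r x y * (φ y * z r x i y)) = (1 - r ^ 2) * T r (D i φ) x := by
  rw [TD_eq, av_bit i]
  unfold av
  rw [← mul_div_assoc, mul_sum]
  congr 1
  refine sum_congr rfl fun y _ => ?_
  beta_reduce
  rw [ker_up, ker_dn]
  have h1 : z r x i (up i y) = 1 - r * sg (x i) true := by
    unfold z up sg; simp
  have h2 : z r x i (dn i y) = -1 - r * sg (x i) true := by
    unfold z dn sg; simp
  rw [h1, h2]
  unfold D
  have h3 := sgsq (x i) true
  linear_combination (-(r ^ 2) * kr r i x y * (φ (up i y) - φ (dn i y)) / 2) * h3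

end BESx

open BESx

theorem t_BESx : BES := by
  intro n r h0 h1 φ x
  set a : Fin n → ℝ := fun i => T r (D i φ) x with ha
  set L : Cube n → ℝ := fun y => ∑ i, a i * z r x i y with hL
  have hker0 : ∀ y, 0 ≤ ker r x y := by
    intro y
    unfold ker
    refine prod_nonneg fun i _ => ?_
    unfold sg
    split_ifs <;> linarith
  set E : (Cube n → ℝ) → ℝ := fun F => av (fun y => ker r x y * F y) with hE
  have Eadd : ∀ F G : Cube n → ℝ, E (fun y => F y + G y) = E F + E G := by
    intro F G
    simp only [hE]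
    unfold av
    rw [← add_div, ← sum_add_distrib]
    congr 1
    exact sum_congr rfl fun y _ => by ring
  have Emul : ∀ (c : ℝ) (F : Cube n → ℝ), E (fun y => c * F y) = c * E F := by
    intro c F
    simp only [hE]
    unfold av
    rw [← mul_div_assoc, mul_sum]
    congr 1
    exact sum_congr rfl fun y _ => by ring
  have Econst : ∀ c : ℝ, E (fun _ => c) = c := by
    intro c
    have h2 := Emul c (fun _ => 1)
    have h3 : E (fun _ => 1) = 1 := by
      simp only [hE, mul_one]; exact av_ker r x
    rw [h3, mul_one] at h2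
    simpa using h2
  have Esum : ∀ (F : Fin n → Cube n → ℝ), E (fun y => ∑ i, F i y) = ∑ i, E (F i) := by
    intro F
    simp only [hE]
    unfold av
    rw [← sum_div, sum_comm]
    congr 1
    exact sum_congr rfl fun y _ => by beta_reduce; rw [mul_sum]
  have Enn : ∀ F : Cube n → ℝ, (∀ y, 0 ≤ F y) → 0 ≤ E F := by
    intro F hF
    simp only [hE]
    unfold av
    exact div_nonneg (sum_nonneg fun y _ => mul_nonneg (hker0 y) (hF y)) (by positivity)
  have Ez : ∀ (ψ : Cube n → ℝ) (i : Fin n), E (fun y => ψ y * z r x i y) =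
      (1 - r ^ 2) * T r (D i ψ) x := fun ψ i => int_z r i ψ x
  have EL : ∀ ψ : Cube n → ℝ, E (fun y => ψ y * L y) =
      (1 - r ^ 2) * ∑ i, a i * T r (D i ψ) x := by
    intro ψ
    have e : (fun y => ψ y * L y) = fun y => ∑ i, (a i * (ψ y * z r x i y)) := by
      funext y
      simp only [hL]
      rw [mul_sum]
      exact sum_congr rfl fun i _ => by ring
    rw [e, Esum, mul_sum]
    refine sum_congr rfl fun i _ => ?_
    rw [Emul, Ez]; ring
  have hDL : ∀ i, T r (D i L) x = a i := by
    intro i
    have e : D i L = fun _ => a i := by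
      funext y
      unfold D
      simp only [hL]
      rw [← sum_sub_distrib, sum_div]
      rw [sum_eq_single i]
      · unfold z up dn sg; simp; ring
      · intro j _ hj
        unfold z up dn
        simp [hj]
      · intro h; exact absurd (mem_univ i) h
    rw [e]
    exact Econst (a i)
  have hD1 : ∀ i, T r (D i (fun _ => (1 : ℝ))) x = 0 := by
    intro i
    have e : D i (fun _ => (1 : ℝ)) = fun _ => 0 := by
      funext y; unfold D; norm_num
    rw [e]
    exact Econst 0
  have h2 : E (fun y => φ y * L y) = (1 - r ^ 2) * ∑ i, a i ^ 2 := by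
    rw [EL]
    congr 1
    exact sum_congr rfl fun i _ => by simp only [ha]; ring
  have h3 : E (fun y => L y * L y) = (1 - r ^ 2) * ∑ i, a i ^ 2 := by
    rw [EL]
    congr 1
    exact sum_congr rfl fun i _ => by rw [hDL]; ring
  have h4 : E (fun y => 1 * L y) = 0 := by
    rw [EL (fun _ => 1)]
    simp only [hD1]; simp
  have h5 : E (fun y => φ y - E φ - L y) = 0 := by
    have e : (fun y => φ y - E φ - L y) = fun y => (φ y + (- E φ)) + (-1) * (1 * L y) := by
      funext y; ring
    rw [e, Eadd, Eadd φ (fun _ => - E φ), Emul, h4, Econst]; ring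
  have h6 := Enn (fun y => (φ y - E φ - L y) ^ 2) (fun y => sq_nonneg _)
  have e7 : (fun y => (φ y - E φ - L y) ^ 2) = fun y => (((φ y ^ 2 + (-2 * E φ) * φ y) + E φ ^ 2) +
      (-2) * (φ y * L y)) + ((L y * L y) + (2 * E φ) * (1 * L y)) := by
    funext y; ring
  rw [e7, Eadd, Eadd, Eadd, Eadd, Eadd, Emul, Emul, Emul, h2, h3, h4, Econst] at h6
  have e8 : T r (fun y => φ y ^ 2) x = E (fun y => φ y ^ 2) := rfl
  have e9 : T r φ x = E φ := rfl
  rw [e8, e9]
  linarith

end Pool.Agent.Y984.MD
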