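import Pool.Agent.Y984.MD.BESx

set_option autoImplicit false

/-! Project MD: derivative of the noise form (own version). -/

namespace Pool.Agent.Y984.MD

open Finset BESx

namespace DERx

variable {n : ℕ}

lemma kr_up' (r : ℝ) (i : Fin n) (x y : Cube n) : kr r i (up i x) y = kr r i x y := by
  unfold kr
  refine prod_congr rfl fun m hm => ?_
  have : m ≠ i := ne_of_mem_erase hm
  unfold up
  simp [this]

lemma kr_dn' (r : ℝ) (i : Fin n) (x y : Cube n) : kr r i (dn i x) y = kr r i x y := by
  unfold kr
  refine prod_congr rfl fun m hm => ?_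
  have : m ≠ i := ne_of_mem_erase hm
  unfold dn
  simp [this]

lemma ker_deriv (r : ℝ) (x y : Cube n) :
    HasDerivAt (fun s => ker s x y) (∑ i, sg (x i) (y i) * kr r i x y) r := by
  have h := HasDerivAt.fun_finsetProd (u := (univ : Finset (Fin n)))
    (f := fun i (s : ℝ) => 1 + s * sg (x i) (y i)) (f' := fun i => sg (x i) (y i)) (x := r)
    (fun i _ => by
      have := ((hasDerivAt_id r).mul_const (sg (x i) (y i))).const_add 1
      simpa using this)
  unfold ker
  refine h.congr_deriv ?_
  refine sum_congr rfl fun i _ => ?_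
  rw [smul_eq_mul, mul_comm]
  rfl

lemma term (r : ℝ) (i : Fin n) (φ ψ : Cube n → ℝ) :
    av (fun x => φ x * av (fun y => sg (x i) (y i) * kr r i x y * ψ y)) =
      av (fun x => D i φ x * T r (D i ψ) x) := by
  have h1 : ∀ x : Cube n, av (fun y => sg (x i) (y i) * kr r i x y * ψ y) =
      sg (x i) true * av (fun y => kr r i x y * D i ψ y) := by
    intro x
    rw [av_bit i]
    unfold av
    rw [← mul_div_assoc, mul_sum]
    congr 1
    refine sum_congr rfl fun y _ => ?_
    beta_reduce
    rw [kr_up, kr_dn]
    have h2 : (up i y) i = true := by unfold up; simp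
    have h3 : (dn i y) i = false := by unfold dn; simp
    have h4 : sg (x i) false = - sg (x i) true := by
      unfold sg; cases x i <;> simp
    rw [h2, h3, h4]
    unfold D
    ring
  simp only [h1]
  rw [av_bit i]
  congr 1
  funext x
  have h2 : (up i x) i = true := by unfold up; simp
  have h3 : (dn i x) i = false := by unfold dn; simp
  rw [h2, h3, TD_eq]
  simp only [kr_up', kr_dn']
  have h5 : sg true true = 1 := by unfold sg; simp
  have h6 : sg false true = -1 := by unfold sg; simp
  rw [h5, h6]
  unfold D
  ring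

end DERx

open DERx

theorem t_DERx : DER := by
  intro n φ ψ r
  have h1 : ∀ x, HasDerivAt (fun s => φ x * T s ψ x)
      (φ x * av (fun y => (∑ i, sg (x i) (y i) * kr r i x y) * ψ y)) r := by
    intro x
    unfold T av
    refine HasDerivAt.const_mul _ (HasDerivAt.div_const ?_ _)
    refine HasDerivAt.fun_sum fun y _ => ?_
    exact (ker_deriv r x y).mul_const _
  have h2 : HasDerivAt (fun s => av (fun x => φ x * T s ψ x))
      (av (fun x => φ x * av (fun y => (∑ i, sg (x i) (y i) * kr r i x y) * ψ y))) r := by
    unfold av at h1 ⊢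
    exact HasDerivAt.div_const (HasDerivAt.fun_sum fun x _ => h1 x) _
  refine h2.congr_deriv ?_
  rw [← sum_congr rfl fun i _ => term r i φ ψ]
  have h3 : ∀ x : Cube n, φ x * av (fun y => (∑ i, sg (x i) (y i) * kr r i x y) * ψ y) =
      ∑ i, φ x * av (fun y => sg (x i) (y i) * kr r i x y * ψ y) := by
    intro x
    rw [← mul_sum]
    congr 1
    unfold av
    rw [← sum_div, sum_comm]
    congr 1
    exact sum_congr rfl fun y _ => by beta_reduce; rw [sum_mul]
  simp only [h3]
  unfold av
  rw [← sum_div, sum_comm]

end Pool.Agent.Y984.MD
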