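import Pool.Agent.Y984.MD.Stm

set_option autoImplicit false

/-! Project MD (helper984), part DIS (helper980): decrease of the convex functionals. -/

namespace Pool.Agent.Y984.MD

open Finset

namespace DISaux

lemma two_pt (b a c : ℝ) (hb : 0 < b) (ha : 0 ≤ a) (hc : 0 ≤ c) :
    (1 / 2) * (min a b - min c b) ^ 2 ≤ Psi b a + Psi b c - 2 * Psi b ((a + c) / 2) := by
  wlog hac : a ≤ c generalizing a c
  · have := this c a hc ha (by linarith)
    rw [add_comm c a] at this
    nlinarith
  unfold Psi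
  rcases le_or_gt c b with hcb | hcb
  · rw [min_eq_left (hac.trans hcb), min_eq_left hcb, if_pos (hac.trans hcb), if_pos hcb,
      if_pos (by linarith)]
    nlinarith
  · rw [min_eq_right hcb.le, if_neg (not_le.mpr hcb)]
    rcases le_or_gt a b with hab | hab
    · rw [min_eq_left hab, if_pos hab]
      split_ifs with hm
      · nlinarith [mul_nonneg (sub_nonneg.mpr hcb.le) (show (0 : ℝ) ≤ 2 * b - a - c by linarith)]
      · nlinarith
    · rw [min_eq_right hab.le, if_neg (not_le.mpr hab), if_neg (by push Not; linarith)]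
      nlinarith

lemma tangent (b m v : ℝ) : Psi b m + 2 * min m b * (v - m) ≤ Psi b v := by
  unfold Psi
  rcases le_or_gt m b with hm | hm
  · rw [if_pos hm, min_eq_left hm]
    split_ifs with hv
    · nlinarith [sq_nonneg (v - m)]
    · push Not at hv
      nlinarith [mul_nonneg (sub_nonneg.mpr hm) (show (0 : ℝ) ≤ 2 * v - b - m by linarith)]
  · rw [if_neg (not_le.mpr hm), min_eq_right hm.le]
    split_ifs with hv
    · nlinarith [sq_nonneg (v - b)]
    · nlinarith

lemma jensen {n : ℕ} (hn : 0 < n) (b : ℝ) (v : Fin n → ℝ) :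
    Psi b ((∑ i, v i) / n) ≤ (∑ i, Psi b (v i)) / n := by
  have hn' : (0 : ℝ) < n := by exact_mod_cast hn
  rw [le_div_iff₀ hn']
  set m : ℝ := (∑ i, v i) / n with hm
  have h1 : ∑ i : Fin n, (Psi b m + 2 * min m b * (v i - m)) ≤ ∑ i, Psi b (v i) :=
    Finset.sum_le_sum fun i _ => tangent b m (v i)
  rw [Finset.sum_add_distrib, ← Finset.mul_sum, Finset.sum_sub_distrib, Finset.sum_const,
    Finset.sum_const, Finset.card_univ, Fintype.card_fin, nsmul_eq_mul, nsmul_eq_mul] at h1
  have h2 : (n : ℝ) * m = ∑ i, v i := by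
    rw [hm]
    field_simp
  rw [h2, sub_self, mul_zero, add_zero] at h1
  linarith

lemma flp_flp {n : ℕ} (x : Cube n) (i : Fin n) : flp (flp x i) i = x := by
  unfold flp
  simp

lemma dn_flp {n : ℕ} (x : Cube n) (i : Fin n) : dn i (flp x i) = dn i x := by
  unfold flp dn
  simp

lemma up_flp {n : ℕ} (x : Cube n) (i : Fin n) : up i (flp x i) = up i x := by
  unfold flp up
  simp

lemma D_flp {n : ℕ} (φ : Cube n → ℝ) (x : Cube n) (i : Fin n) :
    D i φ (flp x i) = D i φ x := by
  unfold D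
  rw [dn_flp, up_flp]

lemma cases_flp {n : ℕ} (x : Cube n) (i : Fin n) :
    (x = dn i x ∧ flp x i = up i x) ∨ (x = up i x ∧ flp x i = dn i x) := by
  unfold dn up flp
  rcases h : x i with _ | _
  · left
    refine ⟨?_, by simp⟩
    conv_lhs => rw [← Function.update_eq_self i x, h]
  · right
    refine ⟨?_, by simp⟩
    conv_lhs => rw [← Function.update_eq_self i x, h]

lemma sum_flp {n : ℕ} (F : Cube n → ℝ) (i : Fin n) : ∑ x, F (flp x i) = ∑ x, F x := by
  exact Function.Bijective.sum_comp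
    (Function.Involutive.bijective (f := fun x : Cube n => flp x i) fun x => flp_flp x i) F

lemma le_dn {n : ℕ} (x : Cube n) (i : Fin n) : ∀ j, dn i x j ≤ x j := by
  intro j
  unfold dn
  by_cases h : j = i
  · subst h
    simp
  · simp [Function.update_of_ne h]

lemma up_le {n : ℕ} (x : Cube n) (i : Fin n) : ∀ j, dn i x j ≤ flp x i j := by
  intro j
  unfold dn flp
  by_cases h : j = i
  · subst h
    simp
  · simp [Function.update_of_ne h]

lemma one_dir {n : ℕ} (A : Finset (Cube n)) (hA : IsUp A) (h : Cube n → ℝ) (h0 : ∀ x, 0 ≤ h x)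
    (b : ℝ) (hb : 0 < b) (i : Fin n) :
    ∑ x, Psi b (Pi A i h x) ≤ ∑ x, Psi b (h x) -
      ∑ x, (if dn i x ∈ A then (D i (fun x => min (h x) b) x) ^ 2 else 0) := by
  set F : Cube n → ℝ := fun x => Psi b (h x) - Psi b (Pi A i h x) -
    (if dn i x ∈ A then (D i (fun x => min (h x) b) x) ^ 2 else 0) with hF
  have key : ∀ x, 0 ≤ F x + F (flp x i) := by
    intro x
    simp only [hF]
    rw [dn_flp, D_flp]
    by_cases hx : dn i x ∈ A
    · have hx1 : x ∈ A := hA _ hx _ (le_dn x i)
      have hx2 : flp x i ∈ A := hA _ hx _ (up_le x i)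
      have e1 : Pi A i h x = (h x + h (flp x i)) / 2 := by
        unfold Pi
        rw [if_pos ⟨hx1, hx2⟩]
      have e2 : Pi A i h (flp x i) = (h x + h (flp x i)) / 2 := by
        unfold Pi
        rw [flp_flp, if_pos ⟨hx2, hx1⟩, add_comm]
      rw [e1, e2, if_pos hx]
      have h2 := two_pt b (h x) (h (flp x i)) hb (h0 _) (h0 _)
      have h3 : (D i (fun x => min (h x) b) x) ^ 2 =
          (1 / 4) * (min (h x) b - min (h (flp x i)) b) ^ 2 := by
        unfold D
        rcases cases_flp x i with ⟨h4, h5⟩ | ⟨h4, h5⟩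
        · rw [← h4, ← h5]
          ring
        · rw [← h4, ← h5]
          ring
      rw [h3]
      linarith
    · have hn : ¬ (x ∈ A ∧ flp x i ∈ A) := by
        rintro ⟨h1, h2⟩
        rcases cases_flp x i with ⟨h4, h5⟩ | ⟨h4, h5⟩
        · exact hx (h4 ▸ h1)
        · exact hx (h5 ▸ h2)
      have e1 : Pi A i h x = h x := by
        unfold Pi
        rw [if_neg hn]
      have e2 : Pi A i h (flp x i) = h (flp x i) := by
        unfold Pi
        rw [flp_flp, if_neg (fun hh => hn ⟨hh.2, hh.1⟩)]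
      rw [e1, e2, if_neg hx]
      simp
  have h1 : 0 ≤ ∑ x, (F x + F (flp x i)) := Finset.sum_nonneg fun x _ => key x
  rw [Finset.sum_add_distrib, sum_flp F i] at h1
  have h2 : ∑ x, F x = ∑ x, Psi b (h x) - ∑ x, Psi b (Pi A i h x) -
      ∑ x, (if dn i x ∈ A then (D i (fun x => min (h x) b) x) ^ 2 else 0) := by
    rw [← Finset.sum_sub_distrib, ← Finset.sum_sub_distrib]
  linarith

end DISaux

open DISaux in
theorem t_DIS : DIS := by
  intro n hn A hA h h0 b hb
  have hn' : (0 : ℝ) < n := by exact_mod_cast hn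
  have hN : (0 : ℝ) < 2 ^ n := by positivity
  have h1 : ∑ x, Psi b (Pc A h x) ≤ (∑ i, ∑ x, Psi b (Pi A i h x)) / n := by
    rw [Finset.sum_comm, Finset.sum_div]
    exact Finset.sum_le_sum fun x _ => jensen hn b _
  have h2 : ∑ i, ∑ x, Psi b (Pi A i h x) ≤ ∑ i : Fin n, (∑ x, Psi b (h x) -
      ∑ x, (if dn i x ∈ A then (D i (fun x => min (h x) b) x) ^ 2 else 0)) :=
    Finset.sum_le_sum fun i _ => one_dir A hA h h0 b hb i
  rw [Finset.sum_sub_distrib, Finset.sum_const, Finset.card_univ, Fintype.card_fin,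
    nsmul_eq_mul] at h2
  unfold av En av
  rw [← Finset.sum_div]
  set X := ∑ x, Psi b (h x)
  set Y := ∑ i : Fin n, ∑ x, (if dn i x ∈ A then (D i (fun x => min (h x) b) x) ^ 2 else 0)
  have h3 : ∑ x, Psi b (Pc A h x) ≤ X - Y / n := by
    refine h1.trans ?_
    rw [div_le_iff₀ hn', sub_mul, div_mul_cancel₀ _ hn'.ne']
    linarith
  have h4 : (∑ x, Psi b (Pc A h x)) / 2 ^ n ≤ (X - Y / n) / 2 ^ n :=
    div_le_div_of_nonneg_right h3 hN.le
  refine h4.trans (le_of_eq ?_)
  field_simp

end Pool.Agent.Y984.MD
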