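import Pool.Agent.Y984.MD.Ph

set_option autoImplicit false

/-! Project MD: the final contraction (own version). -/

namespace Pool.Agent.Y984.MD

open Finset Basic

namespace FINx

variable {n : ℕ}

lemma it_add (hn : 0 < n) (hO : OPE) (A : Finset (Cube n)) (t : ℕ) : ∀ φ ψ : Cube n → ℝ,
    (Pc A)^[t] (fun y => φ y + ψ y) = fun y => ((Pc A)^[t] φ) y + ((Pc A)^[t] ψ) y := by
  obtain ⟨-, -, -, h4, h5, -, -⟩ := hO n hn A
  induction t with
  | zero => intro φ ψ; rfl
  | succ t ih =>
    intro φ ψ
    rw [Function.iterate_succ_apply, Function.iterate_succ_apply, Function.iterate_succ_apply]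
    have : Pc A (fun y => φ y + ψ y) = fun y => Pc A φ y + Pc A ψ y := funext fun y => h4 φ ψ y
    rw [this, ih]

lemma it_smul (hn : 0 < n) (hO : OPE) (A : Finset (Cube n)) (c : ℝ) (t : ℕ) :
    ∀ φ : Cube n → ℝ,
    (Pc A)^[t] (fun y => c * φ y) = fun y => c * ((Pc A)^[t] φ) y := by
  obtain ⟨-, -, -, h4, h5, -, -⟩ := hO n hn A
  induction t with
  | zero => intro φ; rfl
  | succ t ih =>
    intro φ
    rw [Function.iterate_succ_apply, Function.iterate_succ_apply]
    have : Pc A (fun y => c * φ y) = fun y => c * Pc A φ y := funext fun y => h5 c φ y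
    rw [this, ih]

lemma it_sum (hn : 0 < n) (hO : OPE) (A : Finset (Cube n)) (t : ℕ) (v : Cube n → ℝ)
    (S : Finset (Cube n)) :
    (Pc A)^[t] (fun z => ∑ y ∈ S, v y * pm y z) =
      fun z => ∑ y ∈ S, v y * ((Pc A)^[t] (pm y)) z := by
  classical
  induction S using Finset.induction_on with
  | empty =>
    simp only [sum_empty]
    have := it_smul hn hO A 0 t (fun _ => 0)
    simpa using this
  | insert a S ha ih =>
    have e : (fun z => ∑ y ∈ insert a S, v y * pm y z) =
        fun z => (fun w => v a * pm a w) z + (fun w => ∑ y ∈ S, v y * pm y w) z := by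
      funext z; rw [sum_insert ha]
    rw [e, it_add hn hO A t, ih]
    funext z
    rw [sum_insert ha, it_smul hn hO A (v a) t (pm a)]

end FINx

open FINx

theorem t_FINx (hO : OPE) : FIN := by
  classical
  intro n hn A hne s M hM hM1 hdec
  have hμ : 0 < dens A := by
    unfold dens
    have : (0 : ℝ) < A.card := by exact_mod_cast hne.card_pos
    positivity
  have hNp : (0 : ℝ) < 2 ^ n := by positivity
  have epm : ∀ x : Cube n, (fun z => if z = x then (2 : ℝ) ^ n else 0) = pm x := fun x => rfl
  simp only [epm] at hdec ⊢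
  set pi : Cube n → ℝ := fun y => ind A y / dens A with hpi
  have pi' : pi = fun y => (1 / dens A) * ind A y := by funext y; simp only [hpi]; ring
  have avpi : av pi = 1 := by rw [pi', av_mul, av_ind]; field_simp
  have pi0 : ∀ y, 0 ≤ pi y := fun y => by
    simp only [hpi]; unfold ind; split_ifs <;> positivity
  have itpi : ∀ t (c : ℝ), (Pc A)^[t] (fun y => c * pi y) = fun y => c * pi y := by
    intro t c
    have e : (fun y => c * pi y) = fun y => (c / dens A) * ind A y := by
      funext y; simp only [hpi]; ring
    rw [e, it_ind hn hO A]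
  intro k
  induction k with
  | zero =>
    intro x hx
    simp only [Nat.zero_mul, Function.iterate_zero, id_eq, pow_zero, mul_one]
    have h1 : av (fun y => |pm x y - pi y|) ≤ av (fun y => pm x y + pi y) := by
      refine av_mono fun y => ?_
      have h2 := pm_nonneg x y
      have h3 := pi0 y
      rw [abs_le]; constructor <;> linarith
    refine h1.trans ?_
    rw [av_add, av_pm_one, avpi]
    norm_num
  | succ k ih =>
    intro x hx
    obtain ⟨g, g0, g1, g2, g3⟩ := hdec x hx
    set h : Cube n → ℝ := (Pc A)^[s] (pm x) with hh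
    set v : Cube n → ℝ := fun y => h y - M * pi y with hv
    have h0 : ∀ y, 0 ≤ h y := it_nonneg hn hO A s _ (pm_nonneg x)
    have hs : ∀ y, y ∉ A → h y = 0 := it_supp hn hO A s (pm x) (by
      intro y hy
      unfold pm
      rw [if_neg]
      rintro rfl
      exact hy hx)
    have avh : av h = 1 := by rw [hh, it_av hn hO A, av_pm_one]
    have vs : ∀ y, y ∉ A → v y = 0 := by
      intro y hy
      simp only [hv, hpi]
      rw [hs y hy]
      unfold ind
      rw [if_neg hy]; ring
    have avv : av v = 1 - M := by rw [hv, av_sub, av_mul, avh, avpi]; ring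
    have avabs : av (fun y => |v y|) ≤ 1 - M / 2 := by
      have e1 : ∀ y, |v y| ≤ |g y - M / dens A * ind A y| + (h y - g y) := by
        intro y
        have e2 : v y = (g y - M / dens A * ind A y) + (h y - g y) := by
          simp only [hv, hpi]; ring
        rw [e2]
        refine (abs_add_le _ _).trans ?_
        rw [abs_of_nonneg (sub_nonneg.2 (g1 y))]
      have e3 := av_mono e1
      rw [av_add, av_sub, avh, g2] at e3
      linarith
    -- decomposition of v
    have vdec : v = fun z => ∑ y ∈ A, (v y / 2 ^ n) * pm y z := by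
      funext z
      by_cases hz : z ∈ A
      · rw [sum_eq_single z]
        · unfold pm; simp
        · intro y _ hy
          unfold pm
          rw [if_neg (fun e => hy e.symm)]; ring
        · intro h; exact absurd hz h
      · rw [vs z hz]
        symm
        apply sum_eq_zero
        intro y hy
        unfold pm
        rw [if_neg]
        · ring
        · rintro rfl; exact hz hy
    have itv : (Pc A)^[k * s] v = fun z => ∑ y ∈ A, (v y / 2 ^ n) * ((Pc A)^[k * s] (pm y)) z := by
      conv_lhs => rw [vdec]
      exact it_sum hn hO A (k * s) (fun y => v y / 2 ^ n) A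
    have sumv : ∑ y ∈ A, v y / 2 ^ n = 1 - M := by
      rw [← avv]
      unfold av
      rw [← sum_div]
      congr 1
      exact sum_subset (subset_univ A) fun y _ hy => vs y hy
    have sumabs : ∑ y ∈ A, |v y| / 2 ^ n ≤ 1 - M / 2 := by
      refine le_trans (le_of_eq ?_) avabs
      unfold av
      rw [← sum_div]
      congr 1
      exact sum_subset (subset_univ A) fun y _ hy => by rw [vs y hy, abs_zero]
    -- the iterate
    have e4 : ∀ z, ((Pc A)^[(k + 1) * s] (pm x)) z - pi z =
        ∑ y ∈ A, (v y / 2 ^ n) * (((Pc A)^[k * s] (pm y)) z - pi z) := by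
      intro z
      have e5 : (Pc A)^[(k + 1) * s] (pm x) = (Pc A)^[k * s] h := by
        rw [hh, ← Function.iterate_add_apply]
        congr 2
        ring
      have e6 : h = fun y => v y + (fun w => M * pi w) y := by
        funext y; simp only [hv]; ring
      rw [e5]
      conv_lhs => rw [e6]
      rw [it_add hn hO A, itpi, itv]
      simp only [mul_sub, sum_sub_distrib, ← sum_mul, sumv]
      ring
    have e7 : av (fun z => |((Pc A)^[(k + 1) * s] (pm x)) z - pi z|) ≤
        ∑ y ∈ A, |v y| / 2 ^ n * av (fun z => |((Pc A)^[k * s] (pm y)) z - pi z|) := by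
      have e8 : ∀ z, |((Pc A)^[(k + 1) * s] (pm x)) z - pi z| ≤
          ∑ y ∈ A, |v y| / 2 ^ n * |((Pc A)^[k * s] (pm y)) z - pi z| := by
        intro z
        rw [e4 z]
        refine (abs_sum_le_sum_abs _ _).trans (le_of_eq ?_)
        refine sum_congr rfl fun y _ => ?_
        rw [abs_mul, abs_div, abs_of_pos hNp]
      refine (av_mono e8).trans (le_of_eq ?_)
      rw [av_sum]
      exact sum_congr rfl fun y _ => by rw [av_mul]
    calc av (fun z => |((Pc A)^[(k + 1) * s] (pm x)) z - pi z|) ≤ _ := e7
      _ ≤ ∑ y ∈ A, |v y| / 2 ^ n * (2 * (1 - M / 2) ^ k) :=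
          sum_le_sum fun y hy => mul_le_mul_of_nonneg_left (ih y hy) (by positivity)
      _ = (∑ y ∈ A, |v y| / 2 ^ n) * (2 * (1 - M / 2) ^ k) := by rw [sum_mul]
      _ ≤ (1 - M / 2) * (2 * (1 - M / 2) ^ k) := by
          apply mul_le_mul_of_nonneg_right sumabs
          have : 0 ≤ 1 - M / 2 := by linarith
          positivity
      _ = 2 * (1 - M / 2) ^ (k + 1) := by ring

end Pool.Agent.Y984.MD
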