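import Pool.Agent.Y984.MD.Stm

set_option autoImplicit false

/-! Project MD: kernel facts (helper986). -/

namespace Pool.Agent.Y984.MD

open Finset

namespace KERx

variable {n : ℕ}

theorem flp_flp (x : Cube n) (i : Fin n) : flp (flp x i) i = x := by
  unfold flp
  simp

theorem pair_eq (F : Cube n → ℝ) (x : Cube n) (i : Fin n) : F (up i x) + F (dn i x) = F x + F (flp x i) := by
  unfold up dn flp
  cases h : x i
  · have e : Function.update x i false = x := by rw [← h]; exact Function.update_eq_self i x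
    rw [e, Bool.not_false]
    ring
  · have e : Function.update x i true = x := by rw [← h]; exact Function.update_eq_self i x
    rw [e, Bool.not_true]

theorem sum_flp (F : Cube n → ℝ) (i : Fin n) : ∑ x, F (flp x i) = ∑ x, F x :=
  Finset.sum_bij' (fun x _ => flp x i) (fun x _ => flp x i) (fun _ _ => Finset.mem_univ _) (fun _ _ => Finset.mem_univ _)
    (fun x _ => flp_flp x i) (fun x _ => flp_flp x i) (fun _ _ => rfl)

theorem av_pair (i : Fin n) (F : Cube n → ℝ) : av F = av (fun x => (F (up i x) + F (dn i x)) / 2) := by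
  unfold av
  congr 1
  have h : ∑ x, (F (up i x) + F (dn i x)) / 2 = (∑ x, F x + ∑ x, F (flp x i)) / 2 := by
    rw [← Finset.sum_add_distrib, Finset.sum_div]
    exact Finset.sum_congr rfl fun x _ => by rw [pair_eq]
  rw [h, sum_flp]
  ring

/-- the kernel without the factor `i` -/
noncomputable def K (r : ℝ) (i : Fin n) (x y : Cube n) : ℝ := ∏ j ∈ univ.erase i, (1 + r * sg (x j) (y j))

theorem ker_eq (r : ℝ) (i : Fin n) (x y : Cube n) : ker r x y = (1 + r * sg (x i) (y i)) * K r i x y := by
  unfold ker K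
  rw [Finset.mul_prod_erase univ (fun j => 1 + r * sg (x j) (y j)) (Finset.mem_univ i)]

theorem up_self (i : Fin n) (x : Cube n) : up i x i = true := Function.update_self ..
theorem dn_self (i : Fin n) (x : Cube n) : dn i x i = false := Function.update_self ..
theorem up_ne {i j : Fin n} (h : j ≠ i) (x : Cube n) : up i x j = x j := Function.update_of_ne h ..
theorem dn_ne {i j : Fin n} (h : j ≠ i) (x : Cube n) : dn i x j = x j := Function.update_of_ne h ..

theorem K_upl (r : ℝ) (i : Fin n) (x y : Cube n) : K r i (up i x) y = K r i x y :=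
  Finset.prod_congr rfl fun j hj => by rw [up_ne (Finset.ne_of_mem_erase hj)]
theorem K_dnl (r : ℝ) (i : Fin n) (x y : Cube n) : K r i (dn i x) y = K r i x y :=
  Finset.prod_congr rfl fun j hj => by rw [dn_ne (Finset.ne_of_mem_erase hj)]
theorem K_upr (r : ℝ) (i : Fin n) (x y : Cube n) : K r i x (up i y) = K r i x y :=
  Finset.prod_congr rfl fun j hj => by rw [up_ne (Finset.ne_of_mem_erase hj)]
theorem K_dnr (r : ℝ) (i : Fin n) (x y : Cube n) : K r i x (dn i y) = K r i x y :=
  Finset.prod_congr rfl fun j hj => by rw [dn_ne (Finset.ne_of_mem_erase hj)]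

theorem sg_false (a : Bool) : sg a false = -sg a true := by
  unfold sg; cases a <;> simp

theorem sg_sq (a b : Bool) : sg a b * sg a b = 1 := by
  unfold sg; cases a <;> cases b <;> simp

theorem sg_comm (a b : Bool) : sg a b = sg b a := by
  unfold sg; cases a <;> cases b <;> simp

theorem sg_abs (r : ℝ) (h0 : 0 ≤ r) (h1 : r ≤ 1) (a b : Bool) : 0 ≤ 1 + r * sg a b := by
  unfold sg
  split_ifs <;> linarith

theorem K_nonneg (r : ℝ) (h0 : 0 ≤ r) (h1 : r ≤ 1) (i : Fin n) (x y : Cube n) : 0 ≤ K r i x y :=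
  Finset.prod_nonneg fun _ _ => sg_abs r h0 h1 _ _

theorem ker_nonneg (r : ℝ) (h0 : 0 ≤ r) (h1 : r ≤ 1) (x y : Cube n) : 0 ≤ ker r x y :=
  Finset.prod_nonneg fun _ _ => sg_abs r h0 h1 _ _

theorem ker_symm (r : ℝ) (x y : Cube n) : ker r x y = ker r y x :=
  Finset.prod_congr rfl fun _ _ => by rw [sg_comm]

/-- sums of products over the cube -/
theorem sum_prod (f : Fin n → Bool → ℝ) : ∑ y : Cube n, ∏ i, f i (y i) = ∏ i, (f i true + f i false) := by
  have h := Finset.prod_univ_sum (fun _ : Fin n => (univ : Finset Bool)) f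
  rw [Fintype.piFinset_univ] at h
  rw [← h]
  exact Finset.prod_congr rfl fun i _ => Fintype.sum_bool _

theorem av_ker (r : ℝ) (x : Cube n) : av (fun y => ker r x y) = 1 := by
  unfold av ker
  rw [sum_prod (fun i b => 1 + r * sg (x i) b)]
  have : ∏ i : Fin n, ((1 + r * sg (x i) true) + (1 + r * sg (x i) false)) = 2 ^ n := by
    rw [Finset.prod_congr rfl fun i _ => show (1 + r * sg (x i) true) + (1 + r * sg (x i) false) = (2:ℝ) by
      rw [sg_false]; ring]
    simp
  rw [this]
  exact div_self (by positivity)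

/-- the noise operator and one bit -/
theorem T_bit (r : ℝ) (i : Fin n) (φ : Cube n → ℝ) (x : Cube n) : T r φ x =
    av (fun y => K r i x y * (((1 + r * sg (x i) true) * φ (up i y) + (1 - r * sg (x i) true) * φ (dn i y)) / 2)) := by
  unfold T
  rw [av_pair i]
  congr 1
  funext y
  rw [ker_eq r i, ker_eq r i, K_upr, K_dnr, up_self, dn_self, sg_false]
  ring

theorem av_mono {F G : Cube n → ℝ} (h : ∀ x, F x ≤ G x) : av F ≤ av G := by
  unfold av
  exact div_le_div_of_nonneg_right (Finset.sum_le_sum fun x _ => h x) (by positivity)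

theorem av_nonneg {F : Cube n → ℝ} (h : ∀ x, 0 ≤ F x) : 0 ≤ av F :=
  div_nonneg (Finset.sum_nonneg fun x _ => h x) (by positivity)

theorem av_add (F G : Cube n → ℝ) : av (fun x => F x + G x) = av F + av G := by
  unfold av
  rw [Finset.sum_add_distrib, add_div]

theorem av_smul (c : ℝ) (F : Cube n → ℝ) : av (fun x => c * F x) = c * av F := by
  unfold av
  rw [← Finset.mul_sum, mul_div_assoc]

theorem av_sum {ι : Type} (s : Finset ι) (F : ι → Cube n → ℝ) : av (fun x => ∑ i ∈ s, F i x) = ∑ i ∈ s, av (F i) := by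
  unfold av
  rw [Finset.sum_comm, Finset.sum_div]

theorem av_sub (F G : Cube n → ℝ) : av (fun x => F x - G x) = av F - av G := by
  unfold av
  rw [Finset.sum_sub_distrib, sub_div]

theorem T_add (r : ℝ) (F G : Cube n → ℝ) (x : Cube n) : T r (fun y => F y + G y) x = T r F x + T r G x := by
  unfold T
  rw [← av_add]
  congr 1
  funext y
  ring

theorem T_smul (r c : ℝ) (F : Cube n → ℝ) (x : Cube n) : T r (fun y => c * F y) x = c * T r F x := by
  unfold T
  rw [← av_smul]
  congr 1
  funext y
  ring

theorem T_sum {ι : Type} (r : ℝ) (s : Finset ι) (F : ι → Cube n → ℝ) (x : Cube n) :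
    T r (fun y => ∑ i ∈ s, F i y) x = ∑ i ∈ s, T r (F i) x := by
  unfold T
  rw [← av_sum]
  congr 1
  funext y
  rw [Finset.mul_sum]

theorem T_const (r c : ℝ) (x : Cube n) : T r (fun _ => c) x = c := by
  have h := T_smul r c (fun _ => (1:ℝ)) x
  have h1 : T r (fun _ => (1:ℝ)) x = 1 := by
    unfold T
    simp only [mul_one]
    exact av_ker r x
  rw [h1] at h
  simpa using h

theorem T_nonneg (r : ℝ) (h0 : 0 ≤ r) (h1 : r ≤ 1) (F : Cube n → ℝ) (x : Cube n) (h : ∀ y, 0 ≤ F y) : 0 ≤ T r F x :=
  av_nonneg fun y => mul_nonneg (ker_nonneg r h0 h1 x y) (h y)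

/-- functions which do not depend on the bit -/
theorem T_indep (r : ℝ) (i : Fin n) (g : Cube n → ℝ) (hg : ∀ x, g (up i x) = g (dn i x)) (x : Cube n) :
    T r g x = av (fun y => K r i x y * g (up i y)) := by
  rw [T_bit r i]
  congr 1
  funext y
  rw [hg]
  ring

theorem ker_one (x y : Cube n) : ker 1 x y = if y = x then 2 ^ n else 0 := by
  unfold ker
  split_ifs with h
  · subst h
    rw [Finset.prod_congr rfl fun i _ => show 1 + 1 * sg (y i) (y i) = (2:ℝ) by unfold sg; simp; norm_num]
    simp
  · have : ∃ i, y i ≠ x i := by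
      by_contra hc
      push Not at hc
      exact h (funext hc)
    obtain ⟨i, hi⟩ := this
    refine Finset.prod_eq_zero (Finset.mem_univ i) ?_
    unfold sg
    rw [if_neg (Ne.symm hi)]
    ring

end KERx

theorem t_KER : KER := by
  refine ⟨fun n r h0 h1 x y => KERx.ker_nonneg r h0 h1 x y, fun n r x y => KERx.ker_symm r x y,
    fun n r x => KERx.av_ker r x, ?_, ?_, ?_, fun n i F => KERx.av_pair i F⟩
  · intro n φ x
    unfold T av
    simp only [KERx.ker_one, ite_mul, zero_mul]
    rw [Finset.sum_ite_eq' univ x, if_pos (Finset.mem_univ x)]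
    field_simp
  · intro n φ x
    unfold T
    congr 1
    funext y
    have : ker 0 x y = 1 := by
      unfold ker
      simp
    rw [this, one_mul]
  · intro n r i g hg x
    rw [KERx.T_indep r i g hg, KERx.T_indep r i g hg]
    congr 1
    funext y
    rw [KERx.K_upl, KERx.K_dnl]

end Pool.Agent.Y984.MD
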