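import Pool.Agent.Y984.MD.Stm

/-! Project MD (helper984), part MD-LAB: maximal inequality for noise operators, by helper727. -/

set_option autoImplicit false

namespace Pool.Agent.Y984.MD

open Finset

namespace LABaux

variable {n : ℕ}

/-- kernel of the conditional expectation -/
noncomputable def K (S : Finset (Fin n)) (x y : Cube n) : ℝ :=
  ∏ i, if i ∈ S then (1 + sg (x i) (y i)) else 1

/-- conditional expectation with respect to the coordinates in `S` -/
noncomputable def M (S : Finset (Fin n)) (F : Cube n → ℝ) (x : Cube n) : ℝ :=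
  av (fun y => K S x y * F y)

/-- `G` depends only on the coordinates in `S` -/
def Dep (S : Finset (Fin n)) (G : Cube n → ℝ) : Prop :=
  ∀ x x' : Cube n, (∀ i ∈ S, x i = x' i) → G x = G x'

theorem av_add (F G : Cube n → ℝ) : av (fun x => F x + G x) = av F + av G := by
  unfold av
  rw [Finset.sum_add_distrib, add_div]

theorem av_sub (F G : Cube n → ℝ) : av (fun x => F x - G x) = av F - av G := by
  unfold av
  rw [Finset.sum_sub_distrib, sub_div]

theorem av_mul_left (c : ℝ) (F : Cube n → ℝ) : av (fun x => c * F x) = c * av F := by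
  unfold av
  rw [← Finset.mul_sum, mul_div_assoc]

theorem av_mono {F G : Cube n → ℝ} (h : ∀ x, F x ≤ G x) : av F ≤ av G := by
  unfold av
  exact div_le_div_of_nonneg_right (Finset.sum_le_sum fun x _ => h x) (by positivity)

theorem av_nonneg {F : Cube n → ℝ} (h : ∀ x, 0 ≤ F x) : 0 ≤ av F := by
  unfold av
  exact div_nonneg (Finset.sum_nonneg fun x _ => h x) (by positivity)

theorem av_one : av (fun _ : Cube n => (1 : ℝ)) = 1 := by
  unfold av
  simp

theorem av_sum {ι : Type*} (s : Finset ι) (F : ι → Cube n → ℝ) :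
    av (fun x => ∑ j ∈ s, F j x) = ∑ j ∈ s, av (F j) := by
  unfold av
  rw [Finset.sum_comm, Finset.sum_div]

theorem av_ind (A : Finset (Cube n)) : av (ind A) = dens A := by
  unfold av dens ind
  simp

theorem sg_symm (a b : Bool) : sg a b = sg b a := by
  unfold sg
  simp only [eq_comm]

theorem K_symm (S : Finset (Fin n)) (x y : Cube n) : K S x y = K S y x := by
  unfold K
  refine Finset.prod_congr rfl fun i _ => ?_
  rw [sg_symm]

theorem K_nonneg (S : Finset (Fin n)) (x y : Cube n) : 0 ≤ K S x y := by
  unfold K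
  refine Finset.prod_nonneg fun i _ => ?_
  split_ifs
  · unfold sg
    split_ifs <;> norm_num
  · norm_num

theorem av_K (S : Finset (Fin n)) (x : Cube n) : av (fun y => K S x y) = 1 := by
  unfold av K
  have h := Finset.prod_univ_sum (fun _ : Fin n => (univ : Finset Bool))
    (fun (i : Fin n) (b : Bool) => if i ∈ S then (1 + sg (x i) b) else (1 : ℝ))
  rw [Fintype.piFinset_univ] at h
  rw [← h]
  have h2 : ∀ i : Fin n, ∑ b : Bool, (if i ∈ S then (1 + sg (x i) b) else (1 : ℝ)) = 2 := by
    intro i
    rw [Fintype.sum_bool]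
    by_cases hi : i ∈ S
    · rw [if_pos hi, if_pos hi]
      cases x i <;> simp [sg] <;> norm_num
    · rw [if_neg hi, if_neg hi]
      norm_num
  rw [Finset.prod_congr rfl fun i _ => h2 i, Finset.prod_const, Finset.card_univ,
    Fintype.card_fin, div_self (by positivity)]

theorem M_symm (S : Finset (Fin n)) (F G : Cube n → ℝ) :
    av (fun x => G x * M S F x) = av (fun x => F x * M S G x) := by
  unfold M av
  congr 1
  have h1 : ∀ (F G : Cube n → ℝ), ∑ x, G x * ((∑ y, K S x y * F y) / 2 ^ n) =
      (∑ x, ∑ y, G x * (K S x y * F y)) / 2 ^ n := by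
    intro F G
    rw [Finset.sum_div]
    refine Finset.sum_congr rfl fun x _ => ?_
    rw [← mul_div_assoc, Finset.mul_sum]
  rw [h1, h1, Finset.sum_comm]
  congr 1
  refine Finset.sum_congr rfl fun x _ => Finset.sum_congr rfl fun y _ => ?_
  rw [K_symm S y x]
  ring

theorem M_of_dep {S : Finset (Fin n)} {G : Cube n → ℝ} (hG : Dep S G) (x : Cube n) :
    M S G x = G x := by
  unfold M
  have h1 : (fun y => K S x y * G y) = fun y => G x * K S x y := by
    funext y
    by_cases h : ∀ i ∈ S, x i = y i
    · rw [hG x y h, mul_comm]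
    · push Not at h
      obtain ⟨i, hi, hne⟩ := h
      have h0 : K S x y = 0 := by
        unfold K
        refine Finset.prod_eq_zero (Finset.mem_univ i) ?_
        rw [if_pos hi]
        unfold sg
        rw [if_neg hne]
        norm_num
      rw [h0, zero_mul, mul_zero]
  rw [h1, av_mul_left, av_K, mul_one]

theorem dep_M (S : Finset (Fin n)) (F : Cube n → ℝ) : Dep S (M S F) := by
  intro x x' h
  unfold M
  congr 1
  funext y
  congr 1
  unfold K
  refine Finset.prod_congr rfl fun i _ => ?_
  by_cases hi : i ∈ S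
  · rw [if_pos hi, if_pos hi, h i hi]
  · rw [if_neg hi, if_neg hi]

theorem M_nonneg (S : Finset (Fin n)) {F : Cube n → ℝ} (hF : ∀ x, 0 ≤ F x) (x : Cube n) :
    0 ≤ M S F x :=
  av_nonneg fun y => mul_nonneg (K_nonneg S x y) (hF y)

open Classical in
/-- Doob's maximal inequality. -/
theorem doob (S : ℕ → Finset (Fin n)) (hS : Monotone S) (F : Cube n → ℝ) (l : ℝ) (m : ℕ) :
    l * av (fun x => if ∃ i < m, l ≤ M (S i) F x then (1 : ℝ) else 0) ≤
      av (fun x => F x * if ∃ i < m, l ≤ M (S i) F x then (1 : ℝ) else 0) := by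
  classical
  induction m with
  | zero => simp [av]
  | succ m ih =>
    let e : Cube n → ℝ := fun x => if ∃ i < m, l ≤ M (S i) F x then (1 : ℝ) else 0
    let b : Cube n → ℝ := fun x =>
      if (l ≤ M (S m) F x ∧ ¬ ∃ i < m, l ≤ M (S i) F x) then (1 : ℝ) else 0
    have hbe : ∀ x, (if ∃ i < m + 1, l ≤ M (S i) F x then (1 : ℝ) else 0) = e x + b x := by
      intro x
      have hiff : (∃ i < m + 1, l ≤ M (S i) F x) ↔
          ((∃ i < m, l ≤ M (S i) F x) ∨ l ≤ M (S m) F x) := by
        constructor
        · rintro ⟨i, hi, h⟩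
          rcases Nat.lt_succ_iff_lt_or_eq.1 hi with h1 | h1
          · exact Or.inl ⟨i, h1, h⟩
          · exact Or.inr (h1 ▸ h)
        · rintro (⟨i, hi, h⟩ | h)
          · exact ⟨i, by omega, h⟩
          · exact ⟨m, by omega, h⟩
      show _ = (if ∃ i < m, l ≤ M (S i) F x then (1 : ℝ) else 0) +
        (if (l ≤ M (S m) F x ∧ ¬ ∃ i < m, l ≤ M (S i) F x) then (1 : ℝ) else 0)
      by_cases h1 : ∃ i < m, l ≤ M (S i) F x
      · rw [if_pos (hiff.2 (Or.inl h1)), if_pos h1, if_neg (fun h => h.2 h1)]
        norm_num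
      · by_cases h2 : l ≤ M (S m) F x
        · rw [if_pos (hiff.2 (Or.inr h2)), if_neg h1, if_pos ⟨h2, h1⟩]
          norm_num
        · rw [if_neg (fun h => (hiff.1 h).elim h1 h2), if_neg h1, if_neg (fun h => h2 h.1)]
          norm_num
    have hb : Dep (S m) b := by
      intro x x' h
      have h1 : M (S m) F x = M (S m) F x' := dep_M (S m) F x x' h
      have h2 : (∃ i < m, l ≤ M (S i) F x) ↔ (∃ i < m, l ≤ M (S i) F x') := by
        refine exists_congr fun i => and_congr_right fun hi => ?_
        rw [dep_M (S i) F x x' (fun j hj => h j (hS hi.le hj))]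
      show (if (l ≤ M (S m) F x ∧ ¬ ∃ i < m, l ≤ M (S i) F x) then (1 : ℝ) else 0) =
        (if (l ≤ M (S m) F x' ∧ ¬ ∃ i < m, l ≤ M (S i) F x') then (1 : ℝ) else 0)
      simp only [h1, h2]
    have hstep : l * av b ≤ av (fun x => F x * b x) := by
      have h1 : av (fun x => F x * b x) = av (fun x => b x * M (S m) F x) := by
        rw [M_symm]
        congr 1
        funext x
        rw [M_of_dep hb]
      rw [h1, ← av_mul_left]
      refine av_mono fun x => ?_
      show l * (if (l ≤ M (S m) F x ∧ ¬ ∃ i < m, l ≤ M (S i) F x) then (1 : ℝ) else 0) ≤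
        (if (l ≤ M (S m) F x ∧ ¬ ∃ i < m, l ≤ M (S i) F x) then (1 : ℝ) else 0) * M (S m) F x
      split_ifs with h
      · simpa using h.1
      · simp
    have hL : av (fun x => if ∃ i < m + 1, l ≤ M (S i) F x then (1 : ℝ) else 0) =
        av e + av b := by
      rw [← av_add]
      congr 1
      funext x
      exact hbe x
    have hR : av (fun x => F x * if ∃ i < m + 1, l ≤ M (S i) F x then (1 : ℝ) else 0) =
        av (fun x => F x * e x) + av (fun x => F x * b x) := by
      rw [← av_add]
      congr 1
      funext x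
      rw [hbe x, mul_add]
    have ih' : l * av e ≤ av (fun x => F x * e x) := ih
    show l * av (fun x => if ∃ i < m + 1, l ≤ M (S i) F x then (1 : ℝ) else 0) ≤
      av (fun x => F x * if ∃ i < m + 1, l ≤ M (S i) F x then (1 : ℝ) else 0)
    rw [hL, hR, mul_add]
    linarith

/-- the inequality for one chain -/
theorem chain (S : ℕ → Finset (Fin n)) (hS : Monotone S) (A : Finset (Cube n)) (m : ℕ) :
    (dens A) ^ 2 / 4 ≤
      av (fun x => (range (m + 1)).inf' nonempty_range_add_one (fun i => M (S i) (ind A) x)) := by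
  classical
  set μ := dens A with hμ
  have hμ0 : 0 ≤ μ := by rw [hμ]; unfold dens; positivity
  have hμ1 : μ ≤ 1 := by
    rw [hμ, ← av_ind, ← av_one (n := n)]
    refine av_mono fun x => ?_
    unfold ind
    split_ifs <;> norm_num
  have hind : ∀ x : Cube n, 0 ≤ ind A x := fun x => by
    unfold ind
    split_ifs <;> norm_num
  let F : Cube n → ℝ := fun x => 1 - ind A x
  have hF0 : ∀ x, 0 ≤ F x := fun x => by
    show 0 ≤ 1 - ind A x
    unfold ind
    split_ifs <;> norm_num
  have hMF : ∀ (i : ℕ) (x : Cube n), M (S i) F x = 1 - M (S i) (ind A) x := by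
    intro i x
    unfold M
    have h1 : (fun y => K (S i) x y * F y) = fun y => K (S i) x y - K (S i) x y * ind A y := by
      funext y
      show K (S i) x y * (1 - ind A y) = _
      ring
    rw [h1, av_sub, av_K]
  obtain ⟨l, hl⟩ : ∃ l : ℝ, l = 1 - μ / 2 := ⟨_, rfl⟩
  have hD := doob S hS F l (m + 1)
  set e : Cube n → ℝ := fun x => if ∃ i < m + 1, l ≤ M (S i) F x then (1 : ℝ) else 0 with he
  have h1 : l * av e ≤ 1 - μ := by
    refine hD.trans ?_
    have h2 : av F = 1 - μ := by
      show av (fun x => 1 - ind A x) = _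
      rw [av_sub, av_one, av_ind]
    rw [← h2]
    refine av_mono fun x => ?_
    show F x * e x ≤ F x
    refine mul_le_of_le_one_right (hF0 x) ?_
    show (if ∃ i < m + 1, l ≤ M (S i) F x then (1 : ℝ) else 0) ≤ 1
    split_ifs <;> norm_num
  have h3 : ∀ x, μ / 2 * (1 - e x) ≤
      (range (m + 1)).inf' nonempty_range_add_one (fun i => M (S i) (ind A) x) := by
    intro x
    refine Finset.le_inf' _ _ fun i hi => ?_
    rw [Finset.mem_range] at hi
    by_cases hx : ∃ i < m + 1, l ≤ M (S i) F x
    · have : e x = 1 := if_pos hx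
      rw [this, sub_self, mul_zero]
      exact M_nonneg _ hind x
    · have : e x = 0 := if_neg hx
      rw [this, sub_zero, mul_one]
      push Not at hx
      have h4 := hx i hi
      rw [hMF, hl] at h4
      linarith
  have h5 : μ / 2 * (1 - av e) ≤
      av (fun x => (range (m + 1)).inf' nonempty_range_add_one (fun i => M (S i) (ind A) x)) := by
    refine le_trans (le_of_eq ?_) (av_mono h3)
    rw [av_mul_left, av_sub, av_one]
  refine le_trans ?_ h5
  have h6 : μ / 2 ≤ 1 - av e := by
    -- `l (1 - av e) ≥ l - (1 - μ) = μ / 2 ≥ l μ / 2`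
    have hl2 : 1 / 2 ≤ l := by rw [hl]; linarith
    have h7 : l * (μ / 2) ≤ l * (1 - av e) := by
      have : l * (μ / 2) ≤ μ / 2 := by
        refine mul_le_of_le_one_left (by linarith) ?_
        rw [hl]; linarith
      rw [mul_sub, mul_one]
      linarith
    exact le_of_mul_le_mul_left h7 (by linarith)
  have : μ ^ 2 / 4 = μ / 2 * (μ / 2) := by ring
  rw [this]
  exact mul_le_mul_of_nonneg_left h6 (by linarith)

end LABaux

open LABaux

theorem t_LAB : LAB := by
  classical
  intro n A ρ hρ h0 h1 m
  let g : ℕ → ℝ := fun j => if j = 0 then 0 else if j - 1 ≤ m then ρ (j - 1) else 1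
  have hg0 : g 0 = 0 := rfl
  have hgs : ∀ j, j ≤ m → g (j + 1) = ρ j := by
    intro j hj
    show (if j + 1 = 0 then 0 else if j + 1 - 1 ≤ m then ρ (j + 1 - 1) else 1) = ρ j
    rw [if_neg (by omega), Nat.add_sub_cancel, if_pos hj]
  have hgl : g (m + 2) = 1 := by
    show (if m + 2 = 0 then 0 else if m + 2 - 1 ≤ m then ρ (m + 2 - 1) else 1) = 1
    rw [if_neg (by omega), if_neg (by omega)]
  have hgm : ∀ j ∈ range (m + 2), 0 ≤ g (j + 1) - g j := by
    intro j hj
    rw [Finset.mem_range] at hj
    rcases Nat.eq_zero_or_pos j with rfl | hj0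
    · rw [hg0, hgs 0 (by omega)]
      have := h0 0
      linarith
    · obtain ⟨i, rfl⟩ : ∃ i, j = i + 1 := ⟨j - 1, by omega⟩
      rw [hgs i (by omega)]
      by_cases hi : i + 1 ≤ m
      · rw [hgs (i + 1) hi]
        have := hρ (Nat.le_succ i)
        exact sub_nonneg.2 this
      · have hi' : i = m := by omega
        rw [hi', hgl]
        have := h1 m
        linarith
  let W : (Fin n → ℕ) → ℝ := fun p => ∏ i, (g (p i + 1) - g (p i))
  let S : (Fin n → ℕ) → ℕ → Finset (Fin n) := fun p j => univ.filter fun i => p i ≤ j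
  have hSm : ∀ p, Monotone (S p) := by
    intro p a b hab i hi
    rw [Finset.mem_filter] at hi ⊢
    exact ⟨hi.1, hi.2.trans hab⟩
  let L : Finset (Fin n → ℕ) := Fintype.piFinset fun _ => range (m + 2)
  have hW0 : ∀ p ∈ L, 0 ≤ W p := by
    intro p hp
    rw [Fintype.mem_piFinset] at hp
    exact Finset.prod_nonneg fun i _ => hgm _ (hp i)
  have hsum : ∑ j ∈ range (m + 2), (g (j + 1) - g j) = 1 := by
    rw [Finset.sum_range_sub, hgl, hg0, sub_zero]
  have hW1 : ∑ p ∈ L, W p = 1 := by
    have h := Finset.prod_univ_sum (fun _ : Fin n => range (m + 2))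
      (fun (_ : Fin n) (j : ℕ) => g (j + 1) - g j)
    rw [← h, Finset.prod_congr rfl fun i _ => hsum, Finset.prod_const_one]
  -- the noise operators are mixtures of conditional expectations
  have hmix : ∀ j ≤ m, ∀ x : Cube n, T (ρ j) (ind A) x = ∑ p ∈ L, W p * M (S p j) (ind A) x := by
    intro j hj x
    have hker : ∀ y : Cube n, ker (ρ j) x y = ∑ p ∈ L, W p * K (S p j) x y := by
      intro y
      have h := Finset.prod_univ_sum (fun _ : Fin n => range (m + 2))
        (fun (i : Fin n) (l : ℕ) => (g (l + 1) - g l) *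
          (if l ≤ j then (1 + sg (x i) (y i)) else 1))
      have h2 : ∀ i : Fin n, ∑ l ∈ range (m + 2), (g (l + 1) - g l) *
          (if l ≤ j then (1 + sg (x i) (y i)) else 1) = 1 + ρ j * sg (x i) (y i) := by
        intro i
        have h3 : ∀ l ∈ range (m + 2), (g (l + 1) - g l) *
            (if l ≤ j then (1 + sg (x i) (y i)) else 1) =
            (g (l + 1) - g l) + sg (x i) (y i) * (if l < j + 1 then (g (l + 1) - g l) else 0) := by
          intro l _
          by_cases hl : l ≤ j
          · rw [if_pos hl, if_pos (by omega)]; ring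
          · rw [if_neg hl, if_neg (by omega)]; ring
        rw [Finset.sum_congr rfl h3, Finset.sum_add_distrib, hsum, ← Finset.mul_sum,
          ← Finset.sum_filter]
        have h4 : (range (m + 2)).filter (fun l => l < j + 1) = range (j + 1) := by
          ext l
          simp only [Finset.mem_filter, Finset.mem_range]
          omega
        rw [h4, Finset.sum_range_sub, hgs j hj, hg0, sub_zero, mul_comm]
      unfold ker
      rw [← Finset.prod_congr rfl fun i _ => h2 i, h]
      refine Finset.sum_congr rfl fun p _ => ?_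
      show _ = (∏ i, (g (p i + 1) - g (p i))) * K (S p j) x y
      unfold K
      rw [← Finset.prod_mul_distrib]
      refine Finset.prod_congr rfl fun i _ => ?_
      congr 1
      have : i ∈ S p j ↔ p i ≤ j := by
        show i ∈ univ.filter (fun i => p i ≤ j) ↔ _
        simp
      simp only [this]
    unfold T
    have h5 : (fun y => ker (ρ j) x y * ind A y) =
        fun y => ∑ p ∈ L, W p * (K (S p j) x y * ind A y) := by
      funext y
      rw [hker y, Finset.sum_mul]
      exact Finset.sum_congr rfl fun p _ => by ring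
    rw [h5, av_sum]
    exact Finset.sum_congr rfl fun p _ => av_mul_left _ _
  have hle : ∀ x : Cube n, ∑ p ∈ L, W p * (range (m + 1)).inf' nonempty_range_add_one
      (fun i => M (S p i) (ind A) x) ≤
      (range (m + 1)).inf' nonempty_range_add_one (fun i => T (ρ i) (ind A) x) := by
    intro x
    refine Finset.le_inf' _ _ fun j hj => ?_
    rw [hmix j (Nat.lt_succ_iff.1 (Finset.mem_range.1 hj)) x]
    refine Finset.sum_le_sum fun p hp => mul_le_mul_of_nonneg_left ?_ (hW0 p hp)
    exact Finset.inf'_le (fun i => M (S p i) (ind A) x) hj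
  refine le_trans ?_ (av_mono hle)
  rw [av_sum]
  calc (dens A) ^ 2 / 4 = ∑ p ∈ L, W p * ((dens A) ^ 2 / 4) := by
        rw [← Finset.sum_mul, hW1, one_mul]
    _ ≤ _ := by
        refine Finset.sum_le_sum fun p hp => ?_
        rw [av_mul_left]
        exact mul_le_mul_of_nonneg_left (chain (S p) (hSm p) A m) (hW0 p hp)

end Pool.Agent.Y984.MD
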