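import Pool.Agent.Y984.MD.Stm

set_option autoImplicit false

/-! Project MD (helper984), part LEV (helper980): level decomposition. -/

namespace Pool.Agent.Y984.MD

open Finset

namespace LEVaux

lemma cl_nonneg (j : ℕ) (s : ℝ) : 0 ≤ cl j s := by
  unfold cl
  exact le_min (le_max_right _ _) (by positivity)

lemma cl_eq (j : ℕ) (s : ℝ) : cl j s = min s (2 ^ (j + 1)) - min s (2 ^ j) := by
  unfold cl
  have h2 : (0 : ℝ) < 2 ^ j := by positivity
  rw [pow_succ]
  rcases le_total s (2 ^ j) with h | h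
  · rw [min_eq_left h, min_eq_left (show s ≤ 2 ^ j * 2 by linarith),
      max_eq_right (by linarith), min_eq_left h2.le]
    ring
  · rw [min_eq_right h, max_eq_left (by linarith)]
    rcases le_total s (2 ^ j * 2) with h' | h'
    · rw [min_eq_left h', min_eq_left (by linarith)]
    · rw [min_eq_right h', min_eq_right (by linarith)]
      ring

lemma sum_cl (J m : ℕ) (s : ℝ) :
    ∑ i ∈ range m, cl (J + i) s = min s (2 ^ (J + m)) - min s (2 ^ J) := by
  induction m with
  | zero => simp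
  | succ m ih =>
    rw [Finset.sum_range_succ, ih, cl_eq, ← add_assoc]
    ring

lemma sq_le (A : Finset ℕ) (a : ℕ → ℝ) (ha : ∀ i, 0 ≤ a i) :
    ∑ i ∈ A, a i ^ 2 ≤ (∑ i ∈ A, a i) ^ 2 := by
  rw [sq (∑ i ∈ A, a i), Finset.sum_mul]
  refine Finset.sum_le_sum fun i hi => ?_
  rw [sq]
  exact mul_le_mul_of_nonneg_left (Finset.single_le_sum (fun j _ => ha j) hi) (ha i)

lemma part1 (J m : ℕ) (s : ℝ) (hs : 0 ≤ s) : ∑ i ∈ range m, (cl (J + i) s) ^ 2 ≤ s ^ 2 := by
  have h1 : ∑ i ∈ range m, (cl (J + i) s) ^ 2 ≤ (∑ i ∈ range m, cl (J + i) s) ^ 2 :=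
    sq_le (range m) (fun i => cl (J + i) s) fun i => cl_nonneg _ _
  refine h1.trans ?_
  have h2 : 0 ≤ ∑ i ∈ range m, cl (J + i) s := Finset.sum_nonneg fun i _ => cl_nonneg _ _
  refine pow_le_pow_left₀ h2 ?_ 2
  rw [sum_cl]
  have h3 : min s (2 ^ (J + m)) ≤ s := min_le_left _ _
  have h4 : 0 ≤ min s ((2 : ℝ) ^ J) := le_min hs (by positivity)
  linarith

lemma part2 (J m : ℕ) (s : ℝ) (h1 : 2 ^ (J + 1) ≤ s) (h2 : s ≤ 2 ^ (J + m)) :
    s ^ 2 / 16 ≤ ∑ i ∈ range m, (cl (J + i) s) ^ 2 := by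
  -- a level `i < m` with `2^(J+i+1) ≤ s ≤ 2^(J+i+2)`
  have hs : 0 < s := lt_of_lt_of_le (by positivity) h1
  obtain ⟨i, hi, h3, h4⟩ : ∃ i < m, (2 : ℝ) ^ (J + i + 1) ≤ s ∧ s ≤ 2 ^ (J + i + 2) := by
    clear hs
    induction m with
    | zero =>
      exfalso
      have h5 : (2 : ℝ) ^ (J + 1) ≤ 2 ^ (J + 0) := h1.trans h2
      have h6 : (0 : ℝ) < 2 ^ J := by positivity
      rw [pow_succ, add_zero] at h5
      linarith
    | succ m ih =>
      rcases le_total s (2 ^ (J + m)) with h | h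
      · obtain ⟨i, hi, h⟩ := ih h
        exact ⟨i, by omega, h⟩
      · rcases le_total (2 ^ (J + m + 1)) s with h' | h'
        · refine ⟨m, by omega, h', ?_⟩
          refine h2.trans ?_
          exact pow_le_pow_right₀ (by norm_num) (by omega)
        · rcases Nat.eq_zero_or_pos m with hm | hm
          · subst hm
            refine ⟨0, by omega, h1, ?_⟩
            refine h2.trans ?_
            exact pow_le_pow_right₀ (by norm_num) (by omega)
          · refine ⟨m - 1, by omega, ?_, ?_⟩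
            · rw [show J + (m - 1) + 1 = J + m by omega]
              exact h
            · rw [show J + (m - 1) + 2 = J + m + 1 by omega]
              exact h'
  have h5 : (cl (J + i) s) ^ 2 ≤ ∑ i ∈ range m, (cl (J + i) s) ^ 2 :=
    Finset.single_le_sum (f := fun i => (cl (J + i) s) ^ 2) (fun i _ => sq_nonneg _)
      (Finset.mem_range.mpr hi)
  refine le_trans ?_ h5
  have h6 : cl (J + i) s = 2 ^ (J + i) := by
    have h7 : (0 : ℝ) < 2 ^ (J + i) := by positivity
    rw [cl_eq, min_eq_right h3, min_eq_right (by rw [pow_succ] at h3; linarith), pow_succ]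
    ring
  rw [h6]
  have h8 : s / 4 ≤ 2 ^ (J + i) := by
    rw [pow_add 2 (J + i) 2] at h4
    linarith
  have h9 : (s / 4) ^ 2 ≤ (2 ^ (J + i)) ^ 2 := pow_le_pow_left₀ (by linarith) h8 2
  linarith [h9, show (s / 4) ^ 2 = s ^ 2 / 16 by ring]

lemma part3 (j : ℕ) (s t : ℝ) (hs : 0 ≤ s) (ht : 0 ≤ t) :
    (cl j s - cl j t) ^ 2 ≤ (min (s ^ 2) (4 ^ (j + 1)) - min (t ^ 2) (4 ^ (j + 1))) ^ 2 /
      4 ^ (j + 1) := by
  wlog hst : s ≤ t generalizing s t
  · have := this t s ht hs (by linarith)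
    rw [show (cl j s - cl j t) ^ 2 = (cl j t - cl j s) ^ 2 by ring,
      show (min (s ^ 2) (4 ^ (j + 1)) - min (t ^ 2) (4 ^ (j + 1)) : ℝ) ^ 2 =
        (min (t ^ 2) (4 ^ (j + 1)) - min (s ^ 2) (4 ^ (j + 1))) ^ 2 by ring]
    exact this
  have hc : (0 : ℝ) < 2 ^ j := by positivity
  have e4 : (4 : ℝ) ^ (j + 1) = (2 * 2 ^ j) ^ 2 := by
    rw [pow_succ, mul_pow, ← pow_mul, mul_comm j 2, pow_mul]
    norm_num
    ring
  rw [e4, le_div_iff₀ (by positivity)]
  set c : ℝ := 2 ^ j with hcd
  have key : ∀ u : ℝ, 0 ≤ u → min (u ^ 2) ((2 * c) ^ 2) = (min u (2 * c)) ^ 2 := by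
    intro u hu
    rcases le_total u (2 * c) with h | h
    · rw [min_eq_left h, min_eq_left (pow_le_pow_left₀ hu h 2)]
    · rw [min_eq_right h, min_eq_right (pow_le_pow_left₀ (by positivity) h 2)]
  rw [key s hs, key t ht]
  have e1 : ∀ u : ℝ, cl j u = min u (2 * c) - min u c := by
    intro u
    rw [cl_eq, pow_succ, mul_comm]
  rw [e1, e1, ← mul_pow]
  have hs' : 0 ≤ min s (2 * c) := le_min hs (by positivity)
  -- reduce to absolute values: both sides nonneg for `s ≤ t`
  have m1 : min s (2 * c) ≤ min t (2 * c) := min_le_min_right _ hst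
  have h5 : 0 ≤ (min t (2 * c) - min t c) - (min s (2 * c) - min s c) := by
    rw [← e1, ← e1]
    unfold cl
    have : max (s - 2 ^ j) 0 ≤ max (t - 2 ^ j : ℝ) 0 := max_le_max_right _ (by linarith)
    have := min_le_min_right ((2 : ℝ) ^ j) this
    linarith
  have h6 : ((min t (2 * c) - min t c) - (min s (2 * c) - min s c)) * (2 * c) ≤
      (min t (2 * c)) ^ 2 - (min s (2 * c)) ^ 2 := by
    rcases le_total s (2 * c) with a1 | a1
    · rcases le_total t (2 * c) with a2 | a2
      · rw [min_eq_left a1, min_eq_left a2]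
        rcases le_total s c with b1 | b1
        · rcases le_total t c with b2 | b2
          · rw [min_eq_left b1, min_eq_left b2]
            nlinarith
          · rw [min_eq_left b1, min_eq_right b2]
            nlinarith
        · rw [min_eq_right b1, min_eq_right (b1.trans hst)]
          nlinarith
      · have b2 : c ≤ t := by linarith
        rw [min_eq_left a1, min_eq_right a2, min_eq_right b2]
        rcases le_total s c with b1 | b1
        · rw [min_eq_left b1]
          nlinarith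
        · rw [min_eq_right b1]
          nlinarith
    · have a2 : 2 * c ≤ t := a1.trans hst
      rw [min_eq_right a1, min_eq_right a2, min_eq_right (by linarith), min_eq_right (by linarith)]
      nlinarith
  have h7 : (min s (2 * c) - min s c - (min t (2 * c) - min t c)) * (2 * c) =
      - (((min t (2 * c) - min t c) - (min s (2 * c) - min s c)) * (2 * c)) := by ring
  have h8 : (min s (2 * c)) ^ 2 - (min t (2 * c)) ^ 2 =
      - ((min t (2 * c)) ^ 2 - (min s (2 * c)) ^ 2) := by ring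
  rw [h7, h8, neg_sq, neg_sq]
  exact pow_le_pow_left₀ (mul_nonneg h5 (by positivity)) h6 2

end LEVaux

open LEVaux in
theorem t_LEV : LEV := by
  refine ⟨part1, part2, part3, ?_⟩
  intro b v hb hv
  unfold Psi
  split_ifs with h
  · exact ⟨sq_nonneg _, by nlinarith⟩
  · push Not at h
    exact ⟨by nlinarith, by nlinarith⟩

end Pool.Agent.Y984.MD
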