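import Pool.Agent.Y984.MD.Stm

set_option autoImplicit false

/-! Project MD, job LOC: the main inequality from DER, BES and KER. Author: helper244. -/

namespace Pool.Agent.Y984.MD

open Finset

namespace Loc

variable {n : ℕ}

theorem av_add (F G : Cube n → ℝ) : av (fun x => F x + G x) = av F + av G := by
  simp only [av, Finset.sum_add_distrib, add_div]

theorem av_sub (F G : Cube n → ℝ) : av (fun x => F x - G x) = av F - av G := by
  simp only [av, Finset.sum_sub_distrib, sub_div]

theorem av_mul (c : ℝ) (F : Cube n → ℝ) : av (fun x => c * F x) = c * av F := by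
  simp only [av, ← Finset.mul_sum, mul_div_assoc]

theorem av_mono {F G : Cube n → ℝ} (h : ∀ x, F x ≤ G x) : av F ≤ av G := by
  unfold av
  exact div_le_div_of_nonneg_right (Finset.sum_le_sum fun x _ => h x) (by positivity)

theorem av_nonneg {F : Cube n → ℝ} (h : ∀ x, 0 ≤ F x) : 0 ≤ av F := by
  unfold av
  exact div_nonneg (Finset.sum_nonneg fun x _ => h x) (by positivity)

theorem av_swap (K : Cube n → Cube n → ℝ) :
    av (fun x => av (fun y => K x y)) = av (fun y => av (fun x => K x y)) := by
  simp only [av, ← Finset.sum_div]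
  rw [Finset.sum_comm]

theorem up_up (i : Fin n) (x : Cube n) : up i (up i x) = up i x := by simp [up]
theorem up_dn (i : Fin n) (x : Cube n) : up i (dn i x) = up i x := by simp [up, dn]
theorem dn_up (i : Fin n) (x : Cube n) : dn i (up i x) = dn i x := by simp [up, dn]
theorem dn_dn (i : Fin n) (x : Cube n) : dn i (dn i x) = dn i x := by simp [dn]

theorem eq_up_or_dn (i : Fin n) (x : Cube n) : x = up i x ∨ x = dn i x := by
  cases h : x i
  · right
    unfold dn
    rw [← h, Function.update_eq_self]
  · left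
    unfold up
    rw [← h, Function.update_eq_self]

theorem inv_up {i : Fin n} {G : Cube n → ℝ} (h : ∀ x, G (up i x) = G (dn i x)) (x : Cube n) :
    G (up i x) = G x := by
  rcases eq_up_or_dn i x with h1 | h1
  · rw [← h1]
  · rw [h x, ← h1]

theorem inv_dn {i : Fin n} {G : Cube n → ℝ} (h : ∀ x, G (up i x) = G (dn i x)) (x : Cube n) :
    G (dn i x) = G x := by rw [← h x, inv_up h x]

theorem up_mem {A : Finset (Cube n)} (hA : IsUp A) {i : Fin n} {x : Cube n} (h : dn i x ∈ A) :
    up i x ∈ A := by
  refine hA _ h _ fun j => ?_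
  unfold dn up
  by_cases hj : j = i
  · subst hj; simp
  · simp [Function.update_of_ne hj]

/-- boundary part of `f` -/
noncomputable def Fi (A : Finset (Cube n)) (f : Cube n → ℝ) (i : Fin n) (x : Cube n) : ℝ :=
  if up i x ∈ A ∧ dn i x ∉ A then f (up i x) else 0

/-- boundary indicator -/
noncomputable def pi (A : Finset (Cube n)) (i : Fin n) (x : Cube n) : ℝ :=
  if up i x ∈ A ∧ dn i x ∉ A then 1 else 0

/-- inner gradient -/
noncomputable def gi (A : Finset (Cube n)) (f : Cube n → ℝ) (i : Fin n) (x : Cube n) : ℝ :=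
  if dn i x ∈ A then D i f x else 0

theorem D_ind {A : Finset (Cube n)} (hA : IsUp A) (i : Fin n) (x : Cube n) :
    D i (ind A) x = pi A i x / 2 := by
  unfold D ind pi
  by_cases h1 : dn i x ∈ A
  · have h2 := up_mem hA h1
    simp [h1, h2]
  · by_cases h2 : up i x ∈ A
    · simp [h1, h2]
    · simp [h1, h2]

theorem D_f {A : Finset (Cube n)} {f : Cube n → ℝ} (hf : ∀ x, x ∉ A → f x = 0)
    (i : Fin n) (x : Cube n) :
    D i f x = Fi A f i x / 2 + gi A f i x := by
  unfold Fi gi
  by_cases h1 : dn i x ∈ A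
  · simp [h1]
  · by_cases h2 : up i x ∈ A
    · simp [h1, h2, D, hf _ h1]
    · simp [h1, h2, D, hf _ h1, hf _ h2]

theorem D_sq {A : Finset (Cube n)} {f : Cube n → ℝ} (hf : ∀ x, x ∉ A → f x = 0)
    (i : Fin n) (x : Cube n) :
    D i (fun y => f y ^ 2) x =
      Fi A f i x ^ 2 / 2 + gi A f i x * (f (up i x) + f (dn i x)) := by
  unfold Fi gi
  by_cases h1 : dn i x ∈ A
  · simp only [h1, not_true_eq_false, and_false, if_false, if_true, D]; ring
  · by_cases h2 : up i x ∈ A
    · simp [h1, h2, D, hf _ h1]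
    · simp [h1, h2, D, hf _ h1, hf _ h2]

theorem En_eq (A : Finset (Cube n)) (f : Cube n → ℝ) :
    En A f = ∑ i, av (fun x => gi A f i x ^ 2) := by
  unfold En gi
  refine Finset.sum_congr rfl fun i _ => ?_
  congr 1
  funext x
  by_cases h : dn i x ∈ A <;> simp [h]

theorem En_nonneg (A : Finset (Cube n)) (f : Cube n → ℝ) : 0 ≤ En A f := by
  rw [En_eq]
  exact Finset.sum_nonneg fun i _ => av_nonneg fun x => sq_nonneg _

theorem gi_inv (A : Finset (Cube n)) (f : Cube n → ℝ) (i : Fin n) (x : Cube n) :
    gi A f i (up i x) = gi A f i (dn i x) := by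
  unfold gi D
  rw [dn_up, dn_dn, up_up, up_dn]

theorem pi_inv (A : Finset (Cube n)) (i : Fin n) (x : Cube n) :
    pi A i (up i x) = pi A i (dn i x) := by
  unfold pi
  rw [dn_up, dn_dn, up_up, up_dn]

theorem pi_nonneg (A : Finset (Cube n)) (i : Fin n) (x : Cube n) : 0 ≤ pi A i x := by
  unfold pi; split_ifs <;> norm_num

/-- Cauchy-Schwarz -/
theorem cs (g h : Fin n → Cube n → ℝ) :
    ∑ i, av (fun x => g i x * h i x) ≤
      Real.sqrt (∑ i, av (fun x => g i x ^ 2)) * Real.sqrt (∑ i, av (fun x => h i x ^ 2)) := by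
  have key : ∀ F : Fin n → Cube n → ℝ,
      ∑ i, av (fun x => F i x) = (∑ p : Fin n × Cube n, F p.1 p.2) / 2 ^ n := by
    intro F
    simp only [av, ← Finset.sum_div]
    rw [Fintype.sum_prod_type]
  rw [key (fun i x => g i x * h i x), key (fun i x => g i x ^ 2), key (fun i x => h i x ^ 2)]
  have h1 := Real.sum_mul_le_sqrt_mul_sqrt (univ : Finset (Fin n × Cube n))
    (fun p => g p.1 p.2) (fun p => h p.1 p.2)
  have h2n : (0 : ℝ) < 2 ^ n := by positivity
  rw [Real.sqrt_div' _ h2n.le, Real.sqrt_div' _ h2n.le, div_mul_div_comm,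
    Real.mul_self_sqrt h2n.le]
  exact div_le_div_of_nonneg_right h1 h2n.le

/-- linearity of the noise operator -/
theorem T_add (r : ℝ) (φ ψ : Cube n → ℝ) (x : Cube n) :
    T r (fun y => φ y + ψ y) x = T r φ x + T r ψ x := by
  unfold T
  rw [← av_add]
  congr 1; funext y; ring

theorem T_mul (r c : ℝ) (φ : Cube n → ℝ) (x : Cube n) :
    T r (fun y => c * φ y) x = c * T r φ x := by
  unfold T
  rw [← av_mul]
  congr 1; funext y; ring

section

variable (hK : KER) {r : ℝ} (h0 : 0 ≤ r) (h1 : r ≤ 1)
include hK h0 h1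

theorem T_nonneg {φ : Cube n → ℝ} (h : ∀ x, 0 ≤ φ x) (x : Cube n) : 0 ≤ T r φ x :=
  av_nonneg fun y => mul_nonneg (hK.1 n r h0 h1 x y) (h y)

omit h0 h1 in
theorem av_T (φ : Cube n → ℝ) : av (fun x => T r φ x) = av φ := by
  unfold T
  rw [av_swap]
  congr 1
  funext y
  have h2 : av (fun x => ker r x y) = 1 := by
    rw [← hK.2.2.1 n r y]
    congr 1
    funext x
    exact hK.2.1 n r x y
  calc av (fun x => ker r x y * φ y) = av (fun x => φ y * ker r x y) := by
        congr 1; funext x; ring
    _ = φ y := by rw [av_mul, h2, mul_one]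

/-- the quadratic form is bounded by the norm, from below -/
theorem form_ge (g : Cube n → ℝ) :
    - av (fun x => g x ^ 2) ≤ av (fun x => g x * T r g x) := by
  have e1 : av (fun x => g x * T r g x) = av (fun x => av (fun y => ker r x y * (g x * g y))) := by
    congr 1; funext x; unfold T; rw [← av_mul]; congr 1; funext y; ring
  have e2 : av (fun x => g x ^ 2) =
      av (fun x => av (fun y => ker r x y * (g x ^ 2 / 2))) +
      av (fun x => av (fun y => ker r x y * (g y ^ 2 / 2))) := by
    have a1 : av (fun x => av (fun y => ker r x y * (g x ^ 2 / 2))) =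
        av (fun x => g x ^ 2) / 2 := by
      rw [div_eq_inv_mul, ← av_mul]
      congr 1; funext x
      calc av (fun y => ker r x y * (g x ^ 2 / 2)) = av (fun y => (g x ^ 2 / 2) * ker r x y) := by
            congr 1; funext y; ring
        _ = _ := by rw [av_mul, hK.2.2.1 n r x]; ring
    have a2 : av (fun x => av (fun y => ker r x y * (g y ^ 2 / 2))) =
        av (fun x => g x ^ 2) / 2 := by
      have := av_T hK (r := r) (fun y => g y ^ 2 / 2)
      unfold T at this
      rw [this, div_eq_inv_mul, ← av_mul]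
      congr 1; funext x; ring
    rw [a1, a2]; ring
  rw [e1, e2]
  have : 0 ≤ av (fun x => av (fun y => ker r x y * ((g x + g y) ^ 2 / 2))) :=
    av_nonneg fun x => av_nonneg fun y => mul_nonneg (hK.1 n r h0 h1 x y) (by positivity)
  have e3 : av (fun x => av (fun y => ker r x y * ((g x + g y) ^ 2 / 2))) =
      av (fun x => av (fun y => ker r x y * (g x ^ 2 / 2))) +
      av (fun x => av (fun y => ker r x y * (g y ^ 2 / 2))) +
      av (fun x => av (fun y => ker r x y * (g x * g y))) := by
    rw [← av_add, ← av_add]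
    congr 1; funext x
    rw [← av_add, ← av_add]
    congr 1; funext y; ring
  linarith

/-- the boundary terms are nonnegative -/
theorem bdry_nonneg (A : Finset (Cube n)) (f : Cube n → ℝ) (i : Fin n) :
    av (fun x => Fi A f i x * T r (Fi A f i) x) ≤ av (fun x => Fi A f i x ^ 2 * T r (pi A i) x) := by
  set F := Fi A f i with hF
  set p := pi A i with hp
  have e1 : av (fun x => F x * T r F x) = av (fun x => av (fun y => ker r x y * (F x * F y))) := by
    congr 1; funext x; unfold T; rw [← av_mul]; congr 1; funext y; ring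
  have e2 : av (fun x => F x ^ 2 * T r p x) =
      av (fun x => av (fun y => ker r x y * (F x ^ 2 * p y))) := by
    congr 1; funext x; unfold T; rw [← av_mul]; congr 1; funext y; ring
  have e3 : av (fun x => av (fun y => ker r x y * (F x ^ 2 * p y))) =
      av (fun x => av (fun y => ker r x y * (F y ^ 2 * p x))) := by
    rw [av_swap]
    congr 1; funext x; congr 1; funext y
    rw [hK.2.1 n r y x]
  have h4 : 0 ≤ av (fun x => av (fun y => ker r x y *
      (F x ^ 2 * p y + F y ^ 2 * p x - 2 * (F x * F y)))) := by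
    refine av_nonneg fun x => av_nonneg fun y => mul_nonneg (hK.1 n r h0 h1 x y) ?_
    rw [hF, hp]
    unfold Fi pi
    split_ifs <;> nlinarith [sq_nonneg (f (up i x) - f (up i y))]
  have e5 : av (fun x => av (fun y => ker r x y *
      (F x ^ 2 * p y + F y ^ 2 * p x - 2 * (F x * F y)))) =
      av (fun x => av (fun y => ker r x y * (F x ^ 2 * p y))) +
      av (fun x => av (fun y => ker r x y * (F y ^ 2 * p x))) -
      2 * av (fun x => av (fun y => ker r x y * (F x * F y))) := by
    rw [← av_add, ← av_mul, ← av_sub]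
    congr 1; funext x
    rw [← av_add, ← av_mul, ← av_sub]
    congr 1; funext y; ring
  rw [e1, e2]
  linarith

end

/-- The lower bound of the derivative. -/
theorem deriv_bound (hK : KER) (hB : BES) (A : Finset (Cube n)) (hA : IsUp A) (f : Cube n → ℝ)
    (hf : ∀ x, x ∉ A → f x = 0) {r : ℝ} (h0 : 0 ≤ r) (h1 : r < 1) :
    -(3 * Real.sqrt (av (fun x => f x ^ 2)) * Real.sqrt (En A f) / Real.sqrt (1 - r) +
        3 * En A f) ≤
      (∑ i, av (fun x => D i (fun y => f y ^ 2) x * T r (D i (ind A)) x)) -
        ∑ i, av (fun x => D i f x * T r (D i f) x) := by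
  have hu : 0 < 1 - r ^ 2 := by nlinarith
  have hu2 : 1 - r ≤ 1 - r ^ 2 := by nlinarith
  have h1' : r ≤ 1 := h1.le
  have hDi : ∀ i, D i (ind A) = fun x => (1 / 2) * pi A i x := by
    intro i; funext x; rw [D_ind hA]; ring
  have hDf : ∀ i, D i f = fun x => (1 / 2) * Fi A f i x + gi A f i x := by
    intro i; funext x; rw [D_f hf]; ring
  set N2 := av (fun x => f x ^ 2) with hN2
  have hN2n : 0 ≤ N2 := av_nonneg fun x => sq_nonneg _
  -- the terms of the derivative
  have t1 : ∀ i, av (fun x => D i (fun y => f y ^ 2) x * T r (D i (ind A)) x) -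
      av (fun x => D i f x * T r (D i f) x) ≥
      - av (fun x => |gi A f i x| * (|f x| * T r (pi A i) x)) -
      2 * av (fun x => |gi A f i x| * |T r (D i f) x|) - av (fun x => gi A f i x ^ 2) := by
    intro i
    -- first form
    have a1 : av (fun x => D i (fun y => f y ^ 2) x * T r (D i (ind A)) x) =
        (1 / 4) * av (fun x => Fi A f i x ^ 2 * T r (pi A i) x) +
        (1 / 2) * av (fun x => gi A f i x * (f (up i x) + f (dn i x)) * T r (pi A i) x) := by
      rw [← av_mul, ← av_mul, ← av_add]
      congr 1; funext x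
      rw [D_sq hf, hDi i, T_mul]; ring
    have a2 : av (fun x => D i f x * T r (D i f) x) =
        (1 / 4) * av (fun x => Fi A f i x * T r (Fi A f i) x) +
        2 * av (fun x => gi A f i x * T r (D i f) x) -
        av (fun x => gi A f i x * T r (gi A f i) x) := by
      -- D f = F/2 + g, T D f = T F / 2 + T g
      have b1 : ∀ x, T r (D i f) x = (1 / 2) * T r (Fi A f i) x + T r (gi A f i) x := by
        intro x; rw [hDf i, T_add, T_mul]
      have b2 : av (fun x => Fi A f i x * T r (gi A f i) x) =
          av (fun x => gi A f i x * T r (Fi A f i) x) := by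
        have c1 : ∀ (φ ψ : Cube n → ℝ), av (fun x => φ x * T r ψ x) =
            av (fun x => av (fun y => ker r x y * (φ x * ψ y))) := by
          intro φ ψ
          congr 1; funext x; unfold T; rw [← av_mul]; congr 1; funext y; ring
        rw [c1, c1, av_swap]
        congr 1; funext x; congr 1; funext y
        rw [hK.2.1 n r y x]; ring
      have b3 : av (fun x => D i f x * T r (D i f) x) =
          (1 / 4) * av (fun x => Fi A f i x * T r (Fi A f i) x) +
          (1 / 2) * av (fun x => Fi A f i x * T r (gi A f i) x) +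
          (1 / 2) * av (fun x => gi A f i x * T r (Fi A f i) x) +
          av (fun x => gi A f i x * T r (gi A f i) x) := by
        rw [← av_mul, ← av_mul, ← av_mul, ← av_add, ← av_add, ← av_add]
        congr 1; funext x
        rw [b1 x, D_f hf]; ring
      have b4 : av (fun x => gi A f i x * T r (D i f) x) =
          (1 / 2) * av (fun x => gi A f i x * T r (Fi A f i) x) +
          av (fun x => gi A f i x * T r (gi A f i) x) := by
        rw [← av_mul, ← av_add]
        congr 1; funext x
        rw [b1 x]; ring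
      rw [b3, b4, b2]; ring
    have a3 := bdry_nonneg hK h0 h1' A f i
    have a4 := form_ge hK h0 h1' (gi A f i)
    have a5 : -(2 * av (fun x => |gi A f i x| * |T r (D i f) x|)) ≤
        -(2 * av (fun x => gi A f i x * T r (D i f) x)) := by
      have : av (fun x => gi A f i x * T r (D i f) x) ≤
          av (fun x => |gi A f i x| * |T r (D i f) x|) := by
        refine av_mono fun x => ?_
        rw [← abs_mul]; exact le_abs_self _
      linarith
    have a6 : - av (fun x => |gi A f i x| * (|f x| * T r (pi A i) x)) ≤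
        (1 / 2) * av (fun x => gi A f i x * (f (up i x) + f (dn i x)) * T r (pi A i) x) := by
      have hTi := hK.2.2.2.2.2.1 n r i (pi A i) (pi_inv A i)
      have e := hK.2.2.2.2.2.2 n i (fun x => |gi A f i x| * (|f x| * T r (pi A i) x))
      rw [e, neg_le_iff_add_nonneg, ← av_mul, ← av_add]
      refine av_nonneg fun x => ?_
      have q1 := inv_up (gi_inv A f i) x
      have q2 := inv_dn (gi_inv A f i) x
      have q3 := inv_up hTi x
      have q4 := inv_dn hTi x
      have q5 := T_nonneg hK h0 h1' (pi_nonneg A i) x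
      simp only [q1, q2, q3, q4]
      have q6 : -(|gi A f i x| * (|f (up i x)| + |f (dn i x)|)) ≤
          gi A f i x * (f (up i x) + f (dn i x)) := by
        have := neg_abs_le (gi A f i x * (f (up i x) + f (dn i x)))
        rw [abs_mul] at this
        have h3 := abs_add_le (f (up i x)) (f (dn i x))
        have h4 := mul_le_mul_of_nonneg_left h3 (abs_nonneg (gi A f i x))
        linarith
      nlinarith [mul_le_mul_of_nonneg_right q6 q5]
    rw [a1, a2]
    linarith
  -- the two sums
  have hR : ∀ x, ∑ i, (T r (D i f) x) ^ 2 ≤ T r (fun y => f y ^ 2) x / (1 - r ^ 2) := by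
    intro x
    rw [le_div_iff₀ hu, mul_comm]
    have := hB n r h0 h1' f x
    nlinarith [sq_nonneg (T r f x)]
  have s1 : ∑ i, av (fun x => |T r (D i f) x| ^ 2) ≤ N2 / (1 - r ^ 2) := by
    have e : ∑ i, av (fun x => |T r (D i f) x| ^ 2) = av (fun x => ∑ i, (T r (D i f) x) ^ 2) := by
      simp only [av, sq_abs, ← Finset.sum_div]
      rw [Finset.sum_comm]
    rw [e]
    calc av (fun x => ∑ i, (T r (D i f) x) ^ 2)
        ≤ av (fun x => T r (fun y => f y ^ 2) x / (1 - r ^ 2)) := av_mono hR
      _ = av (fun x => (1 - r ^ 2)⁻¹ * T r (fun y => f y ^ 2) x) := by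
          congr 1; funext x; rw [div_eq_inv_mul]
      _ = N2 / (1 - r ^ 2) := by rw [av_mul, av_T hK, div_eq_inv_mul]
  have hP : ∀ x, ∑ i, (T r (pi A i) x) ^ 2 ≤ 1 / (1 - r ^ 2) := by
    intro x
    rw [le_div_iff₀ hu, mul_comm]
    have h3 := hB n r h0 h1' (ind A) x
    have e1 : (fun y => ind A y ^ 2) = ind A := by
      funext y; unfold ind; split_ifs <;> norm_num
    rw [e1] at h3
    have e2 : ∑ i, (T r (D i (ind A)) x) ^ 2 = (1 / 4) * ∑ i, (T r (pi A i) x) ^ 2 := by
      rw [Finset.mul_sum]
      refine Finset.sum_congr rfl fun i _ => ?_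
      rw [hDi i, T_mul]; ring
    rw [e2] at h3
    nlinarith [sq_nonneg (T r (ind A) x - 1 / 2)]
  have s2 : ∑ i, av (fun x => (|f x| * T r (pi A i) x) ^ 2) ≤ N2 / (1 - r ^ 2) := by
    have e : ∑ i, av (fun x => (|f x| * T r (pi A i) x) ^ 2) =
        av (fun x => f x ^ 2 * ∑ i, (T r (pi A i) x) ^ 2) := by
      simp only [av, mul_pow, sq_abs, ← Finset.sum_div]
      rw [Finset.sum_comm]
      simp only [Finset.mul_sum]
    rw [e]
    calc av (fun x => f x ^ 2 * ∑ i, (T r (pi A i) x) ^ 2)
        ≤ av (fun x => f x ^ 2 * (1 / (1 - r ^ 2))) :=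
          av_mono fun x => mul_le_mul_of_nonneg_left (hP x) (sq_nonneg _)
      _ = av (fun x => (1 - r ^ 2)⁻¹ * f x ^ 2) := by
          congr 1; funext x; rw [one_div, mul_comm]
      _ = N2 / (1 - r ^ 2) := by rw [av_mul, div_eq_inv_mul]
  have hE : En A f = ∑ i, av (fun x => |gi A f i x| ^ 2) := by
    rw [En_eq]; simp only [sq_abs]
  have c1 : ∑ i, av (fun x => |gi A f i x| * |T r (D i f) x|) ≤
      Real.sqrt (En A f) * Real.sqrt (N2 / (1 - r ^ 2)) := by
    refine (cs (fun i x => |gi A f i x|) (fun i x => |T r (D i f) x|)).trans ?_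
    rw [← hE]
    exact mul_le_mul_of_nonneg_left (Real.sqrt_le_sqrt s1) (Real.sqrt_nonneg _)
  have c2 : ∑ i, av (fun x => |gi A f i x| * (|f x| * T r (pi A i) x)) ≤
      Real.sqrt (En A f) * Real.sqrt (N2 / (1 - r ^ 2)) := by
    refine (cs (fun i x => |gi A f i x|) (fun i x => |f x| * T r (pi A i) x)).trans ?_
    rw [← hE]
    exact mul_le_mul_of_nonneg_left (Real.sqrt_le_sqrt s2) (Real.sqrt_nonneg _)
  have c3 : Real.sqrt (N2 / (1 - r ^ 2)) ≤ Real.sqrt N2 / Real.sqrt (1 - r) := by
    rw [← Real.sqrt_div hN2n]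
    exact Real.sqrt_le_sqrt (div_le_div_of_nonneg_left hN2n (by linarith) hu2)
  have c4 : Real.sqrt (En A f) * Real.sqrt (N2 / (1 - r ^ 2)) ≤
      Real.sqrt N2 * Real.sqrt (En A f) / Real.sqrt (1 - r) := by
    calc Real.sqrt (En A f) * Real.sqrt (N2 / (1 - r ^ 2))
        ≤ Real.sqrt (En A f) * (Real.sqrt N2 / Real.sqrt (1 - r)) :=
          mul_le_mul_of_nonneg_left c3 (Real.sqrt_nonneg _)
      _ = _ := by ring
  have hsum := Finset.sum_le_sum (s := (univ : Finset (Fin n))) fun i _ => t1 i
  simp only [Finset.sum_sub_distrib, Finset.sum_neg_distrib, ← Finset.mul_sum] at hsum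
  rw [← En_eq] at hsum
  have hEn := En_nonneg A f
  have e9 : 3 * Real.sqrt N2 * Real.sqrt (En A f) / Real.sqrt (1 - r) =
      3 * (Real.sqrt N2 * Real.sqrt (En A f) / Real.sqrt (1 - r)) := by ring
  rw [e9]
  linarith

end Loc

open Loc in
/-- The main inequality. -/
theorem t_LOC (hK : KER) (hD : DER) (hB : BES) : LOC := by
  intro n A hA f hf ρ hρ0 hρ1
  set N := Real.sqrt (av (fun x => f x ^ 2)) with hN
  set E := En A f with hE
  set J : ℝ → ℝ := fun s => av (fun x => f x ^ 2 * T s (ind A) x) - av (fun x => f x * T s f x)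
    with hJ
  set J' : ℝ → ℝ := fun s => (∑ i, av (fun x => D i (fun y => f y ^ 2) x * T s (D i (ind A)) x)) -
        ∑ i, av (fun x => D i f x * T s (D i f) x) with hJ'
  have hderJ : ∀ s, HasDerivAt J (J' s) s := fun s =>
    (hD n (fun x => f x ^ 2) (ind A) s).sub (hD n f f s)
  set G : ℝ → ℝ := fun s => J s - 6 * N * Real.sqrt E * Real.sqrt (1 - s) - 3 * E * (1 - s) with hG
  have hderG : ∀ s, s < 1 → HasDerivAt G
      (J' s - 6 * N * Real.sqrt E * (-1 / (2 * Real.sqrt (1 - s))) - 3 * E * (-1)) s := by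
    intro s hs
    have h2 : HasDerivAt (fun s : ℝ => 1 - s) (-1) s := by
      simpa using (hasDerivAt_id s).const_sub 1
    have h3 : HasDerivAt (fun s : ℝ => Real.sqrt (1 - s)) (-1 / (2 * Real.sqrt (1 - s))) s :=
      h2.sqrt (by linarith)
    exact ((hderJ s).sub (h3.const_mul _)).sub (h2.const_mul _)
  have hcont : ContinuousOn G (Set.Icc ρ 1) := by
    have hJc : Continuous J := continuous_iff_continuousAt.2 fun s => (hderJ s).continuousAt
    have : Continuous G := by
      rw [hG]
      fun_prop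
    exact this.continuousOn
  have hmono : MonotoneOn G (Set.Icc ρ 1) := by
    refine monotoneOn_of_deriv_nonneg (convex_Icc ρ 1) hcont ?_ ?_
    · intro s hs
      rw [interior_Icc] at hs
      exact (hderG s hs.2).differentiableAt.differentiableWithinAt
    · intro s hs
      rw [interior_Icc] at hs
      rw [(hderG s hs.2).deriv]
      have hb := deriv_bound hK hB A hA f hf (lt_of_le_of_lt hρ0 hs.1).le hs.2
      have h5 : 0 < Real.sqrt (1 - s) := Real.sqrt_pos.2 (by linarith [hs.2])
      have e : 6 * N * Real.sqrt E * (-1 / (2 * Real.sqrt (1 - s))) =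
          -(3 * N * Real.sqrt E / Real.sqrt (1 - s)) := by
        field_simp; ring
      rw [e]
      have hb' : -(3 * N * Real.sqrt E / Real.sqrt (1 - s) + 3 * E) ≤ J' s := hb
      linarith
  have hG1 : G 1 = 0 := by
    have j1 : J 1 = 0 := by
      have e1 : av (fun x => f x ^ 2 * T 1 (ind A) x) = av (fun x => f x ^ 2) := by
        congr 1; funext x
        rw [hK.2.2.2.1 n (ind A) x]
        by_cases hx : x ∈ A
        · simp [ind, hx]
        · simp [hf x hx]
      have e2 : av (fun x => f x * T 1 f x) = av (fun x => f x ^ 2) := by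
        congr 1; funext x
        rw [hK.2.2.2.1 n f x]; ring
      simp only [hJ]
      rw [e1, e2, sub_self]
    simp [hG, j1]
  have hfin := hmono (Set.left_mem_Icc.2 hρ1) (Set.right_mem_Icc.2 hρ1) hρ1
  rw [hG1] at hfin
  have hfin' : J ρ - 6 * N * Real.sqrt E * Real.sqrt (1 - ρ) - 3 * E * (1 - ρ) ≤ 0 := hfin
  have hJρ : J ρ = av (fun x => f x ^ 2 * T ρ (ind A) x) - av (fun x => f x * T ρ f x) := rfl
  rw [hJρ] at hfin'
  nlinarith [hfin']

end Pool.Agent.Y984.MD
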