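import Pool.Agent.Y984.MD.Stm

set_option autoImplicit false

/-! Project MD: the transition matrix and the operator (helper380). -/

namespace Pool.Agent.Y984.MD

open Finset

namespace MAT380

variable {n : ℕ}

lemma flp_flp (x : Cube n) (i : Fin n) : flp (flp x i) i = x := by
  unfold flp
  ext j
  by_cases h : j = i
  · subst h; simp
  · simp [h]

lemma P_symm (A : Finset (Cube n)) (x y : A) : P A x y = P A y x := by
  by_cases h : y = x
  · subst h; rfl
  · have h' : x ≠ y := fun e => h e.symm
    unfold P
    rw [if_neg h, if_neg h']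
    congr 3
    have e : ∀ (a b : A), b ≠ a → univ.filter (fun i : Fin n => mv A a.1 i = b.1) =
        univ.filter (fun i : Fin n => flp a.1 i = b.1) := by
      intro a b hab
      ext i
      simp only [mem_filter, mem_univ, true_and]
      unfold mv
      split_ifs with h1
      · rfl
      · constructor
        · intro h2
          exact absurd (Subtype.ext h2.symm) hab
        · intro h2
          exact absurd (h2 ▸ b.2) h1
    have e2 : univ.filter (fun i : Fin n => flp x.1 i = y.1) =
        univ.filter (fun i : Fin n => flp y.1 i = x.1) := by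
      ext i
      simp only [mem_filter, mem_univ, true_and]
      constructor
      · intro h1; rw [← h1, flp_flp]
      · intro h1; rw [← h1, flp_flp]
    rw [e x y h, e y x h', e2]

lemma mv_mem (A : Finset (Cube n)) (x : A) (i : Fin n) : mv A x.1 i ∈ A := by
  unfold mv
  split_ifs with h
  · exact h
  · exact x.2

lemma step (hn : 0 < n) (A : Finset (Cube n)) (φ : Cube n → ℝ) (y : A) :
    Pc A φ y.1 = ∑ z : A, P A y z * φ z.1 := by
  have h1 : ∀ i, Pi A i φ y.1 = (φ y.1 + φ (mv A y.1 i)) / 2 := by
    intro i
    unfold Pi mv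
    by_cases h : flp y.1 i ∈ A
    · rw [if_pos ⟨y.2, h⟩, if_pos h]
    · rw [if_neg (fun h' => h h'.2), if_neg h]; ring
  have h2 : ∑ z : A, (if z = y then (1 : ℝ) else 0) * φ z.1 = φ y.1 := by
    simp
  have h3 : ∑ z : A, (((univ.filter (fun i : Fin n => mv A y.1 i = z.1)).card : ℕ) : ℝ) * φ z.1 =
      ∑ i : Fin n, φ (mv A y.1 i) := by
    have h4 : ∀ z : A, (((univ.filter (fun i : Fin n => mv A y.1 i = z.1)).card : ℕ) : ℝ) * φ z.1 =
        ∑ i : Fin n, if mv A y.1 i = z.1 then φ z.1 else 0 := by
      intro z
      rw [card_filter, Nat.cast_sum, sum_mul]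
      refine sum_congr rfl fun i _ => ?_
      split_ifs <;> simp
    rw [sum_congr rfl (fun z _ => h4 z), sum_comm]
    refine sum_congr rfl fun i _ => ?_
    rw [sum_eq_single (⟨mv A y.1 i, mv_mem A y i⟩ : A)]
    · simp
    · intro b _ hb
      rw [if_neg]
      intro h
      exact hb (Subtype.ext h.symm)
    · intro h
      exact absurd (mem_univ _) h
  have hn' : (n : ℝ) ≠ 0 := by positivity
  have h5 : ∀ z : A, P A y z * φ z.1 = (1 / 2) * ((if z = y then (1 : ℝ) else 0) * φ z.1) +
      (1 / (2 * n)) * ((((univ.filter (fun i : Fin n => mv A y.1 i = z.1)).card : ℕ) : ℝ) * φ z.1) := by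
    intro z
    unfold P
    field_simp
  rw [sum_congr rfl (fun z _ => h5 z), sum_add_distrib, ← mul_sum, ← mul_sum, h2, h3]
  unfold Pc
  rw [sum_congr rfl (fun i _ => h1 i), ← sum_div, sum_add_distrib]
  simp only [sum_const, card_univ, Fintype.card_fin, nsmul_eq_mul]
  field_simp

end MAT380

/-- MD-MAT -/
theorem t_MAT : MAT := by
  intro n hn A t x y
  induction t generalizing y with
  | zero =>
    simp only [pow_zero, Function.iterate_zero, id_eq, Matrix.one_apply]
    by_cases h : x = y
    · subst h; simp
    · have h' : ¬ (y.1 = x.1) := fun e => h (Subtype.ext e.symm)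
      simp [h, h']
  | succ t ih =>
    rw [Function.iterate_succ_apply', MAT380.step hn A _ y, pow_succ, Matrix.mul_apply, mul_sum]
    refine sum_congr rfl fun z _ => ?_
    rw [← ih z, MAT380.P_symm A z y]
    ring

end Pool.Agent.Y984.MD
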