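import Pool.Agent.Y984.MD.KER

set_option autoImplicit false

/-! Project MD: the noise operator preserves increasing functions (helper986). -/

namespace Pool.Agent.Y984.MD

open Finset

namespace MONx

variable {n : ℕ}

open KERx

theorem le_step (r : ℝ) (h0 : 0 ≤ r) (h1 : r ≤ 1) (φ : Cube n → ℝ) (hφ : Incr φ) (i : Fin n) (x : Cube n) :
    T r φ (dn i x) ≤ T r φ (up i x) := by
  rw [T_bit r i φ (dn i x), T_bit r i φ (up i x)]
  refine av_mono fun y => ?_
  rw [K_upl, K_dnl, up_self, dn_self]
  refine mul_le_mul_of_nonneg_left ?_ (K_nonneg r h0 h1 i x y)
  have hle : φ (dn i y) ≤ φ (up i y) := by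
    refine hφ _ _ fun j => ?_
    by_cases hj : j = i
    · subst hj
      rw [dn_self, up_self]
      exact Bool.false_le _
    · rw [dn_ne hj, up_ne hj]
  have e1 : sg true true = 1 := by unfold sg; simp
  have e2 : sg false true = -1 := by unfold sg; simp
  rw [e1, e2]
  nlinarith

/-- a function which increases in every coordinate is increasing -/
theorem incr_of_step (ψ : Cube n → ℝ) (h : ∀ i x, ψ (dn i x) ≤ ψ (up i x)) : Incr ψ := by
  intro x y hxy
  have key : ∀ s : Finset (Fin n), ψ x ≤ ψ (fun j => if j ∈ s then y j else x j) := by
    intro s
    induction s using Finset.induction_on with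
    | empty => simp
    | insert i s hi ih =>
      refine ih.trans ?_
      set z : Cube n := fun j => if j ∈ s then y j else x j with hz
      have hzi : z i = x i := by rw [hz]; simp only; rw [if_neg hi]
      have e : (fun j => if j ∈ insert i s then y j else x j) = Function.update z i (y i) := by
        funext j
        by_cases hj : j = i
        · subst hj
          rw [Function.update_self, if_pos (Finset.mem_insert_self _ _)]
        · rw [Function.update_of_ne hj, hz]
          simp only [Finset.mem_insert, hj, false_or]
      rw [e]
      have hle := hxy i
      cases hy : y i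
      · have hx : x i = false := by
          rw [hy] at hle
          exact Bool.eq_false_of_le_false hle
        have : Function.update z i false = z := by
          rw [← hx, ← hzi]; exact Function.update_eq_self i z
        rw [this]
      · cases hx : x i
        · have h1 : z = dn i z := by
            unfold dn
            rw [← hx, ← hzi]; exact (Function.update_eq_self i z).symm
          calc ψ z = ψ (dn i z) := by rw [← h1]
            _ ≤ ψ (up i z) := h i z
            _ = ψ (Function.update z i true) := rfl
        · have : Function.update z i true = z := by
            rw [← hx, ← hzi]; exact Function.update_eq_self i z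
          rw [this]
  have h2 := key univ
  have e : (fun j => if j ∈ (univ : Finset (Fin n)) then y j else x j) = y := by
    funext j
    rw [if_pos (Finset.mem_univ j)]
  rw [e] at h2
  exact h2

end MONx

theorem t_MON : MON := fun _ r h0 h1 φ hφ => MONx.incr_of_step _ (MONx.le_step r h0 h1 φ hφ)

end Pool.Agent.Y984.MD
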