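import Pool.Agent.Y984.MD.Stm

set_option autoImplicit false

/-! Project MD: elementary facts on the operators. -/

namespace Pool.Agent.Y984.MD

open Finset

namespace OPEaux

variable {n : ℕ}

lemma flp_flp (x : Cube n) (i : Fin n) : flp (flp x i) i = x := by
  funext j
  unfold flp
  by_cases h : j = i
  · subst h; simp
  · simp [h]

/-- the flip as a permutation -/
def fe (i : Fin n) : Equiv.Perm (Cube n) where
  toFun := fun x => flp x i
  invFun := fun x => flp x i
  left_inv := fun x => flp_flp x i
  right_inv := fun x => flp_flp x i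

lemma av_flp (i : Fin n) (F : Cube n → ℝ) : av (fun x => F (flp x i)) = av F := by
  unfold av
  congr 1
  exact Equiv.sum_comp (fe i) F

/-- the condition -/
def cd (A : Finset (Cube n)) (i : Fin n) (x : Cube n) : Prop := x ∈ A ∧ flp x i ∈ A

lemma cd_flp (A : Finset (Cube n)) (i : Fin n) (x : Cube n) : cd A i (flp x i) ↔ cd A i x := by
  unfold cd
  rw [flp_flp, and_comm]

open Classical in
lemma Pi_eq (A : Finset (Cube n)) (i : Fin n) (φ : Cube n → ℝ) (x : Cube n) :
    Pi A i φ x = φ x + (if cd A i x then (1 : ℝ) else 0) * ((φ (flp x i) - φ x) / 2) := by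
  unfold Pi cd
  split_ifs <;> ring

open Classical in
lemma Pi_symm (A : Finset (Cube n)) (i : Fin n) (φ ψ : Cube n → ℝ) :
    av (fun x => φ x * Pi A i ψ x) = av (fun x => Pi A i φ x * ψ x) := by
  have h1 : ∀ x, φ x * Pi A i ψ x - Pi A i φ x * ψ x =
      (if cd A i x then (1 : ℝ) else 0) * (φ x * ψ (flp x i) - φ (flp x i) * ψ x) / 2 := by
    intro x
    rw [Pi_eq, Pi_eq]
    ring
  have h2 : av (fun x => φ x * Pi A i ψ x - Pi A i φ x * ψ x) = 0 := by
    have e1 : av (fun x => φ x * Pi A i ψ x - Pi A i φ x * ψ x) =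
        av (fun x => (if cd A i x then (1 : ℝ) else 0) *
          (φ x * ψ (flp x i) - φ (flp x i) * ψ x) / 2) := by
      congr 1; funext x; exact h1 x
    have e2 : av (fun x => (if cd A i x then (1 : ℝ) else 0) *
          (φ x * ψ (flp x i) - φ (flp x i) * ψ x) / 2) =
        - av (fun x => (if cd A i x then (1 : ℝ) else 0) *
          (φ x * ψ (flp x i) - φ (flp x i) * ψ x) / 2) := by
      conv_lhs => rw [← av_flp i]
      unfold av
      rw [← neg_div, ← sum_neg_distrib]
      congr 1
      refine sum_congr rfl fun x _ => ?_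
      simp only [flp_flp, cd_flp]
      ring
    rw [e1]
    linarith
  have h3 : av (fun x => φ x * Pi A i ψ x - Pi A i φ x * ψ x) =
      av (fun x => φ x * Pi A i ψ x) - av (fun x => Pi A i φ x * ψ x) := by
    unfold av; rw [sum_sub_distrib, sub_div]
  linarith

lemma Pi_idem (A : Finset (Cube n)) (i : Fin n) (φ : Cube n → ℝ) (x : Cube n) :
    Pi A i (Pi A i φ) x = Pi A i φ x := by
  unfold Pi
  by_cases h : x ∈ A ∧ flp x i ∈ A
  · have h' : flp x i ∈ A ∧ flp (flp x i) i ∈ A := by rw [flp_flp]; exact ⟨h.2, h.1⟩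
    rw [if_pos h, if_pos h, if_pos h', flp_flp]
    ring
  · rw [if_neg h, if_neg h]

lemma av_Pc (A : Finset (Cube n)) (φ ψ : Cube n → ℝ) :
    av (fun x => φ x * Pc A ψ x) = (∑ i, av (fun x => φ x * Pi A i ψ x)) / n := by
  have h : ∑ x, φ x * Pc A ψ x = (∑ i, ∑ x, φ x * Pi A i ψ x) / n := by
    rw [sum_comm, sum_div]
    refine sum_congr rfl fun x _ => ?_
    unfold Pc
    rw [← mul_sum, mul_div_assoc]
  unfold av
  rw [h, ← sum_div, div_right_comm]

end OPEaux

open OPEaux

theorem t_OPE : OPE := by
  intro n hn A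
  have hn' : (0 : ℝ) < n := by exact_mod_cast hn
  refine ⟨?_, ?_, ?_, ?_, ?_, ?_, ?_⟩
  · intro φ ψ
    have h1 : av (fun x => Pc A φ x * ψ x) = av (fun x => ψ x * Pc A φ x) := by
      congr 1; funext x; ring
    rw [h1, av_Pc, av_Pc]
    congr 1
    refine sum_congr rfl fun i _ => ?_
    rw [Pi_symm]
    congr 1; funext x; ring
  · intro φ
    have h1 : av (Pc A φ) = av (fun x => (1 : ℝ) * Pc A φ x) := by
      congr 1; funext x; ring
    rw [h1, av_Pc]
    have h2 : ∀ i, av (fun x => (1 : ℝ) * Pi A i φ x) = av φ := by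
      intro i
      have := Pi_symm A i (fun _ => 1) φ
      rw [this]
      congr 1
      funext x
      have : Pi A i (fun _ => (1 : ℝ)) x = 1 := by unfold Pi; split_ifs <;> norm_num
      rw [this, one_mul]
    rw [sum_congr rfl fun i _ => h2 i]
    simp
    field_simp
  · intro φ ψ h x
    unfold Pc
    apply div_le_div_of_nonneg_right _ hn'.le
    refine sum_le_sum fun i _ => ?_
    unfold Pi
    split_ifs
    · have := h x; have := h (flp x i); linarith
    · exact h x
  · intro φ ψ x
    unfold Pc
    rw [← add_div, ← sum_add_distrib]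
    congr 1
    refine sum_congr rfl fun i _ => ?_
    unfold Pi
    split_ifs <;> ring
  · intro c φ x
    unfold Pc
    rw [← mul_div_assoc, mul_sum]
    congr 1
    refine sum_congr rfl fun i _ => ?_
    unfold Pi
    split_ifs <;> ring
  · intro c x
    unfold Pc
    have h1 : ∀ i, Pi A i (fun y => c * ind A y) x = c * ind A x := by
      intro i
      unfold Pi
      split_ifs with h
      · have h1 : ind A x = 1 := if_pos h.1
        have h2 : ind A (flp x i) = 1 := if_pos h.2
        simp only [h1, h2]; ring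
      · rfl
    rw [sum_congr rfl fun i _ => h1 i]
    simp
    field_simp
  · intro φ h x hx
    unfold Pc
    have h1 : ∀ i, Pi A i φ x = 0 := by
      intro i
      unfold Pi
      rw [if_neg (fun h' => hx h'.1)]
      exact h x hx
    rw [sum_congr rfl fun i _ => h1 i]
    simp

namespace OPEaux

variable {n : ℕ}

lemma up_flp (i : Fin n) (x : Cube n) : up i (flp x i) = up i x := by
  unfold up flp; simp

lemma dn_flp (i : Fin n) (x : Cube n) : dn i (flp x i) = dn i x := by
  unfold dn flp; simp

lemma cases_bit (i : Fin n) (x : Cube n) :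
    (x = up i x ∧ flp x i = dn i x) ∨ (x = dn i x ∧ flp x i = up i x) := by
  unfold up dn flp
  by_cases h : x i = true
  · left
    refine ⟨?_, ?_⟩
    · funext j; by_cases hj : j = i
      · subst hj; simp [h]
      · simp [hj]
    · rw [h]; rfl
  · right
    have h' : x i = false := by simpa using h
    refine ⟨?_, ?_⟩
    · funext j; by_cases hj : j = i
      · subst hj; simp [h']
      · simp [hj]
    · rw [h']; rfl

lemma cd_iff {A : Finset (Cube n)} (hA : IsUp A) (i : Fin n) (x : Cube n) :
    cd A i x ↔ dn i x ∈ A := by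
  have hud : ∀ y : Cube n, dn i y ∈ A → up i y ∈ A := by
    intro y hy
    refine hA _ hy _ fun j => ?_
    unfold dn up
    by_cases hj : j = i
    · subst hj; simp
    · simp [hj]
  unfold cd
  rcases cases_bit i x with ⟨h1, h2⟩ | ⟨h1, h2⟩
  · rw [h2]
    constructor
    · exact fun h => h.2
    · intro h
      refine ⟨?_, h⟩
      rw [h1]; exact hud x h
  · rw [h2, ← h1]
    constructor
    · exact fun h => h.1
    · intro h
      refine ⟨h, ?_⟩
      apply hud x
      rw [← h1]; exact h

lemma D_sq (i : Fin n) (f : Cube n → ℝ) (x : Cube n) :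
    D i f x ^ 2 = (f (flp x i) - f x) ^ 2 / 4 := by
  unfold D
  rcases cases_bit i x with ⟨h1, h2⟩ | ⟨h1, h2⟩
  · rw [h2, ← h1]; ring
  · rw [h2, ← h1]; ring

end OPEaux

theorem t_GEN : GEN := by
  classical
  intro n hn A hA f
  have hn' : (0 : ℝ) < n := by exact_mod_cast hn
  constructor
  · have h1 : av (fun x => f x * (f x - Pc A f x)) = (∑ i, av (fun x => f x * (f x - Pi A i f x))) / n := by
      have e1 : av (fun x => f x * (f x - Pc A f x)) =
          av (fun x => f x * f x) - av (fun x => f x * Pc A f x) := by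
        unfold av; rw [← sub_div, ← sum_sub_distrib]; congr 1
        exact sum_congr rfl fun x _ => by ring
      have e2 : ∀ i, av (fun x => f x * (f x - Pi A i f x)) =
          av (fun x => f x * f x) - av (fun x => f x * Pi A i f x) := by
        intro i
        unfold av; rw [← sub_div, ← sum_sub_distrib]; congr 1
        exact sum_congr rfl fun x _ => by ring
      rw [e1, av_Pc, sum_congr rfl fun i _ => e2 i, sum_sub_distrib]
      simp
      field_simp
    rw [h1]
    unfold En
    rw [div_eq_mul_inv, mul_comm, one_div]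
    congr 1
    refine sum_congr rfl fun i _ => ?_
    -- symmetrisation
    have e3 : av (fun x => f x * (f x - Pi A i f x)) =
        av (fun x => (if cd A i x then (1 : ℝ) else 0) * (f x * (f x - f (flp x i)) / 2)) := by
      congr 1; funext x; rw [Pi_eq]; ring
    have e4 : av (fun x => (if cd A i x then (1 : ℝ) else 0) * (f x * (f x - f (flp x i)) / 2)) =
        av (fun x => (if cd A i x then (1 : ℝ) else 0) *
          (f (flp x i) * (f (flp x i) - f x) / 2)) := by
      conv_lhs => rw [← av_flp i]
      congr 1; funext x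
      simp only [flp_flp, cd_flp]
    have e5 : av (fun x => if dn i x ∈ A then D i f x ^ 2 else 0) =
        (av (fun x => (if cd A i x then (1 : ℝ) else 0) * (f x * (f x - f (flp x i)) / 2)) +
        av (fun x => (if cd A i x then (1 : ℝ) else 0) *
          (f (flp x i) * (f (flp x i) - f x) / 2))) / 2 := by
      have hs : ∑ x, (if dn i x ∈ A then D i f x ^ 2 else 0) =
          (∑ x, (if cd A i x then (1 : ℝ) else 0) * (f x * (f x - f (flp x i)) / 2) +
          ∑ x, (if cd A i x then (1 : ℝ) else 0) * (f (flp x i) * (f (flp x i) - f x) / 2)) / 2 := by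
        rw [← sum_add_distrib, sum_div]
        refine sum_congr rfl fun x _ => ?_
        rw [D_sq]
        by_cases h : dn i x ∈ A
        · rw [if_pos h, if_pos ((cd_iff hA i x).2 h)]; ring
        · rw [if_neg h, if_neg (fun h' => h ((cd_iff hA i x).1 h'))]; ring
      unfold av
      rw [hs]
      ring
    rw [e3, e5, ← e4]
    ring
  · have h1 : ∀ x, (Pc A f x) ^ 2 ≤ (∑ i, (Pi A i f x) ^ 2) / n := by
      intro x
      unfold Pc
      rw [div_pow, div_le_div_iff₀ (by positivity) hn']
      have := sq_sum_le_card_mul_sum_sq (s := (univ : Finset (Fin n))) (f := fun i => Pi A i f x)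
      rw [card_univ, Fintype.card_fin] at this
      calc (∑ i, Pi A i f x) ^ 2 * n ≤ (n * ∑ i, Pi A i f x ^ 2) * n :=
            mul_le_mul_of_nonneg_right this hn'.le
        _ = _ := by ring
    have h2 : av (fun x => (Pc A f x) ^ 2) ≤ av (fun x => (∑ i, (Pi A i f x) ^ 2) / n) := by
      unfold av
      exact div_le_div_of_nonneg_right (sum_le_sum fun x _ => h1 x) (by positivity)
    refine h2.trans (le_of_eq ?_)
    rw [av_Pc]
    have e1 : av (fun x => (∑ i, (Pi A i f x) ^ 2) / n) = (∑ i, av (fun x => (Pi A i f x) ^ 2)) / n := by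
      have h : ∑ x, (∑ i, (Pi A i f x) ^ 2) / (n : ℝ) = (∑ i, ∑ x, (Pi A i f x) ^ 2) / n := by
        rw [sum_comm, sum_div]
      unfold av
      rw [h, ← sum_div, div_right_comm]
    rw [e1]
    congr 1
    refine sum_congr rfl fun i _ => ?_
    have e2 := Pi_symm A i (Pi A i f) f
    have e3 : (fun x => Pi A i (Pi A i f) x * f x) = fun x => f x * Pi A i f x := by
      funext x; rw [Pi_idem]; ring
    rw [e3] at e2
    rw [← e2]
    congr 1; funext x; ring

end Pool.Agent.Y984.MD
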