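import Pool.Agent.Y984.MD.Stm
import Pool.Agent.W542.Tal.Hyper

set_option autoImplicit false

/-! Project MD (helper984), part SUP (helper980): functions with small support. -/

namespace Pool.Agent.Y984.MD

open Finset

namespace SUPaux

lemma S_eq {n : ℕ} (r : ℝ) (f : Cube n → ℝ) :
    av (fun x => f x * T r f x) = Pool.Agent.W542.Tal.S n r f f / (2 ^ n * 2 ^ n) := by
  unfold av T av Pool.Agent.W542.Tal.S
  have : ∀ x : Cube n, f x * ((∑ y, ker r x y * f y) / 2 ^ n) =
      (∑ y, f x * f y * Pool.Agent.W542.Tal.ker n r x y) / 2 ^ n := by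
    intro x
    rw [← mul_div_assoc, Finset.mul_sum]
    congr 1
    refine Finset.sum_congr rfl fun y _ => ?_
    have hk : ker r x y = Pool.Agent.W542.Tal.ker n r x y := rfl
    rw [hk]
    ring
  simp only [this]
  rw [← Finset.sum_div, div_div]

lemma holder {n : ℕ} (V : Finset (Cube n)) (f : Cube n → ℝ) (hf : ∀ x, 0 ≤ f x)
    (hV : ∀ x, x ∉ V → f x = 0) (r : ℝ) (h0 : 0 ≤ r) (h1 : r ≤ 1) :
    (∑ x, f x ^ (1 + r)) ^ (2 / (1 + r)) ≤
      (V.card : ℝ) ^ (2 / (1 + r) - 1) * ∑ x, f x ^ 2 := by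
  have hp : 0 < 1 + r := by linarith
  have e1 : ∑ x, f x ^ (1 + r) = ∑ x ∈ V, f x ^ (1 + r) := by
    symm
    refine Finset.sum_subset (Finset.subset_univ _) fun x _ hx => ?_
    rw [hV x hx, Real.zero_rpow hp.ne']
  have e2 : ∑ x, f x ^ 2 = ∑ x ∈ V, f x ^ 2 := by
    symm
    refine Finset.sum_subset (Finset.subset_univ _) fun x _ hx => ?_
    rw [hV x hx]
    norm_num
  have hq : 1 ≤ 2 / (1 + r) := by
    rw [le_div_iff₀ hp]
    linarith
  have h2 := Real.rpow_sum_le_const_mul_sum_rpow_of_nonneg V hq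
    (f := fun x => f x ^ (1 + r)) (fun x _ => Real.rpow_nonneg (hf x) _)
  rw [e1, e2]
  refine h2.trans (le_of_eq ?_)
  congr 1
  refine Finset.sum_congr rfl fun x _ => ?_
  rw [← Real.rpow_mul (hf x), mul_div_cancel₀ _ hp.ne', Real.rpow_two]

end SUPaux

open SUPaux in
theorem t_SUP : SUP := by
  intro n V f hf hV r h0 h1
  have hp : 0 < 1 + r := by linarith
  have hN : (0 : ℝ) < 2 ^ n := by positivity
  rcases Finset.eq_empty_or_nonempty V with hVe | hVe
  · have hf0 : ∀ x, f x = 0 := fun x => hV x (by rw [hVe]; simp)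
    have e1 : av (fun x => f x * T r f x) = 0 := by
      unfold av
      simp [hf0]
    have e2 : av (fun x => f x ^ 2) = 0 := by
      unfold av
      simp [hf0]
    rw [e1, e2, mul_zero]
  have hv : (0 : ℝ) < V.card := by exact_mod_cast hVe.card_pos
  have hv1 : dens V ≤ 1 := by
    unfold dens
    rw [div_le_one hN]
    have := Finset.card_le_univ V
    simp only [Cube, Fintype.card_fun, Fintype.card_bool, Fintype.card_fin] at this
    exact_mod_cast this
  have hd : 0 < dens V := div_pos hv hN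
  have hS := Pool.Agent.W542.Tal.hyper r h0 h1 n f f hf hf
  have hF : 0 ≤ ∑ x, f x ^ (1 + r) := Finset.sum_nonneg fun x _ => Real.rpow_nonneg (hf x) _
  rw [← Real.rpow_add' hF (by positivity), ← add_div, show (1 : ℝ) + 1 = 2 by norm_num] at hS
  have hH := holder V f hf hV r h0 h1
  set q : ℝ := 2 / (1 + r) with hq
  set Q : ℝ := ∑ x, f x ^ 2 with hQ
  have hQ0 : 0 ≤ Q := Finset.sum_nonneg fun x _ => sq_nonneg _
  have h3 : (4 * (1 / 2 : ℝ) ^ q) ^ n = 2 ^ n * 2 ^ n * ((2 : ℝ) ^ n) ^ (-q) := by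
    rw [mul_pow, ← Real.rpow_natCast ((1 / 2 : ℝ) ^ q), ← Real.rpow_mul (by norm_num),
      show (4 : ℝ) = 2 * 2 by norm_num, mul_pow, ← Real.rpow_natCast 2 n,
      ← Real.rpow_mul (by norm_num : (0 : ℝ) ≤ 2), one_div, Real.inv_rpow (by norm_num),
      ← Real.rpow_neg (by norm_num)]
    congr 2
    ring
  have h4 : av (fun x => f x * T r f x) ≤ (dens V) ^ (q - 1) * av (fun x => f x ^ 2) := by
    rw [S_eq, div_le_iff₀ (by positivity)]
    refine hS.trans ?_
    rw [h3]
    have h5 : (dens V) ^ (q - 1) * av (fun x => f x ^ 2) * (2 ^ n * 2 ^ n) =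
        2 ^ n * 2 ^ n * ((2 : ℝ) ^ n) ^ (-q) * ((V.card : ℝ) ^ (q - 1) * Q) := by
      unfold dens av
      rw [Real.div_rpow hv.le hN.le, Real.rpow_sub_one hN.ne', Real.rpow_neg hN.le]
      have : ((2 : ℝ) ^ n) ^ q ≠ 0 := (Real.rpow_pos_of_pos hN _).ne'
      field_simp
      rfl
    rw [h5]
    exact mul_le_mul_of_nonneg_left hH (by positivity)
  refine h4.trans (mul_le_mul_of_nonneg_right ?_ ?_)
  · refine Real.rpow_le_rpow_of_exponent_ge hd hv1 ?_
    rw [hq, div_sub_one hp.ne', div_le_div_iff₀ (by norm_num) hp]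
    nlinarith
  · unfold av
    exact div_nonneg (Finset.sum_nonneg fun x _ => sq_nonneg _) hN.le

end Pool.Agent.Y984.MD
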