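import Pool.Agent.Y984.MD.Stm

set_option autoImplicit false

/-! Project MD: the censored walk stays above the free walk. -/

namespace Pool.Agent.Y984.MD

open Finset

namespace UPWj

/-- averaging over one coordinate -/
noncomputable def E1 {n : ℕ} (i : Fin n) (φ : Cube n → ℝ) (x : Cube n) : ℝ :=
  (φ (up i x) + φ (dn i x)) / 2

/-- one step of the free walk -/
noncomputable def L {n : ℕ} (φ : Cube n → ℝ) (x : Cube n) : ℝ := (∑ i, E1 i φ x) / n

/-- averaging over a set of coordinates -/
noncomputable def ES {n : ℕ} (S : Finset (Fin n)) (w : Cube n → ℝ) (x : Cube n) : ℝ :=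
  av (fun z => w (fun i => if i ∈ S then z i else x i))

theorem updn {n : ℕ} (i : Fin n) (x : Cube n) :
    (up i x = x ∧ dn i x = flp x i ∧ x i = true) ∨
      (dn i x = x ∧ up i x = flp x i ∧ x i = false) := by
  cases h : x i
  · right
    refine ⟨?_, ?_, rfl⟩
    · rw [dn, ← h, Function.update_eq_self]
    · rw [up, flp, h]; rfl
  · left
    refine ⟨?_, ?_, rfl⟩
    · rw [up, ← h, Function.update_eq_self]
    · rw [dn, flp, h]; rfl

theorem E1_eq {n : ℕ} (i : Fin n) (φ : Cube n → ℝ) (x : Cube n) :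
    E1 i φ x = (φ x + φ (flp x i)) / 2 := by
  rcases updn i x with ⟨h1, h2, _⟩ | ⟨h1, h2, _⟩
  · rw [E1, h1, h2]
  · rw [E1, h1, h2, add_comm]

theorem flp_flp {n : ℕ} (x : Cube n) (i : Fin n) : flp (flp x i) i = x := by
  simp [flp]

theorem le_flp {n : ℕ} (x : Cube n) (i : Fin n) (h : x i = false) (j : Fin n) :
    x j ≤ flp x i j := by
  by_cases hj : j = i
  · subst hj; rw [h]; exact Bool.false_le _
  · simp [flp, hj]

theorem Pi_ge {n : ℕ} (A : Finset (Cube n)) (hA : IsUp A) (i : Fin n) (φ : Cube n → ℝ)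
    (hφ : Incr φ) (x : Cube n) (hx : x ∈ A) : E1 i φ x ≤ Pi A i φ x := by
  by_cases h : flp x i ∈ A
  · rw [Pi, if_pos ⟨hx, h⟩, E1_eq]
  · rw [Pi, if_neg (fun h' => h h'.2)]
    rcases updn i x with ⟨h1, h2, _⟩ | ⟨h1, h2, h3⟩
    · have : φ (dn i x) ≤ φ (up i x) := by
        apply hφ
        intro j
        by_cases hj : j = i
        · subst hj; simp [dn, up]
        · simp [dn, up, hj]
      rw [E1]
      rw [h1] at this ⊢
      linarith
    · exact absurd (hA x hx _ (le_flp x i h3)) h

theorem E1_incr {n : ℕ} (i : Fin n) (φ : Cube n → ℝ) (hφ : Incr φ) : Incr (E1 i φ) := by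
  intro x y hxy
  have h1 : φ (up i x) ≤ φ (up i y) := by
    apply hφ
    intro j
    by_cases hj : j = i
    · subst hj; simp [up]
    · simp only [up, Function.update_of_ne hj]; exact hxy j
  have h2 : φ (dn i x) ≤ φ (dn i y) := by
    apply hφ
    intro j
    by_cases hj : j = i
    · subst hj; simp [dn]
    · simp only [dn, Function.update_of_ne hj]; exact hxy j
  simp only [E1]
  linarith

theorem L_incr {n : ℕ} (φ : Cube n → ℝ) (hφ : Incr φ) : Incr (L φ) := by
  intro x y hxy
  simp only [L]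
  apply div_le_div_of_nonneg_right _ (Nat.cast_nonneg n)
  exact sum_le_sum fun i _ => E1_incr i φ hφ x y hxy

theorem Liter_incr {n : ℕ} (φ : Cube n → ℝ) (hφ : Incr φ) (t : ℕ) : Incr (L^[t] φ) := by
  induction t with
  | zero => exact hφ
  | succ t ih => rw [Function.iterate_succ_apply']; exact L_incr _ ih

theorem Pc_mono {n : ℕ} (A : Finset (Cube n)) (φ ψ : Cube n → ℝ) (h : ∀ x ∈ A, φ x ≤ ψ x)
    (x : Cube n) (hx : x ∈ A) : Pc A φ x ≤ Pc A ψ x := by
  simp only [Pc]
  apply div_le_div_of_nonneg_right _ (Nat.cast_nonneg n)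
  apply sum_le_sum
  intro i _
  by_cases hf : flp x i ∈ A
  · rw [Pi, if_pos ⟨hx, hf⟩, Pi, if_pos ⟨hx, hf⟩]
    have := h x hx
    have := h _ hf
    linarith
  · rw [Pi, if_neg (fun h' => hf h'.2), Pi, if_neg (fun h' => hf h'.2)]
    exact h x hx

theorem Pc_ge {n : ℕ} (A : Finset (Cube n)) (hA : IsUp A) (φ : Cube n → ℝ)
    (hφ : Incr φ) (x : Cube n) (hx : x ∈ A) : L φ x ≤ Pc A φ x := by
  simp only [Pc, L]
  apply div_le_div_of_nonneg_right _ (Nat.cast_nonneg n)
  exact sum_le_sum fun i _ => Pi_ge A hA i φ hφ x hx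

theorem iter_ge {n : ℕ} (A : Finset (Cube n)) (hA : IsUp A) (φ : Cube n → ℝ)
    (hφ : Incr φ) (t : ℕ) : ∀ x ∈ A, L^[t] φ x ≤ (Pc A)^[t] φ x := by
  induction t with
  | zero => exact fun x _ => le_rfl
  | succ t ih =>
    intro x hx
    rw [Function.iterate_succ_apply', Function.iterate_succ_apply']
    exact (Pc_ge A hA _ (Liter_incr φ hφ t) x hx).trans (Pc_mono A _ _ ih x hx)

/-! ### The free walk -/

theorem av_E1 {n : ℕ} (i : Fin n) (F : Cube n → ℝ) :
    av F = av (fun x => (F (up i x) + F (dn i x)) / 2) := by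
  have h1 : ∀ x, (F (up i x) + F (dn i x)) / 2 = (F x + F (flp x i)) / 2 := fun x => E1_eq i F x
  simp only [av, h1]
  congr 1
  rw [← sum_div, sum_add_distrib]
  have h2 : ∑ x, F (flp x i) = ∑ x, F x :=
    Finset.sum_bij' (fun x _ => flp x i) (fun x _ => flp x i) (fun _ _ => mem_univ _)
      (fun _ _ => mem_univ _) (fun x _ => flp_flp x i) (fun x _ => flp_flp x i)
      (fun _ _ => rfl)
  rw [h2]
  ring

theorem av_nonneg {n : ℕ} (F : Cube n → ℝ) (h : ∀ x, 0 ≤ F x) : 0 ≤ av F :=
  div_nonneg (sum_nonneg fun x _ => h x) (by positivity)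

theorem av_const {n : ℕ} (c : ℝ) : av (fun _ : Cube n => c) = c := by
  simp [av]

theorem ES_empty {n : ℕ} (w : Cube n → ℝ) : ES ∅ w = w := by
  funext x
  simp [ES, av_const]

theorem ES_univ {n : ℕ} (w : Cube n → ℝ) (x : Cube n) : ES univ w x = av w := by
  simp [ES]

theorem ES_nonneg {n : ℕ} (S : Finset (Fin n)) (w : Cube n → ℝ) (hw : ∀ x, 0 ≤ w x)
    (x : Cube n) : 0 ≤ ES S w x := av_nonneg _ fun _ => hw _

theorem E1_ES {n : ℕ} (i : Fin n) (S : Finset (Fin n)) (w : Cube n → ℝ) :
    E1 i (ES S w) = ES (insert i S) w := by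
  funext x
  by_cases hi : i ∈ S
  · rw [Finset.insert_eq_of_mem hi]
    have h : ∀ y : Cube n, (∀ j, j ≠ i → y j = x j) → ES S w y = ES S w x := by
      intro y hy
      simp only [ES]
      congr 1
      funext z
      congr 1
      funext j
      by_cases hj : j ∈ S
      · simp [hj]
      · have : j ≠ i := fun h' => hj (h' ▸ hi)
        simp [hj, hy j this]
    rw [E1, h (up i x) (fun j hj => by simp [up, hj]), h (dn i x) (fun j hj => by simp [dn, hj])]
    ring
  · rw [E1]
    simp only [ES]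
    rw [av_E1 i (fun z => w (fun j => if j ∈ insert i S then z j else x j))]
    simp only [av]
    rw [← add_div, ← sum_add_distrib, div_div, div_eq_div_iff (by positivity) (by positivity),
      ← sum_div, div_mul_eq_mul_div, eq_div_iff (by norm_num)]
    have h1 : ∀ z : Cube n, (fun j => if j ∈ S then z j else up i x j) =
        (fun j => if j ∈ insert i S then up i z j else x j) := by
      intro z
      funext j
      by_cases hj : j = i
      · subst hj; simp [hi, up]
      · by_cases hjS : j ∈ S <;> simp [hj, hjS, up]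
    have h2 : ∀ z : Cube n, (fun j => if j ∈ S then z j else dn i x j) =
        (fun j => if j ∈ insert i S then dn i z j else x j) := by
      intro z
      funext j
      by_cases hj : j = i
      · subst hj; simp [hi, dn]
      · by_cases hjS : j ∈ S <;> simp [hj, hjS, dn]
    simp only [h1, h2]
    ring

theorem L_sum {n : ℕ} (f : Fin n → Cube n → ℝ) :
    L (fun x => (∑ i, f i x) / n) = fun x => (∑ i, L (f i) x) / n := by
  funext x
  simp only [L, E1]
  congr 1
  have h : ∑ j, (∑ i, (f j (up i x) + f j (dn i x)) / 2) / (n : ℝ) =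
      ∑ i, (∑ j, (f j (up i x) + f j (dn i x)) / 2) / (n : ℝ) := by
    rw [← sum_div, sum_comm, sum_div]
  rw [h]
  apply sum_congr rfl
  intro i _
  rw [← sum_div, sum_add_distrib]
  ring

theorem Liter_sum {n : ℕ} (t : ℕ) (f : Fin n → Cube n → ℝ) :
    L^[t] (fun x => (∑ i, f i x) / n) = fun x => (∑ i, L^[t] (f i) x) / n := by
  induction t with
  | zero => rfl
  | succ t ih =>
    simp only [Function.iterate_succ_apply']
    rw [ih, L_sum]

theorem card_sum {n : ℕ} (S : Finset (Fin n)) :
    ∑ i : Fin n, ((n : ℝ) - (insert i S).card) = ((n : ℝ) - S.card) * ((n : ℝ) - 1) := by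
  have h : ∀ i : Fin n, ((insert i S).card : ℝ) = S.card + 1 - (if i ∈ S then 1 else 0) := by
    intro i
    by_cases hi : i ∈ S
    · rw [Finset.insert_eq_of_mem hi, if_pos hi]; ring
    · rw [Finset.card_insert_of_notMem hi, if_neg hi]; push_cast; ring
  simp only [h, sum_sub_distrib, sum_add_distrib, sum_const, card_univ, Fintype.card_fin,
    nsmul_eq_mul, sum_ite_mem, univ_inter]
  ring

theorem low {n : ℕ} (hn : 0 < n) (w : Cube n → ℝ) (hw : ∀ x, 0 ≤ w x) (t : ℕ) :
    ∀ (S : Finset (Fin n)) (x : Cube n),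
      (1 - ((n : ℝ) - S.card) * (1 - 1 / (n : ℝ)) ^ t) * av w ≤ L^[t] (ES S w) x := by
  have hav := av_nonneg w hw
  have hn' : (n : ℝ) ≠ 0 := by positivity
  induction t with
  | zero =>
    intro S x
    simp only [pow_zero, mul_one, Function.iterate_zero, id]
    by_cases hS : S = univ
    · subst hS
      rw [ES_univ]
      simp
    · have h1 : S.card < n := by
        have h2 : S.card < (univ : Finset (Fin n)).card := Finset.card_lt_card (Finset.ssubset_univ_iff.2 hS)
        simpa using h2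
      have h2 : (1 : ℝ) ≤ (n : ℝ) - S.card := by
        have : ((S.card + 1 : ℕ) : ℝ) ≤ n := by exact_mod_cast h1
        push_cast at this
        linarith
      have h3 := ES_nonneg S w hw x
      have : (1 - ((n : ℝ) - S.card)) * av w ≤ 0 := mul_nonpos_of_nonpos_of_nonneg (by linarith) hav
      linarith
  | succ t ih =>
    intro S x
    have h1 : L (ES S w) = fun x => (∑ i, ES (insert i S) w x) / n := by
      funext y
      simp only [L, E1_ES]
    rw [Function.iterate_succ_apply, h1, Liter_sum]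
    have h2 : (∑ i : Fin n, (1 - ((n : ℝ) - (insert i S).card) * (1 - 1 / (n : ℝ)) ^ t) * av w) / n ≤
        (∑ i, L^[t] (ES (insert i S) w) x) / n :=
      div_le_div_of_nonneg_right (sum_le_sum fun i _ => ih _ x) (Nat.cast_nonneg n)
    refine le_trans (le_of_eq ?_) h2
    rw [← sum_mul, sum_sub_distrib, ← sum_mul, card_sum]
    simp only [sum_const, card_univ, Fintype.card_fin, nsmul_eq_mul, mul_one]
    rw [pow_succ]
    field_simp

end UPWj

theorem t_UPW : UPW := by
  intro n hn A hA w hw hw0 t x hx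
  have h1 := UPWj.low hn w hw0 t ∅ x
  rw [UPWj.ES_empty] at h1
  simp only [Finset.card_empty, Nat.cast_zero, sub_zero] at h1
  exact h1.trans (UPWj.iter_ge A hA w hw t x hx)

end Pool.Agent.Y984.MD
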