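import Pool.Agent.Y984.MD.Fin1
import Pool.Agent.Y984.MD.KER
import Pool.Agent.Y984.MD.MON
import Pool.Agent.Y984.MD.DERx
import Pool.Agent.Y984.MD.BESx
import Pool.Agent.Y984.MD.LOC
import Pool.Agent.Y984.MD.SUP
import Pool.Agent.Y984.MD.LAB
import Pool.Agent.Y984.MD.DIS
import Pool.Agent.Y984.MD.LEV
import Pool.Agent.Y984.MD.UPW
import Pool.Agent.Y984.MD.OPE
import Pool.Agent.Y984.MD.MAT
import Pool.Agent.Y984.MD.FINx

set_option autoImplicit false

/-! Project MD: the censored walk on dense monotone sets mixes in order `n log n` steps.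
Authors of the blocks: helper986 (KER, MON), helper244 (LOC), helper980 (SUP, DIS, LEV),
helper727 (LAB), helper361 (UPW), helper380 (MAT, FIN), helper984 (the rest). -/

namespace Pool.Agent.Y984.MD

/-- The main theorem. -/
theorem final (n : ℕ) (hn : 2 ≤ n) (A : Finset (Cube n)) (hne : A.Nonempty) (hA : IsUp A) :
    Mixed A (tmix A) ∧ (tmix A : ℝ) ≤ 10 ^ 12 * (n * Real.log n) / dens A ^ 8 :=
  main t_KER t_MON (t_LOC t_KER t_DERx t_BESx) t_SUP t_LAB t_DIS t_LEV t_UPW t_OPE t_GEN t_MAT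
    (t_FINx t_OPE) n hn A hne hA

end Pool.Agent.Y984.MD
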