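import Pool.Agent.Y984.MD.DER

set_option autoImplicit false

/-! Project MD: pointwise gradient bound (helper986). -/

namespace Pool.Agent.Y984.MD

open Finset

namespace BESx

variable {n : ℕ}

open KERx DERx

/-- the normalised coordinates -/
noncomputable def z (r : ℝ) (x : Cube n) (i : Fin n) (y : Cube n) : ℝ := sg true (y i) - r * sg (x i) true

theorem b_eq (r : ℝ) (i : Fin n) (φ : Cube n → ℝ) (x : Cube n) :
    T r (fun y => φ y * z r x i y) x = (1 - r ^ 2) * T r (D i φ) x := by
  rw [T_bit r i, T_D, ← av_smul]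
  congr 1
  funext y
  unfold z D
  rw [up_self, dn_self]
  have e1 : sg true true = 1 := by unfold sg; simp
  have e2 : sg true false = -1 := by unfold sg; simp
  have e3 : sg (x i) true * sg (x i) true = 1 := sg_sq _ _
  rw [e1, e2]
  linear_combination (K r i x y * r ^ 2 * (φ (dn i y) - φ (up i y)) / 2) * e3

theorem D_const (i : Fin n) (c : ℝ) (x : Cube n) : D i (fun _ => c) x = 0 := by
  unfold D; ring

theorem D_z (r : ℝ) (x : Cube n) (i j : Fin n) (y : Cube n) : D i (z r x j) y = if i = j then 1 else 0 := by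
  unfold D z
  split_ifs with h
  · subst h
    rw [up_self, dn_self]
    have e1 : sg true true = 1 := by unfold sg; simp
    have e2 : sg true false = -1 := by unfold sg; simp
    rw [e1, e2]
    ring
  · rw [up_ne (Ne.symm h), dn_ne (Ne.symm h)]
    ring

end BESx

open KERx DERx BESx in
theorem t_BES : BES := by
  intro n r h0 h1 φ x
  set a : Fin n → ℝ := fun i => T r (D i φ) x with ha
  set m : ℝ := T r φ x with hm
  set S : Cube n → ℝ := fun y => ∑ i, a i * z r x i y with hS
  have hTz : ∀ i, T r (z r x i) x = 0 := by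
    intro i
    have h := b_eq r i (fun _ => (1:ℝ)) x
    simp only [one_mul] at h
    rw [h]
    have : T r (D i fun _ : Cube n => (1:ℝ)) x = 0 := by
      have e : (D i fun _ : Cube n => (1:ℝ)) = fun _ => 0 := funext fun y => D_const i 1 y
      rw [e, T_const]
    rw [this, mul_zero]
  have hTS : T r S x = 0 := by
    rw [hS, T_sum]
    refine Finset.sum_eq_zero fun i _ => ?_
    rw [T_smul, hTz, mul_zero]
  have hmulS : ∀ ψ : Cube n → ℝ, T r (fun y => ψ y * S y) x = (1 - r ^ 2) * ∑ i, a i * T r (D i ψ) x := by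
    intro ψ
    have e : (fun y => ψ y * S y) = fun y => ∑ i, a i * (ψ y * z r x i y) := by
      funext y
      rw [hS]
      simp only
      rw [Finset.mul_sum]
      exact Finset.sum_congr rfl fun i _ => by ring
    rw [e, T_sum, Finset.mul_sum]
    refine Finset.sum_congr rfl fun i _ => ?_
    rw [T_smul, b_eq]
    ring
  have hDS : ∀ i y, D i S y = a i := by
    intro i y
    have e : D i S y = ∑ j, a j * D i (z r x j) y := by
      rw [hS]
      unfold D
      rw [← Finset.sum_sub_distrib, Finset.sum_div]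
      exact Finset.sum_congr rfl fun j _ => by ring
    rw [e]
    simp only [D_z, mul_ite, mul_one, mul_zero, Finset.sum_ite_eq, Finset.mem_univ, if_true]
  have hSS : T r (fun y => S y * S y) x = (1 - r ^ 2) * ∑ i, a i * a i := by
    rw [hmulS]
    congr 1
    refine Finset.sum_congr rfl fun i _ => ?_
    congr 1
    have e : D i S = fun _ => a i := funext fun y => hDS i y
    rw [e, T_const]
  have hφS := hmulS φ
  have hpos : 0 ≤ T r (fun y => (φ y - m - S y) ^ 2) x := T_nonneg r h0 h1 _ x fun y => sq_nonneg _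
  have hexp : (fun y => (φ y - m - S y) ^ 2) = fun y => ((φ y ^ 2 + (-2 * m) * φ y) + m ^ 2) +
      (((-2) * (φ y * S y) + (2 * m) * S y) + S y * S y) := by
    funext y
    ring
  rw [hexp, T_add, T_add, T_add, T_add, T_add, T_smul, T_smul, T_smul, T_const, hTS, hSS, hφS, ← hm] at hpos
  have e1 : ∑ i, a i * T r (D i φ) x = ∑ i, a i ^ 2 := Finset.sum_congr rfl fun i _ => by rw [ha]; ring
  rw [e1] at hpos
  have e3 : ∑ i, (T r (D i φ) x) ^ 2 = ∑ i, a i ^ 2 := rfl
  rw [e3]
  nlinarith [hpos]

end Pool.Agent.Y984.MD
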