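import Pool.Agent.Y984.MD.KER

set_option autoImplicit false

/-! Project MD: derivative of the noise form (helper986). -/

namespace Pool.Agent.Y984.MD

open Finset

namespace DERx

variable {n : ℕ}

open KERx

theorem D_up (i : Fin n) (φ : Cube n → ℝ) (x : Cube n) : D i φ (up i x) = D i φ x := by
  unfold D up dn
  rw [Function.update_idem, Function.update_idem]

theorem D_dn (i : Fin n) (φ : Cube n → ℝ) (x : Cube n) : D i φ (dn i x) = D i φ x := by
  unfold D up dn
  rw [Function.update_idem, Function.update_idem]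

/-- the right side -/
theorem T_D (r : ℝ) (i : Fin n) (ψ : Cube n → ℝ) (x : Cube n) : T r (D i ψ) x = av (fun y => K r i x y * D i ψ y) := by
  rw [T_indep r i (D i ψ) (fun y => by rw [D_up, D_dn])]
  congr 1
  funext y
  rw [D_up]

theorem inner_eq (r : ℝ) (i : Fin n) (ψ : Cube n → ℝ) (x : Cube n) :
    av (fun y => sg (x i) (y i) * K r i x y * ψ y) = sg (x i) true * av (fun y => K r i x y * D i ψ y) := by
  rw [av_pair i, ← av_smul]
  congr 1
  funext y
  rw [K_upr, K_dnr, up_self, dn_self, sg_false]
  unfold D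
  ring

theorem G_indep (r : ℝ) (i : Fin n) (ψ : Cube n → ℝ) (x : Cube n) :
    av (fun y => K r i (up i x) y * D i ψ y) = av (fun y => K r i x y * D i ψ y) ∧
    av (fun y => K r i (dn i x) y * D i ψ y) = av (fun y => K r i x y * D i ψ y) := by
  constructor
  · congr 1
    funext y
    rw [K_upl]
  · congr 1
    funext y
    rw [K_dnl]

theorem dir_eq (r : ℝ) (i : Fin n) (φ ψ : Cube n → ℝ) :
    av (fun x => φ x * av (fun y => sg (x i) (y i) * K r i x y * ψ y)) = av (fun x => D i φ x * T r (D i ψ) x) := by
  rw [av_pair i]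
  congr 1
  funext x
  rw [inner_eq, inner_eq, (G_indep r i ψ x).1, (G_indep r i ψ x).2, up_self, dn_self, T_D]
  have e1 : sg true true = 1 := by unfold sg; simp
  have e2 : sg false true = -1 := by unfold sg; simp
  rw [e1, e2]
  unfold D
  ring

theorem ker_deriv (r : ℝ) (x y : Cube n) : HasDerivAt (fun s => ker s x y) (∑ i, sg (x i) (y i) * K r i x y) r := by
  have h : ∀ i ∈ (univ : Finset (Fin n)), HasDerivAt (fun s : ℝ => 1 + s * sg (x i) (y i)) (sg (x i) (y i)) r := by
    intro i _
    have := ((hasDerivAt_id r).mul_const (sg (x i) (y i))).const_add 1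
    simpa using this
  have h2 := HasDerivAt.fun_finsetProd h
  refine h2.congr_deriv ?_
  refine Finset.sum_congr rfl fun i _ => ?_
  unfold K
  rw [smul_eq_mul, mul_comm]

end DERx

theorem t_DER : DER := by
  intro n φ ψ r
  have h1 : HasDerivAt (fun s => av (fun x => φ x * T s ψ x))
      (av (fun x => φ x * av (fun y => (∑ i, sg (x i) (y i) * KERx.K r i x y) * ψ y))) r := by
    unfold T av
    refine HasDerivAt.div_const ?_ _
    refine HasDerivAt.fun_sum fun x _ => ?_
    refine HasDerivAt.const_mul _ ?_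
    refine HasDerivAt.div_const ?_ _
    refine HasDerivAt.fun_sum fun y _ => ?_
    exact (DERx.ker_deriv r x y).mul_const _
  refine h1.congr_deriv ?_
  rw [Finset.sum_congr rfl fun i _ => (DERx.dir_eq r i φ ψ).symm, ← KERx.av_sum]
  congr 1
  funext x
  rw [← Finset.mul_sum, ← KERx.av_sum]
  congr 2
  funext y
  rw [Finset.sum_mul]

end Pool.Agent.Y984.MD
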