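import Mathlib

set_option autoImplicit false

/-! Project MD (mixing of the censored walk on dense monotone sets): definitions. -/

namespace Pool.Agent.Y984.MD

open Finset

/-- The hypercube. -/
abbrev Cube (n : ℕ) : Type := Fin n → Bool

/-- The point obtained by flipping coordinate `i`. -/
def flp {n : ℕ} (x : Cube n) (i : Fin n) : Cube n := Function.update x i (!(x i))

/-- `A` is monotone (up-closed). -/
def IsUp {n : ℕ} (A : Finset (Cube n)) : Prop :=
  ∀ x ∈ A, ∀ y : Cube n, (∀ i, x i ≤ y i) → y ∈ A

/-- `φ` is increasing. -/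
def Incr {n : ℕ} (φ : Cube n → ℝ) : Prop :=
  ∀ x y : Cube n, (∀ i, x i ≤ y i) → φ x ≤ φ y

/-- The uniform measure of `A` in the cube. -/
noncomputable def dens {n : ℕ} (A : Finset (Cube n)) : ℝ := (A.card : ℝ) / 2 ^ n

/-- Average over the cube. -/
noncomputable def av {n : ℕ} (F : Cube n → ℝ) : ℝ := (∑ x, F x) / 2 ^ n

/-- Set coordinate `i` to one. -/
def up {n : ℕ} (i : Fin n) (x : Cube n) : Cube n := Function.update x i true

/-- Set coordinate `i` to zero. -/
def dn {n : ℕ} (i : Fin n) (x : Cube n) : Cube n := Function.update x i false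

/-- agreement sign of two bits -/
def sg (a b : Bool) : ℝ := if a = b then 1 else -1

/-- noise kernel (with respect to the uniform distribution) -/
noncomputable def ker {n : ℕ} (r : ℝ) (x y : Cube n) : ℝ := ∏ i, (1 + r * sg (x i) (y i))

/-- noise operator with correlation `r` -/
noncomputable def T {n : ℕ} (r : ℝ) (φ : Cube n → ℝ) (x : Cube n) : ℝ :=
  av (fun y => ker r x y * φ y)

/-- discrete derivative in direction `i` -/
noncomputable def D {n : ℕ} (i : Fin n) (φ : Cube n → ℝ) (x : Cube n) : ℝ :=
  (φ (up i x) - φ (dn i x)) / 2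

/-- indicator function -/
def ind {n : ℕ} (A : Finset (Cube n)) (x : Cube n) : ℝ := if x ∈ A then 1 else 0

/-- Energy of `f` inside of the up-set `A`. -/
noncomputable def En {n : ℕ} (A : Finset (Cube n)) (f : Cube n → ℝ) : ℝ :=
  ∑ i, av (fun x => if dn i x ∈ A then (D i f x) ^ 2 else 0)

/-- Averaging over coordinate `i` inside of `A`. -/
noncomputable def Pi {n : ℕ} (A : Finset (Cube n)) (i : Fin n) (φ : Cube n → ℝ) (x : Cube n) : ℝ :=
  if x ∈ A ∧ flp x i ∈ A then (φ x + φ (flp x i)) / 2 else φ x

/-- One step of the lazy censored walk, acting on functions on the whole cube (points outside of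
`A` do not move). -/
noncomputable def Pc {n : ℕ} (A : Finset (Cube n)) (φ : Cube n → ℝ) (x : Cube n) : ℝ :=
  (∑ i, Pi A i φ x) / n

/-- convex function, quadratic up to `b` and affine afterwards -/
noncomputable def Psi (b v : ℝ) : ℝ := if v ≤ b then v ^ 2 else 2 * b * v - b ^ 2

/-- The part of `s` between `2^j` and `2^(j+1)`. -/
noncomputable def cl (j : ℕ) (s : ℝ) : ℝ := min (max (s - 2 ^ j) 0) (2 ^ j)

/-- Transition matrix of the lazy censored walk on `A`. -/
def mv {n : ℕ} (A : Finset (Cube n)) (x : Cube n) (i : Fin n) : Cube n :=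
  if flp x i ∈ A then flp x i else x

/-- Transition matrix of the lazy censored walk on `A`. -/
noncomputable def P {n : ℕ} (A : Finset (Cube n)) : Matrix A A ℝ := fun x y =>
  (1 / 2) * (if y = x then 1 else 0) +
    (1 / 2) * (((univ.filter (fun i : Fin n => mv A x.1 i = y.1)).card : ℝ) / n)

/-- Total variation distance. -/
noncomputable def tv {n : ℕ} {A : Finset (Cube n)} (μ ν : A → ℝ) : ℝ :=
  (1 / 2) * ∑ y, |μ y - ν y|

/-- The uniform distribution on `A`. -/
noncomputable def unif {n : ℕ} (A : Finset (Cube n)) : A → ℝ := fun _ => 1 / (A.card : ℝ)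

/-- From every start the law after `t` steps is within `1/4` of uniform. -/
def Mixed {n : ℕ} (A : Finset (Cube n)) (t : ℕ) : Prop :=
  ∀ x : A, tv ((P A ^ t) x) (unif A) ≤ 1 / 4

/-- The mixing time. -/
noncomputable def tmix {n : ℕ} (A : Finset (Cube n)) : ℕ := sInf {t | Mixed A t}

end Pool.Agent.Y984.MD
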