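import Pool.Agent.Y984.MD.Stm

set_option autoImplicit false

/-! Project MD: the final contraction (helper380). -/

namespace Pool.Agent.Y984.MD

open Finset

namespace FIN380

variable {n : ℕ}

lemma av_add (F G : Cube n → ℝ) : av (fun x => F x + G x) = av F + av G := by
  unfold av; rw [sum_add_distrib]; ring

lemma av_smul (c : ℝ) (F : Cube n → ℝ) : av (fun x => c * F x) = c * av F := by
  unfold av; rw [← mul_sum]; ring

lemma av_mono (F G : Cube n → ℝ) (h : ∀ x, F x ≤ G x) : av F ≤ av G := by
  unfold av
  gcongr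
  exact h _

lemma av_sum {ι : Type} (s : Finset ι) (F : ι → Cube n → ℝ) :
    av (fun x => ∑ i ∈ s, F i x) = ∑ i ∈ s, av (F i) := by
  unfold av
  rw [sum_comm, sum_div]

/-- point mass -/
noncomputable def dd (x : Cube n) : Cube n → ℝ := fun z => if z = x then 2 ^ n else 0

lemma av_dd (x : Cube n) : av (dd x) = 1 := by
  unfold av dd
  simp

/-- the limit -/
noncomputable def pp (A : Finset (Cube n)) : Cube n → ℝ := fun y => ind A y / dens A

lemma av_pp (A : Finset (Cube n)) (hA : A.Nonempty) : av (pp A) = 1 := by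
  have h1 : (0 : ℝ) < A.card := by exact_mod_cast hA.card_pos
  unfold av pp dens ind
  rw [← sum_div]
  have h2 : ∑ y : Cube n, (if y ∈ A then (1 : ℝ) else 0) = A.card := by
    simp
  rw [h2]
  field_simp

/-- the operator as a linear map -/
noncomputable def PL (hO : OPE) (hn : 0 < n) (A : Finset (Cube n)) :
    (Cube n → ℝ) →ₗ[ℝ] (Cube n → ℝ) where
  toFun := Pc A
  map_add' := fun φ ψ => funext ((hO n hn A).2.2.2.1 φ ψ)
  map_smul' := fun c φ => funext ((hO n hn A).2.2.2.2.1 c φ)

lemma PL_pow (hO : OPE) (hn : 0 < n) (A : Finset (Cube n)) (m : ℕ) (φ : Cube n → ℝ) :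
    (Pc A)^[m] φ = (PL hO hn A ^ m) φ := by
  rw [Module.End.pow_apply]
  rfl

lemma PL_succ (hO : OPE) (hn : 0 < n) (A : Finset (Cube n)) (m : ℕ) (φ : Cube n → ℝ) :
    (PL hO hn A ^ (m + 1)) φ = Pc A ((PL hO hn A ^ m) φ) := by
  rw [pow_succ']; rfl

lemma av_PL (hO : OPE) (hn : 0 < n) (A : Finset (Cube n)) (m : ℕ) (φ : Cube n → ℝ) :
    av ((PL hO hn A ^ m) φ) = av φ := by
  induction m with
  | zero => simp
  | succ m ih => rw [PL_succ, (hO n hn A).2.1, ih]

lemma PL_ind (hO : OPE) (hn : 0 < n) (A : Finset (Cube n)) (m : ℕ) :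
    (PL hO hn A ^ m) (pp A) = pp A := by
  induction m with
  | zero => simp
  | succ m ih =>
    rw [PL_succ, ih]
    have h1 : pp A = fun y => (1 / dens A) * ind A y := by
      funext y; unfold pp; ring
    rw [h1]
    exact funext ((hO n hn A).2.2.2.2.2.1 (1 / dens A))

lemma PL_supp (hO : OPE) (hn : 0 < n) (A : Finset (Cube n)) (m : ℕ) (φ : Cube n → ℝ)
    (h : ∀ x, x ∉ A → φ x = 0) : ∀ x, x ∉ A → (PL hO hn A ^ m) φ x = 0 := by
  induction m with
  | zero => simpa using h
  | succ m ih =>
    rw [PL_succ]
    exact (hO n hn A).2.2.2.2.2.2 _ ih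

lemma decomp (A : Finset (Cube n)) (v : Cube n → ℝ) (h : ∀ x, x ∉ A → v x = 0) :
    v = ∑ y ∈ A, (v y / 2 ^ n) • dd y := by
  funext x
  rw [Finset.sum_apply]
  simp only [Pi.smul_apply, smul_eq_mul, dd, mul_ite, mul_zero]
  by_cases hx : x ∈ A
  · rw [sum_ite_eq A x, if_pos hx]
    field_simp
  · rw [sum_ite_eq A x, if_neg hx]
    exact h x hx

lemma av_supp (A : Finset (Cube n)) (v : Cube n → ℝ) (h : ∀ x, x ∉ A → v x = 0) :
    av v = ∑ y ∈ A, v y / 2 ^ n := by
  unfold av
  rw [← sum_div]
  congr 1
  exact (sum_subset (subset_univ A) (fun x _ hx => h x hx)).symm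

/-- contraction of functions supported on `A` -/
lemma contr (hO : OPE) (hn : 0 < n) (A : Finset (Cube n)) (m : ℕ) (u : ℝ)
    (hu : ∀ y ∈ A, av (fun z => |(PL hO hn A ^ m) (dd y) z - pp A z|) ≤ u)
    (v : Cube n → ℝ) (hv : ∀ x, x ∉ A → v x = 0) :
    av (fun z => |(PL hO hn A ^ m) v z - av v * pp A z|) ≤ av (fun z => |v z|) * u := by
  have h1 : ∀ z, (PL hO hn A ^ m) v z - av v * pp A z =
      ∑ y ∈ A, (v y / 2 ^ n) * ((PL hO hn A ^ m) (dd y) z - pp A z) := by
    intro z
    have h2 : (PL hO hn A ^ m) v z = ∑ y ∈ A, (v y / 2 ^ n) * ((PL hO hn A ^ m) (dd y) z) := by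
      conv_lhs => rw [decomp A v hv]
      rw [map_sum, Finset.sum_apply]
      refine sum_congr rfl fun y _ => ?_
      rw [map_smul]
      rfl
    rw [h2, av_supp A v hv, sum_mul, ← sum_sub_distrib]
    refine sum_congr rfl fun y _ => ?_
    ring
  calc av (fun z => |(PL hO hn A ^ m) v z - av v * pp A z|)
      ≤ av (fun z => ∑ y ∈ A, |v y / 2 ^ n| * |(PL hO hn A ^ m) (dd y) z - pp A z|) := by
        apply av_mono
        intro z
        rw [h1 z]
        refine (abs_sum_le_sum_abs _ _).trans (le_of_eq ?_)
        exact sum_congr rfl fun y _ => abs_mul _ _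
    _ = ∑ y ∈ A, |v y / 2 ^ n| * av (fun z => |(PL hO hn A ^ m) (dd y) z - pp A z|) := by
        rw [av_sum]
        exact sum_congr rfl fun y _ => av_smul _ _
    _ ≤ ∑ y ∈ A, |v y / 2 ^ n| * u := by
        refine sum_le_sum fun y hy => ?_
        exact mul_le_mul_of_nonneg_left (hu y hy) (abs_nonneg _)
    _ = av (fun z => |v z|) * u := by
        rw [← sum_mul, av_supp A (fun z => |v z|) (fun x hx => by rw [hv x hx, abs_zero])]
        congr 1
        refine sum_congr rfl fun y _ => ?_
        rw [abs_div, abs_of_nonneg (by positivity : (0 : ℝ) ≤ 2 ^ n)]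

end FIN380

open FIN380 in
/-- MD-FIN -/
theorem t_FIN (hO : OPE) : FIN := by
  intro n hn A hA s M hM hM1 hg k
  have hd : 0 < dens A := by
    unfold dens
    have h1 : (0 : ℝ) < A.card := by exact_mod_cast hA.card_pos
    positivity
  have hpp0 : ∀ y, 0 ≤ pp A y := by
    intro y
    unfold pp ind
    split_ifs <;> positivity
  have key : ∀ x ∈ A, av (fun y => |(PL hO hn A ^ (k * s)) (dd x) y - pp A y|) ≤
      2 * (1 - M / 2) ^ k := by
    induction k with
    | zero =>
      intro x hx
      simp only [Nat.zero_mul, pow_zero, mul_one]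
      calc av (fun y => |(1 : Module.End ℝ (Cube n → ℝ)) (dd x) y - pp A y|)
          ≤ av (fun y => dd x y + pp A y) := by
            apply av_mono
            intro y
            have h1 : 0 ≤ dd x y := by unfold dd; split_ifs <;> positivity
            rw [Module.End.one_apply]
            refine (abs_sub _ _).trans (le_of_eq ?_)
            rw [abs_of_nonneg h1, abs_of_nonneg (hpp0 y)]
        _ = 2 := by rw [av_add, av_dd, av_pp A hA]; norm_num
    | succ k ih =>
      intro x hx
      obtain ⟨g, hg0, hg1, hg2, hg3⟩ := hg x hx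
      set h : Cube n → ℝ := (PL hO hn A ^ s) (dd x) with hh
      have hgh : ∀ y, g y ≤ h y := by
        intro y
        have := hg1 y
        rw [PL_pow hO hn] at this
        exact this
      set v : Cube n → ℝ := h - M • pp A with hvdef
      have hv : ∀ z, z ∉ A → v z = 0 := by
        intro z hz
        have h1 : h z = 0 := by
          apply PL_supp hO hn A s (dd x) _ z hz
          intro w hw
          unfold dd
          rw [if_neg]
          rintro rfl
          exact hw hx
        have h2 : pp A z = 0 := by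
          unfold pp ind
          rw [if_neg hz, zero_div]
        simp [hvdef, h1, h2]
      have havh : av h = 1 := by rw [hh, av_PL, av_dd]
      have havv : av v = 1 - M := by
        have h1 : av v = av (fun z => h z + (-M) * pp A z) := by
          congr 1
          funext z
          simp only [hvdef, Pi.sub_apply, Pi.smul_apply, smul_eq_mul]
          ring
        rw [h1, av_add, av_smul, av_pp A hA, havh]
        ring
      have habs : av (fun z => |v z|) ≤ 1 - M / 2 := by
        calc av (fun z => |v z|)
            ≤ av (fun z => |g z - M / dens A * ind A z| + (h z + (-1) * g z)) := by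
              apply av_mono
              intro z
              have h1 : v z = (g z - M / dens A * ind A z) + (h z - g z) := by
                simp only [hvdef, Pi.sub_apply, Pi.smul_apply, smul_eq_mul, pp]
                ring
              rw [h1]
              refine (abs_add_le _ _).trans ?_
              rw [abs_of_nonneg (sub_nonneg.2 (hgh z))]
              linarith
          _ = av (fun z => |g z - M / dens A * ind A z|) + (av h + (-1) * av g) := by
              rw [av_add, av_add, av_smul]
          _ ≤ M / 2 + (1 + (-1) * M) := by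
              rw [havh, hg2]
              gcongr
          _ = 1 - M / 2 := by ring
      have hc := contr hO hn A (k * s) (2 * (1 - M / 2) ^ k) ih v hv
      have h3 : ∀ z, (PL hO hn A ^ ((k + 1) * s)) (dd x) z - pp A z =
          (PL hO hn A ^ (k * s)) v z - av v * pp A z := by
        intro z
        have h4 : (PL hO hn A ^ ((k + 1) * s)) (dd x) = (PL hO hn A ^ (k * s)) h := by
          rw [Nat.succ_mul, pow_add]
          rfl
        have h5 : (PL hO hn A ^ (k * s)) v = (PL hO hn A ^ (k * s)) h - M • pp A := by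
          rw [hvdef, map_sub, map_smul, PL_ind]
        rw [h4, h5, havv]
        simp only [Pi.sub_apply, Pi.smul_apply, smul_eq_mul]
        ring
      simp only [h3]
      refine hc.trans ?_
      have h6 : (0 : ℝ) ≤ 2 * (1 - M / 2) ^ k := by
        have : (0 : ℝ) ≤ 1 - M / 2 := by linarith
        positivity
      calc av (fun z => |v z|) * (2 * (1 - M / 2) ^ k)
          ≤ (1 - M / 2) * (2 * (1 - M / 2) ^ k) := by gcongr
        _ = 2 * (1 - M / 2) ^ (k + 1) := by ring
  intro x hx
  have := key x hx
  rw [← PL_pow hO hn] at this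
  exact this

end Pool.Agent.Y984.MD
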