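import Pool.Agent.Y984.MD.Ph

set_option autoImplicit false

/-! Project MD: assembly and constants. -/

namespace Pool.Agent.Y984.MD

open Finset Basic

lemma pow_le_exp (γ : ℝ) (h0 : 0 ≤ 1 - γ) (t : ℕ) : (1 - γ) ^ t ≤ Real.exp (-(γ * t)) := by
  have h1 : 1 - γ ≤ Real.exp (-γ) := by
    have := Real.add_one_le_exp (-γ); linarith
  calc (1 - γ) ^ t ≤ Real.exp (-γ) ^ t := pow_le_pow_left₀ h0 h1 t
    _ = Real.exp (-(γ * t)) := by rw [← Real.exp_nat_mul]; congr 1; ring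

lemma exp_two : Real.exp (-2) ≤ 1 / 4 := by
  have h := Real.quadratic_le_exp_of_nonneg (show (0 : ℝ) ≤ 2 by norm_num)
  have h2 : (4 : ℝ) ≤ Real.exp 2 := by norm_num at h; linarith
  rw [Real.exp_neg, ← one_div]
  exact one_div_le_one_div_of_le (by norm_num) h2

lemma sum_th {J : ℕ} (hJ : 0 < J) (n : ℕ) :
    ∑ i ∈ range n, th J i ≤ J * (1 + Real.log n) := by
  have h1 : ∑ i ∈ range n, th J i ≤ J * (harmonic n : ℝ) := by
    unfold harmonic
    push_cast
    rw [mul_sum]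
    refine sum_le_sum fun i _ => ?_
    unfold th
    rw [div_eq_mul_inv]
    refine mul_le_mul_of_nonneg_left ?_ (by positivity)
    have hJ' : (1 : ℝ) ≤ J := by exact_mod_cast hJ
    have hi : (0 : ℝ) ≤ i := by positivity
    exact inv_anti₀ (by positivity) (by linarith)
  exact h1.trans (mul_le_mul_of_nonneg_left (harmonic_le_one_add_log n) (by positivity))

/-- Assembly: for parameters satisfying the numerical conditions the walk is mixed. -/
theorem assembly (hK : KER) (hMON : MON) (hLOC : LOC) (hSUP : SUP) (hLAB : LAB) (hDIS : DIS)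
    (hLEV : LEV) (hUPW : UPW) (hO : OPE) (hGEN : GEN) (hMAT : MAT) (hFIN : FIN)
    {n : ℕ} (hn : 0 < n) (A : Finset (Cube n)) (hA : IsUp A) (hne : A.Nonempty) (κ : ℝ)
    (hκ : 0 < κ) (hκd : κ = dens A ^ 2 / 4)
    (J : ℕ) (hJ : 0 < J) (hJκ : (1 / 2 : ℝ) ^ J ≤ κ / 128) (t1 t2 r k : ℕ)
    (ht1 : ∀ t, t1 ≤ t → n * (1 - 1 / (n : ℝ)) ^ t ≤ 1 / 4)
    (ht2 : 2 * ∑ i ∈ range n, th J i < t2 * (κ ^ 2 / (73920 * n)))
    (hr : (1 - dens A ^ 2 / (144 * n)) ^ r * 4 ^ (J + 1) ≤ κ / 4 / 4)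
    (hk : (1 - κ / 4 / 2) ^ k ≤ 1 / 4) : Mixed A (k * (t1 + t2 + r)) := by
  classical
  have hn' : (1 : ℝ) ≤ n := by exact_mod_cast hn
  have hμ1 := dens_le_one A
  have hμ : 0 < dens A := by
    rcases (dens_nonneg A).lt_or_eq with h | h
    · exact h
    · rw [← h] at hκd; norm_num at hκd; linarith
  have hκ1 : κ ≤ 1 := by rw [hκd]; nlinarith
  have hγ0 : 0 ≤ 1 - dens A ^ 2 / (144 * n) := by
    have : dens A ^ 2 / (144 * n) ≤ 1 := by
      rw [div_le_one (by positivity)]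
      nlinarith
    linarith
  have hγ1 : 1 - dens A ^ 2 / (144 * n) ≤ 1 := by
    have : 0 ≤ dens A ^ 2 / (144 * n) := by positivity
    linarith
  have hdec : ∀ x ∈ A, ∃ g : Cube n → ℝ, (∀ y, 0 ≤ g y) ∧
      (∀ y, g y ≤ ((Pc A)^[t1 + t2 + r] (fun z => if z = x then 2 ^ n else 0)) y) ∧
      av g = κ / 4 ∧ av (fun y => |g y - κ / 4 / dens A * ind A y|) ≤ κ / 4 / 2 := by
    intro x hx
    obtain ⟨t, ht, ht', hm⟩ := ph2 hK hMON hLOC hSUP hLAB hDIS hLEV hUPW hO hn A hA κ hκ hκd J hJ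
      hJκ t1 t2 ht1 ht2 x hx
    have h0 := it_nonneg hn hO A t _ (pm_nonneg x)
    have hs := it_supp hn hO A t (pm x) (by
      intro y hy
      unfold pm
      rw [if_neg]
      rintro rfl
      exact hy hx)
    have hle : (1 - dens A ^ 2 / (144 * n)) ^ (t1 + t2 + r - t) * 4 ^ (J + 1) ≤ κ / 4 / 4 := by
      refine le_trans ?_ hr
      exact mul_le_mul_of_nonneg_right (pow_le_pow_of_le_one hγ0 hγ1 (by omega)) (by positivity)
    obtain ⟨g, g0, g1, g2, g3⟩ := ph3 hK hLOC hO hGEN hn A hA hμ _ h0 hs (4 ^ (J + 1)) (κ / 4)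
      (by positivity) hm (by positivity) (t1 + t2 + r - t) hle
    refine ⟨g, g0, ?_, g2, g3⟩
    intro y
    have e : (Pc A)^[t1 + t2 + r] (fun z => if z = x then 2 ^ n else 0) =
        (Pc A)^[t1 + t2 + r - t] ((Pc A)^[t] (pm x)) := by
      rw [← Function.iterate_add_apply]
      have : t1 + t2 + r - t + t = t1 + t2 + r := by omega
      rw [this]
      rfl
    rw [e]
    exact g1 y
  have hcontr := hFIN n hn A hne (t1 + t2 + r) (κ / 4) (by positivity) (by linarith) hdec k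
  intro x
  have h1 := hcontr x.1 x.2
  have h2 : tv ((P A ^ (k * (t1 + t2 + r))) x) (unif A) = (1 / 2) * av (fun y =>
      |((Pc A)^[k * (t1 + t2 + r)] (fun z => if z = x.1 then 2 ^ n else 0)) y -
        ind A y / dens A|) := by
    unfold tv av
    congr 1
    rw [eq_div_iff (by positivity), mul_comm, mul_sum]
    have hsp := it_supp hn hO A (k * (t1 + t2 + r)) (fun z => if z = x.1 then 2 ^ n else 0) (by
      intro y hy
      rw [if_neg]
      rintro rfl
      exact hy x.2)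
    rw [← Finset.sum_subset (Finset.subset_univ A) (by
      intro y _ hy
      rw [hsp y hy]
      unfold ind
      rw [if_neg hy]
      simp)]
    rw [← Finset.sum_coe_sort A]
    refine sum_congr rfl fun y _ => ?_
    rw [← hMAT n hn A (k * (t1 + t2 + r)) x y]
    unfold ind
    rw [if_pos y.2]
    unfold unif dens
    have hc : (0 : ℝ) < A.card := by exact_mod_cast hne.card_pos
    have h3 : (2 : ℝ) ^ n * (P A ^ (k * (t1 + t2 + r))) x y - 1 / ((A.card : ℝ) / 2 ^ n) =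
        2 ^ n * ((P A ^ (k * (t1 + t2 + r))) x y - 1 / (A.card : ℝ)) := by
      field_simp
    rw [h3, abs_mul, abs_of_pos (by positivity : (0 : ℝ) < 2 ^ n)]
  rw [h2]
  linarith

/-- The numerical conditions can be satisfied. -/
theorem constants {n : ℕ} (hn : 2 ≤ n) (κ : ℝ) (hκ : 0 < κ) (hκ1 : κ ≤ 1 / 4) :
    ∃ J t1 t2 r k : ℕ, 0 < J ∧ (1 / 2 : ℝ) ^ J ≤ κ / 128 ∧
      (∀ t, t1 ≤ t → n * (1 - 1 / (n : ℝ)) ^ t ≤ 1 / 4) ∧
      2 * ∑ i ∈ range n, th J i < t2 * (κ ^ 2 / (73920 * n)) ∧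
      (1 - 4 * κ / (144 * n)) ^ r * 4 ^ (J + 1) ≤ κ / 4 / 4 ∧
      (1 - κ / 4 / 2) ^ k ≤ 1 / 4 ∧
      ((k * (t1 + t2 + r) : ℕ) : ℝ) ≤ 10 ^ 9 * (n * Real.log n) / κ ^ 4 := by
  have hn2 : (2 : ℝ) ≤ n := by exact_mod_cast hn
  have hn0 : (0 : ℝ) < n := by linarith
  have hlog2 : (0.69 : ℝ) < Real.log 2 := by have := Real.log_two_gt_d9; linarith
  have hL : (0.69 : ℝ) < Real.log n := lt_of_lt_of_le hlog2 (Real.log_le_log (by norm_num) hn2)
  set L := Real.log n with hLdef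
  set K : ℝ := 1 / κ with hKdef
  have hK4 : 4 ≤ K := by
    rw [hKdef, le_div_iff₀ hκ]; linarith
  have hKκ : K * κ = 1 := by rw [hKdef]; field_simp
  have hK0 : 0 < K := by positivity
  set J : ℕ := ⌈128 * K⌉₊ with hJdef
  have hJ1 : 128 * K ≤ J := Nat.le_ceil _
  have hJ2 : (J : ℝ) < 128 * K + 1 := Nat.ceil_lt_add_one (by positivity)
  have hJ0 : 0 < J := by
    have : (0 : ℝ) < J := by linarith
    exact_mod_cast this
  set t1 : ℕ := ⌈(n : ℝ) * (L + 2)⌉₊ with ht1def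
  have ht1a : (n : ℝ) * (L + 2) ≤ t1 := Nat.le_ceil _
  have ht1b : (t1 : ℝ) < n * (L + 2) + 1 := Nat.ceil_lt_add_one (by positivity)
  set t2 : ℕ := ⌈147840 * n * (J * (1 + L)) * K ^ 2⌉₊ + 1 with ht2def
  have ht2a : 147840 * n * (J * (1 + L)) * K ^ 2 + 1 ≤ t2 := by
    have := Nat.le_ceil (147840 * (n : ℝ) * (J * (1 + L)) * K ^ 2)
    rw [ht2def]; push_cast; linarith
  have ht2b : (t2 : ℝ) < 147840 * n * (J * (1 + L)) * K ^ 2 + 2 := by
    have := Nat.ceil_lt_add_one (show 0 ≤ 147840 * (n : ℝ) * (J * (1 + L)) * K ^ 2 by positivity)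
    rw [ht2def]; push_cast; linarith
  set r : ℕ := ⌈36 * n * K * (2 * (J + 1) + 16 * K)⌉₊ with hrdef
  have hra : 36 * n * K * (2 * (J + 1) + 16 * K) ≤ r := Nat.le_ceil _
  have hrb : (r : ℝ) < 36 * n * K * (2 * (J + 1) + 16 * K) + 1 :=
    Nat.ceil_lt_add_one (by positivity)
  set k : ℕ := ⌈16 * K⌉₊ with hkdef
  have hka : 16 * K ≤ k := Nat.le_ceil _
  have hkb : (k : ℝ) < 16 * K + 1 := Nat.ceil_lt_add_one (by positivity)
  refine ⟨J, t1, t2, r, k, hJ0, ?_, ?_, ?_, ?_, ?_, ?_⟩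
  · -- J
    have h1 : (J : ℝ) < 2 ^ J := by exact_mod_cast Nat.lt_two_pow_self
    have h2 : 128 / κ ≤ 2 ^ J := by
      have : 128 / κ = 128 * K := by rw [hKdef]; ring
      linarith
    rw [one_div_pow, div_le_div_iff₀ (by positivity) (by norm_num)]
    rw [div_le_iff₀ hκ] at h2
    linarith
  · -- t1
    intro t ht
    have h0 : 0 ≤ 1 - 1 / (n : ℝ) := by
      have : 1 / (n : ℝ) ≤ 1 := by rw [div_le_one hn0]; linarith
      linarith
    have h1 := pow_le_exp (1 / (n : ℝ)) h0 t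
    have ht' : (t1 : ℝ) ≤ t := by exact_mod_cast ht
    have h2 : Real.exp (-(1 / (n : ℝ) * t)) ≤ Real.exp (-2) * (1 / n) := by
      have e : (1 / (n : ℝ)) = Real.exp (-L) := by
        rw [Real.exp_neg, hLdef, Real.exp_log hn0, one_div]
      have e2 : Real.exp (-2) * (1 / (n : ℝ)) = Real.exp (-(L + 2)) := by
        rw [e, ← Real.exp_add]; congr 1; ring
      rw [e2, Real.exp_le_exp]
      have : L + 2 ≤ 1 / (n : ℝ) * t := by
        rw [div_mul_eq_mul_div, one_mul, le_div_iff₀ hn0]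
        linarith
      linarith
    calc (n : ℝ) * (1 - 1 / (n : ℝ)) ^ t ≤ n * (Real.exp (-2) * (1 / n)) :=
          mul_le_mul_of_nonneg_left (h1.trans h2) hn0.le
      _ = Real.exp (-2) := by field_simp
      _ ≤ 1 / 4 := exp_two
  · -- t2
    have h1 := sum_th hJ0 n
    have h2 : 2 * ∑ i ∈ range n, th J i ≤ 2 * (J * (1 + L)) := by linarith
    have h3 : 2 * (J * (1 + L)) = (147840 * n * (J * (1 + L)) * K ^ 2) * (κ ^ 2 / (73920 * n)) := by
      have : K ^ 2 * κ ^ 2 = 1 := by rw [← mul_pow, hKκ, one_pow]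
      have e : (147840 * n * (J * (1 + L)) * K ^ 2) * (κ ^ 2 / (73920 * n)) =
          (K ^ 2 * κ ^ 2) * (2 * (J * (1 + L))) := by
        field_simp
        norm_num
      rw [e, this, one_mul]
    have h4 : (147840 * n * (J * (1 + L)) * K ^ 2) * (κ ^ 2 / (73920 * n)) <
        t2 * (κ ^ 2 / (73920 * n)) :=
      mul_lt_mul_of_pos_right (by linarith) (by positivity)
    linarith
  · -- r
    have hγ0 : 0 ≤ 1 - 4 * κ / (144 * n) := by
      have : 4 * κ / (144 * n) ≤ 1 := by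
        rw [div_le_one (by positivity)]
        nlinarith
      linarith
    have h1 := pow_le_exp (4 * κ / (144 * n)) hγ0 r
    have h2 : 2 * ((J : ℝ) + 1) + 16 * K ≤ 4 * κ / (144 * n) * r := by
      have e : 4 * κ / (144 * n) * (36 * n * K * (2 * (J + 1) + 16 * K)) =
          (K * κ) * (2 * ((J : ℝ) + 1) + 16 * K) := by
        field_simp
        ring
      have h3 : 4 * κ / (144 * n) * (36 * n * K * (2 * (J + 1) + 16 * K)) ≤
          4 * κ / (144 * n) * r := mul_le_mul_of_nonneg_left hra (by positivity)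
      rw [e, hKκ, one_mul] at h3
      exact h3
    have h4 : Real.exp (-(4 * κ / (144 * n) * r)) ≤
        Real.exp (-(2 * ((J : ℝ) + 1))) * Real.exp (-(16 * K)) := by
      rw [← Real.exp_add, Real.exp_le_exp]; linarith
    have h5 : (4 : ℝ) ^ (J + 1) ≤ Real.exp (2 * ((J : ℝ) + 1)) := by
      have h : (4 : ℝ) ≤ Real.exp 2 := by
        have := Real.quadratic_le_exp_of_nonneg (show (0 : ℝ) ≤ 2 by norm_num)
        norm_num at this; linarith
      calc (4 : ℝ) ^ (J + 1) ≤ Real.exp 2 ^ (J + 1) := pow_le_pow_left₀ (by norm_num) h _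
        _ = Real.exp (2 * ((J : ℝ) + 1)) := by
          rw [← Real.exp_nat_mul]; congr 1; push_cast; ring
    have h6 : Real.exp (-(16 * K)) ≤ κ / 4 / 4 := by
      rw [Real.exp_neg]
      have : 16 * K ≤ Real.exp (16 * K) := by
        have := Real.add_one_le_exp (16 * K); linarith
      have h7 : κ / 4 / 4 = (16 * K)⁻¹ := by rw [hKdef]; field_simp; norm_num
      rw [h7]
      exact inv_anti₀ (by positivity) this
    calc (1 - 4 * κ / (144 * n)) ^ r * 4 ^ (J + 1)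
        ≤ (Real.exp (-(2 * ((J : ℝ) + 1))) * Real.exp (-(16 * K))) *
            Real.exp (2 * ((J : ℝ) + 1)) :=
          mul_le_mul (h1.trans h4) h5 (by positivity) (by positivity)
      _ = Real.exp (-(16 * K)) := by
          rw [mul_right_comm, ← Real.exp_add]
          simp
      _ ≤ _ := h6
  · -- k
    have h0 : 0 ≤ 1 - κ / 4 / 2 := by linarith
    have h1 := pow_le_exp (κ / 4 / 2) h0 k
    refine h1.trans ((Real.exp_le_exp.2 ?_).trans exp_two)
    have : 2 ≤ κ / 4 / 2 * k := by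
      calc (2 : ℝ) = κ / 4 / 2 * (16 * K) := by
            have : κ / 4 / 2 * (16 * K) = 2 * (K * κ) := by ring
            rw [this, hKκ, mul_one]
        _ ≤ _ := mul_le_mul_of_nonneg_left hka (by positivity)
    linarith
  · -- total
    have hT : 10 ^ 9 * ((n : ℝ) * L) / κ ^ 4 = 10 ^ 9 * (n * L) * K ^ 4 := by
      rw [hKdef]; field_simp
    rw [hT]
    push_cast
    set X : ℝ := (n : ℝ) * L with hX
    have hX1 : 1.38 < X := by nlinarith
    have hnX : (n : ℝ) ≤ X * (100 / 69) := by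
      rw [hX]; nlinarith
    have hJ3 : (J : ℝ) ≤ 129 * K := by linarith
    have a1 : (t1 : ℝ) ≤ 5 * X := by nlinarith
    have a2 : (t2 : ℝ) ≤ 4.7e7 * (K ^ 3 * X) := by
      have b1 : (n : ℝ) * (1 + L) ≤ 2.45 * X := by nlinarith
      have b2 : 147840 * (n : ℝ) * (J * (1 + L)) * K ^ 2 = 147840 * J * K ^ 2 * (n * (1 + L)) := by
        ring
      have b3 : 147840 * (J : ℝ) * K ^ 2 * (n * (1 + L)) ≤
          147840 * (129 * K) * K ^ 2 * (2.45 * X) := by
        apply mul_le_mul _ b1 (by positivity) (by positivity)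
        apply mul_le_mul_of_nonneg_right _ (by positivity)
        linarith
      have b4 : (64 : ℝ) ≤ K ^ 3 := by
        calc (64 : ℝ) = 4 ^ 3 := by norm_num
          _ ≤ K ^ 3 := pow_le_pow_left₀ (by norm_num) hK4 3
      have b5 : (64 : ℝ) * 1.38 ≤ K ^ 3 * X := mul_le_mul b4 hX1.le (by norm_num) (by positivity)
      have b6 : 147840 * (129 * K) * K ^ 2 * (2.45 * X) = 46724832 * (K ^ 3 * X) := by ring
      linarith
    have a3 : (r : ℝ) ≤ 15000 * (K ^ 2 * X) := by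
      have b1 : 2 * ((J : ℝ) + 1) + 16 * K ≤ 275 * K := by linarith
      have b2 : 36 * (n : ℝ) * K * (2 * (J + 1) + 16 * K) ≤
          36 * (X * (100 / 69)) * K * (275 * K) := by
        apply mul_le_mul _ b1 (by positivity) (by positivity)
        apply mul_le_mul_of_nonneg_right _ hK0.le
        linarith
      have b3 : 36 * (X * (100 / 69)) * K * (275 * K) = 36 * 100 / 69 * 275 * (K ^ 2 * X) := by ring
      have b4 : (16 : ℝ) ≤ K ^ 2 := by nlinarith
      have b5 : (16 : ℝ) * 1.38 ≤ K ^ 2 * X := mul_le_mul b4 hX1.le (by norm_num) (by positivity)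
      rw [b3] at b2
      linarith
    have c1 : K ^ 2 * X ≤ K ^ 3 * X / 4 := by
      have : K ^ 3 = K * K ^ 2 := by ring
      have h7 : 0 ≤ K ^ 2 * X := by positivity
      nlinarith
    have c2 : X ≤ K ^ 3 * X / 64 := by
      have b4 : (64 : ℝ) ≤ K ^ 3 := by
        calc (64 : ℝ) = 4 ^ 3 := by norm_num
          _ ≤ K ^ 3 := pow_le_pow_left₀ (by norm_num) hK4 3
      nlinarith
    have c3 : (t1 : ℝ) + t2 + r ≤ 4.8e7 * (K ^ 3 * X) := by linarith
    have c4 : (k : ℝ) ≤ 17 * K := by linarith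
    calc (k : ℝ) * (t1 + t2 + r) ≤ (17 * K) * (4.8e7 * (K ^ 3 * X)) :=
          mul_le_mul c4 c3 (by positivity) (by positivity)
      _ = 8.16e8 * X * K ^ 4 := by ring
      _ ≤ 10 ^ 9 * X * K ^ 4 := by
          have : 0 ≤ X * K ^ 4 := by positivity
          linarith

/-- Main theorem, from the blocks. -/
theorem main (hK : KER) (hMON : MON) (hLOC : LOC) (hSUP : SUP) (hLAB : LAB) (hDIS : DIS)
    (hLEV : LEV) (hUPW : UPW) (hO : OPE) (hGEN : GEN) (hMAT : MAT) (hFIN : FIN)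
    (n : ℕ) (hn : 2 ≤ n) (A : Finset (Cube n)) (hne : A.Nonempty) (hA : IsUp A) :
    Mixed A (tmix A) ∧ (tmix A : ℝ) ≤ 10 ^ 12 * (n * Real.log n) / dens A ^ 8 := by
  have hμ1 := dens_le_one A
  have hμ : 0 < dens A := by
    unfold dens
    have : (0 : ℝ) < A.card := by exact_mod_cast hne.card_pos
    positivity
  set κ : ℝ := dens A ^ 2 / 4 with hκ
  have hκ0 : 0 < κ := by positivity
  have hκ1 : κ ≤ 1 / 4 := by rw [hκ]; nlinarith
  obtain ⟨J, t1, t2, r, k, hJ, h1, h2, h3, h4, h5, h6⟩ := constants hn κ hκ0 hκ1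
  have e : 4 * κ = dens A ^ 2 := by rw [hκ]; ring
  rw [e] at h4
  have hm := assembly hK hMON hLOC hSUP hLAB hDIS hLEV hUPW hO hGEN hMAT hFIN (by omega) A hA hne
    κ hκ0 hκ J hJ h1 t1 t2 r k h2 h3 h4 h5
  have hmem : (k * (t1 + t2 + r)) ∈ {t | Mixed A t} := hm
  refine ⟨Nat.sInf_mem ⟨_, hmem⟩, ?_⟩
  have h7 : tmix A ≤ k * (t1 + t2 + r) := Nat.sInf_le hmem
  have h8 : (tmix A : ℝ) ≤ ((k * (t1 + t2 + r) : ℕ) : ℝ) := by exact_mod_cast h7
  refine h8.trans (h6.trans ?_)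
  have hlog : 0 ≤ Real.log n := Real.log_natCast_nonneg n
  have e2 : κ ^ 4 = dens A ^ 8 / 256 := by rw [hκ]; ring
  rw [e2, div_div_eq_mul_div]
  apply div_le_div_of_nonneg_right _ (by positivity)
  have : 0 ≤ (n : ℝ) * Real.log n := by positivity
  linarith

end Pool.Agent.Y984.MD
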