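import Pool.Agent.Y984.MD.Step

set_option autoImplicit false

/-! Project MD: the three phases. -/

namespace Pool.Agent.Y984.MD

open Finset Basic

/-- point mass (density with respect to the uniform distribution on the cube) -/
noncomputable def pm {n : ℕ} (x : Cube n) : Cube n → ℝ := fun z => if z = x then 2 ^ n else 0

section iter

variable {n : ℕ} (hn : 0 < n) (hO : OPE) (A : Finset (Cube n))

include hn hO

lemma it_mono (t : ℕ) : ∀ φ ψ : Cube n → ℝ, (∀ x, φ x ≤ ψ x) →
    ∀ x, ((Pc A)^[t] φ) x ≤ ((Pc A)^[t] ψ) x := by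
  obtain ⟨-, -, h3, -, -, -, -⟩ := hO n hn A
  induction t with
  | zero => intro φ ψ h x; exact h x
  | succ t ih =>
    intro φ ψ h x
    rw [Function.iterate_succ_apply, Function.iterate_succ_apply]
    exact ih _ _ (h3 _ _ h) x

lemma it_ind (c : ℝ) (t : ℕ) : (Pc A)^[t] (fun y => c * ind A y) = fun y => c * ind A y := by
  obtain ⟨-, -, -, -, -, h6, -⟩ := hO n hn A
  induction t with
  | zero => rfl
  | succ t ih =>
    rw [Function.iterate_succ_apply]
    have : Pc A (fun y => c * ind A y) = fun y => c * ind A y := funext fun x => h6 c x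
    rw [this, ih]

lemma it_av (t : ℕ) : ∀ φ : Cube n → ℝ, av ((Pc A)^[t] φ) = av φ := by
  obtain ⟨-, h2, -, -, -, -, -⟩ := hO n hn A
  induction t with
  | zero => intro φ; rfl
  | succ t ih => intro φ; rw [Function.iterate_succ_apply, ih, h2]

lemma it_dual (t : ℕ) : ∀ φ ψ : Cube n → ℝ,
    av (fun x => ((Pc A)^[t] φ) x * ψ x) = av (fun x => φ x * ((Pc A)^[t] ψ) x) := by
  obtain ⟨h1, -, -, -, -, -, -⟩ := hO n hn A
  induction t with
  | zero => intro φ ψ; rfl
  | succ t ih =>
    intro φ ψ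
    rw [Function.iterate_succ_apply, Function.iterate_succ_apply']
    rw [ih, h1]

lemma it_sub (t : ℕ) : ∀ φ ψ : Cube n → ℝ,
    (Pc A)^[t] (fun y => φ y - ψ y) = fun y => ((Pc A)^[t] φ) y - ((Pc A)^[t] ψ) y := by
  obtain ⟨-, -, -, h4, h5, -, -⟩ := hO n hn A
  induction t with
  | zero => intro φ ψ; rfl
  | succ t ih =>
    intro φ ψ
    rw [Function.iterate_succ_apply, Function.iterate_succ_apply, Function.iterate_succ_apply]
    have : Pc A (fun y => φ y - ψ y) = fun y => Pc A φ y - Pc A ψ y := by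
      funext y
      have e : (fun y => φ y - ψ y) = fun y => φ y + (fun z => (-1) * ψ z) y := by
        funext z; ring
      rw [e, h4 φ (fun z => (-1) * ψ z) y, h5]
      ring
    rw [this, ih]

lemma it_supp (t : ℕ) : ∀ φ : Cube n → ℝ, (∀ x, x ∉ A → φ x = 0) →
    ∀ x, x ∉ A → ((Pc A)^[t] φ) x = 0 := by
  obtain ⟨-, -, -, -, -, -, h7⟩ := hO n hn A
  induction t with
  | zero => intro φ h; exact h
  | succ t ih =>
    intro φ h
    rw [Function.iterate_succ_apply]
    exact ih _ (h7 φ h)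

lemma it_nonneg (t : ℕ) (φ : Cube n → ℝ) (h : ∀ x, 0 ≤ φ x) : ∀ x, 0 ≤ ((Pc A)^[t] φ) x := by
  intro x
  have h1 := it_mono hn hO A t (fun y => 0 * ind A y) φ (fun y => by simpa using h y) x
  rw [it_ind hn hO A 0 t] at h1
  simpa using h1

end iter

lemma pm_nonneg {n : ℕ} (x y : Cube n) : 0 ≤ pm x y := by
  unfold pm; split_ifs <;> positivity

lemma av_pm {n : ℕ} (x : Cube n) (w : Cube n → ℝ) : av (fun y => pm x y * w y) = w x := by
  unfold av pm
  have : ∀ y, (if y = x then (2 : ℝ) ^ n else 0) * w y = if y = x then 2 ^ n * w x else 0 := by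
    intro y
    split_ifs with h
    · rw [h]
    · simp
  simp only [this, sum_ite_eq', mem_univ, if_true]
  field_simp

lemma av_pm_one {n : ℕ} (x : Cube n) : av (pm x) = 1 := by
  have := av_pm x (fun _ => 1)
  simpa using this

/-- First and second phase. -/
theorem ph2 (hK : KER) (hMON : MON) (hLOC : LOC) (hSUP : SUP) (hLAB : LAB) (hDIS : DIS)
    (hLEV : LEV) (hUPW : UPW) (hO : OPE)
    {n : ℕ} (hn : 0 < n) (A : Finset (Cube n)) (hA : IsUp A) (κ : ℝ) (hκ : 0 < κ)
    (hκd : κ = dens A ^ 2 / 4)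
    (J : ℕ) (hJ : 0 < J) (hJκ : (1 / 2 : ℝ) ^ J ≤ κ / 128) (t1 t2 : ℕ)
    (ht1 : ∀ t, t1 ≤ t → n * (1 - 1 / (n : ℝ)) ^ t ≤ 1 / 4)
    (ht2 : 2 * ∑ i ∈ range n, th J i < t2 * (κ ^ 2 / (73920 * n)))
    (x : Cube n) (hx : x ∈ A) :
    ∃ t, t1 ≤ t ∧ t < t1 + t2 ∧
      κ / 4 ≤ av (fun y => if ((Pc A)^[t] (pm x)) y < 4 ^ (J + 1) then ((Pc A)^[t] (pm x)) y
        else 0) := by
  by_contra hcon
  push Not at hcon
  have hκ1 : κ ≤ 1 := by
    have h1 := dens_le_one A
    have h0 := dens_nonneg A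
    rw [hκd]
    nlinarith
  -- the function w
  set ρ : ℕ → ℝ := fun i => 1 - th J i with hρ
  have hρm : Monotone ρ := by
    intro i j hij
    simp only [hρ]
    have : th J j ≤ th J i := by
      unfold th
      have hJ' : (0 : ℝ) < J := by exact_mod_cast hJ
      have hij' : (i : ℝ) ≤ j := by exact_mod_cast hij
      have hi0 : (0 : ℝ) ≤ i := by positivity
      exact div_le_div_of_nonneg_left hJ'.le (by positivity) (by linarith)
    linarith
  have hρ0 : ∀ i, 0 ≤ ρ i := fun i => by simp only [hρ]; linarith [th_le_one hJ i]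
  have hρ1 : ∀ i, ρ i ≤ 1 := fun i => by simp only [hρ]; linarith [th_pos hJ i]
  obtain ⟨hk1, hk2, hk3, -, -, -, -⟩ := hK
  have hT0 : ∀ i y, 0 ≤ T (ρ i) (ind A) y := by
    intro i y
    refine av_nonneg fun z => mul_nonneg (hk1 n _ (hρ0 i) (hρ1 i) _ _) ?_
    unfold ind; split_ifs <;> norm_num
  have hT1 : ∀ i y, T (ρ i) (ind A) y ≤ 1 := by
    intro i y
    rw [← hk3 n (ρ i) y]
    refine av_mono fun z => ?_
    have : ind A z ≤ 1 := by unfold ind; split_ifs <;> norm_num
    have := mul_le_mul_of_nonneg_left this (hk1 n _ (hρ0 i) (hρ1 i) y z)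
    linarith
  have hindI : Incr (ind A) := by
    intro y z hyz
    unfold ind
    by_cases hy : y ∈ A
    · rw [if_pos hy, if_pos (hA y hy z hyz)]
    · rw [if_neg hy]; split_ifs <;> norm_num
  set w : Cube n → ℝ := fun y =>
    (range (n - 1 + 1)).inf' nonempty_range_add_one (fun i => T (ρ i) (ind A) y) with hw
  have hwT : ∀ i < n, ∀ y, w y ≤ T (1 - th J i) (ind A) y := by
    intro i hi y
    exact Finset.inf'_le _ (mem_range.2 (by omega))
  have w0 : ∀ y, 0 ≤ w y := fun y => Finset.le_inf' _ _ fun i _ => hT0 i y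
  have w1 : ∀ y, w y ≤ 1 := fun y => (hwT 0 hn y).trans (hT1 0 y)
  have wI : Incr w := by
    intro y z hyz
    refine Finset.le_inf' _ _ fun i hi => ?_
    exact (Finset.inf'_le _ hi).trans (hMON n _ (hρ0 i) (hρ1 i) _ hindI y z hyz)
  have hwav : κ ≤ av w := by
    rw [hκd]
    exact hLAB n A ρ hρm hρ0 hρ1 (n - 1)
  -- properties of the law
  set h : ℕ → Cube n → ℝ := fun t => (Pc A)^[t] (pm x) with hh
  have h0 : ∀ t y, 0 ≤ h t y := fun t => it_nonneg hn hO A t _ (pm_nonneg x)
  have hsp : ∀ t y, y ∉ A → h t y = 0 := fun t => it_supp hn hO A t _ (by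
    intro y hy
    unfold pm
    rw [if_neg]
    rintro rfl
    exact hy hx)
  have hup : ∀ t y, h t y ≤ 2 ^ n := by
    intro t y
    have h1 := it_mono hn hO A t (pm x) (fun y => 2 ^ n * ind A y) (by
      intro z
      unfold pm ind
      split_ifs with h1 h2 h2
      · simp
      · exact absurd (h1 ▸ hx) h2
      · simp
      · simp) y
    rw [it_ind hn hO A _ t] at h1
    refine h1.trans ?_
    have h2 : ind A y ≤ 1 := by unfold ind; split_ifs <;> norm_num
    have h3 : (0 : ℝ) < 2 ^ n := by positivity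
    show (2 : ℝ) ^ n * ind A y ≤ 2 ^ n
    nlinarith
  have hav : ∀ t, av (h t) = 1 := fun t => by
    rw [hh]; simp only; rw [it_av hn hO A t, av_pm_one]
  have hwt : ∀ t, t1 ≤ t → 3 * κ / 4 ≤ av (fun y => h t y * w y) := by
    intro t ht
    have e1 : av (fun y => h t y * w y) = ((Pc A)^[t] w) x := by
      rw [hh]; simp only
      rw [it_dual hn hO A t, av_pm]
    rw [e1]
    refine le_trans ?_ (hUPW n hn A hA w wI w0 t x hx)
    have h2 := ht1 t ht
    have h3 : (3 : ℝ) / 4 ≤ 1 - n * (1 - 1 / (n : ℝ)) ^ t := by linarith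
    calc 3 * κ / 4 = 3 / 4 * κ := by ring
      _ ≤ (1 - n * (1 - 1 / (n : ℝ)) ^ t) * av w :=
        mul_le_mul h3 hwav hκ.le (by linarith)
  have hstep : ∀ t, t1 ≤ t → t < t1 + t2 → Hf J (h (t + 1)) ≤ Hf J (h t) - κ ^ 2 / (73920 * n) := by
    intro t ht1' ht2'
    have e : h (t + 1) = Pc A (h t) := by
      rw [hh]; simp only; rw [Function.iterate_succ_apply']
    rw [e]
    exact step hLOC hSUP hLEV hDIS hn A hA κ hκ hκ1 J hJ hJκ (h t) w (h0 t) (hsp t) (hup t) (hav t)
      w0 w1 hwT (hwt t ht1') (hcon t ht1' ht2')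
  have hiter : ∀ k, k ≤ t2 → Hf J (h (t1 + k)) ≤ Hf J (h t1) - k * (κ ^ 2 / (73920 * n)) := by
    intro k
    induction k with
    | zero => intro _; simp
    | succ k ih =>
      intro hk
      have h1 := hstep (t1 + k) (by omega) (by omega)
      have h2 := ih (by omega)
      push_cast
      rw [← add_assoc]
      linarith
  have h3 := hiter t2 le_rfl
  have h4 := Hf_nonneg hLEV hJ (h (t1 + t2)) (h0 _)
  have h5 := Hf_le hLEV hJ (h t1) (h0 _) (hav _)
  linarith

lemma sq_av_le {n : ℕ} (u : Cube n → ℝ) : (av (fun x => |u x|)) ^ 2 ≤ av (fun x => u x ^ 2) := by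
  unfold av
  rw [div_pow, div_le_div_iff₀ (by positivity) (by positivity)]
  have h := sq_sum_le_card_mul_sum_sq (s := (univ : Finset (Cube n))) (f := fun x => |u x|)
  have hc : ((univ : Finset (Cube n)).card : ℝ) = 2 ^ n := by
    rw [card_univ, Fintype.card_fun, Fintype.card_bool, Fintype.card_fin]
    push_cast; rfl
  rw [hc] at h
  simp only [sq_abs] at h
  calc (∑ x, |u x|) ^ 2 * 2 ^ n ≤ (2 ^ n * ∑ x, u x ^ 2) * 2 ^ n :=
        mul_le_mul_of_nonneg_right h (by positivity)
    _ = _ := by ring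

/-- Spectral gap. -/
theorem gap (hK : KER) (hLOC : LOC) (hO : OPE) (hGEN : GEN)
    {n : ℕ} (hn : 0 < n) (A : Finset (Cube n)) (hA : IsUp A) (f : Cube n → ℝ)
    (hf : ∀ x, x ∉ A → f x = 0) (hf0 : av f = 0) :
    av (fun x => (Pc A f x) ^ 2) ≤ (1 - dens A ^ 2 / (144 * n)) * av (fun x => f x ^ 2) := by
  obtain ⟨-, -, -, -, hk5, -, -⟩ := hK
  obtain ⟨hg1, hg2⟩ := hGEN n hn A hA f
  have hn' : (0 : ℝ) < n := by exact_mod_cast hn
  have h1 := hLOC n A hA f hf 0 le_rfl zero_le_one
  have e1 : av (fun x => f x ^ 2 * T 0 (ind A) x) = dens A * av (fun x => f x ^ 2) := by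
    rw [← av_mul]
    congr 1
    funext x
    rw [hk5, av_ind]
    ring
  have e2 : av (fun x => f x * T 0 f x) = 0 := by
    have : (fun x => f x * T 0 f x) = fun x => (0 : ℝ) * f x := by
      funext x
      rw [hk5, hf0]; ring
    rw [this, av_mul, zero_mul]
  rw [e1, e2] at h1
  set N := av (fun x => f x ^ 2) with hN
  set E := En A f with hE
  have N0 : 0 ≤ N := av_nonneg fun x => sq_nonneg _
  have E0 : 0 ≤ E := En_nonneg _ _
  set μ := dens A with hμ
  have μ0 : 0 ≤ μ := dens_nonneg A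
  have μ1 : μ ≤ 1 := dens_le_one A
  have hNE : μ ^ 2 * N ≤ 144 * E := by
    set a := Real.sqrt N with ha
    set b := Real.sqrt E with hb
    have ha0 : 0 ≤ a := Real.sqrt_nonneg _
    have hb0 : 0 ≤ b := Real.sqrt_nonneg _
    have ea : a ^ 2 = N := Real.sq_sqrt N0
    have eb : b ^ 2 = E := Real.sq_sqrt E0
    simp only [sub_zero, Real.sqrt_one, mul_one, zero_add] at h1
    rw [← ea, ← eb] at h1 ⊢
    by_contra hc
    push Not at hc
    have h3 : 12 * b < μ * a := by
      have : (12 * b) ^ 2 < (μ * a) ^ 2 := by nlinarith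
      exact lt_of_pow_lt_pow_left₀ 2 (by positivity) this
    have ha' : 0 < a := by
      rcases ha0.lt_or_eq with h | h
      · exact h
      · rw [← h] at h3; linarith
    have hμ' : 0 < μ := by
      rcases μ0.lt_or_eq with h | h
      · exact h
      · rw [← h] at h3; linarith
    -- 6ab+3b² < μ a²/2 + ...
    have h4 : 6 * a * b ≤ μ * a ^ 2 / 2 := by nlinarith
    have h5 : 3 * b ^ 2 ≤ μ * a ^ 2 / 4 := by
      have : b ≤ a / 12 := by nlinarith
      nlinarith
    nlinarith [mul_pos hμ' (pow_pos ha' 2)]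
  have e3 : av (fun x => f x * (f x - Pc A f x)) = N - av (fun x => f x * Pc A f x) := by
    rw [hN, ← av_sub]
    congr 1
    funext x
    ring
  rw [e3] at hg1
  have h6 : μ ^ 2 / (144 * n) * N ≤ (1 / n) * E := by
    have : μ ^ 2 / (144 * n) * N = (μ ^ 2 * N) / (144 * n) := by ring
    rw [this, div_le_iff₀ (by positivity)]
    calc μ ^ 2 * N ≤ 144 * E := hNE
      _ = _ := by field_simp
  calc _ ≤ _ := hg2
    _ = N - (1 / n) * E := by linarith
    _ ≤ _ := by linarith

/-- Third phase. -/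
theorem ph3 (hK : KER) (hLOC : LOC) (hO : OPE) (hGEN : GEN)
    {n : ℕ} (hn : 0 < n) (A : Finset (Cube n)) (hA : IsUp A) (hμ : 0 < dens A) (h : Cube n → ℝ)
    (h0 : ∀ x, 0 ≤ h x) (hs : ∀ x, x ∉ A → h x = 0) (B M : ℝ) (hM : 0 < M)
    (hMh : M ≤ av (fun x => if h x < B then h x else 0)) (hB : 0 < B) (r : ℕ)
    (hr : (1 - dens A ^ 2 / (144 * n)) ^ r * B ≤ M / 4) :
    ∃ g : Cube n → ℝ, (∀ y, 0 ≤ g y) ∧ (∀ y, g y ≤ ((Pc A)^[r] h) y) ∧ av g = M ∧
      av (fun y => |g y - M / dens A * ind A y|) ≤ M / 2 := by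
  have hn' : (1 : ℝ) ≤ n := by exact_mod_cast hn
  set k : Cube n → ℝ := fun x => if h x < B then h x else 0 with hk
  have k0 : ∀ x, 0 ≤ k x := fun x => by simp only [hk]; split_ifs <;> [exact h0 x; exact le_rfl]
  have kB : ∀ x, k x ≤ B := fun x => by
    simp only [hk]; split_ifs with hx <;> [exact hx.le; exact hB.le]
  have kh : ∀ x, k x ≤ h x := fun x => by
    simp only [hk]; split_ifs <;> [exact le_rfl; exact h0 x]
  have ks : ∀ x, x ∉ A → k x = 0 := fun x hx => by
    simp only [hk]; rw [hs x hx]; simp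
  have hkp : 0 < av k := lt_of_lt_of_le hM hMh
  set c : ℝ := M / av k with hc
  have c0 : 0 < c := div_pos hM hkp
  have c1 : c ≤ 1 := (div_le_one hkp).2 hMh
  set g0 : Cube n → ℝ := fun x => c * k x with hg0
  have g00 : ∀ x, 0 ≤ g0 x := fun x => mul_nonneg c0.le (k0 x)
  have g0B : ∀ x, g0 x ≤ B := fun x => by
    simp only [hg0]; nlinarith [k0 x, kB x]
  have g0h : ∀ x, g0 x ≤ h x := fun x => by
    simp only [hg0]; nlinarith [k0 x, kh x]
  have avg0 : av g0 = M := by
    rw [hg0, av_mul, hc]; field_simp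
  set G : Cube n → ℝ := fun y => M / dens A * ind A y with hG
  have avG : av G = M := by
    rw [hG, av_mul, av_ind]; field_simp
  set v : Cube n → ℝ := fun y => g0 y - G y with hv
  have vs : ∀ x, x ∉ A → v x = 0 := fun x hx => by
    simp only [hv, hg0, hG]
    rw [ks x hx]
    unfold ind
    rw [if_neg hx]; ring
  have avv : av v = 0 := by rw [hv, av_sub, avg0, avG]; ring
  have indsq : ∀ x, ind A x * ind A x = ind A x := fun x => by
    unfold ind; split_ifs <;> norm_num
  have avv2 : av (fun x => v x ^ 2) ≤ B * M := by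
    have e1 : (fun x => v x ^ 2) = fun x => g0 x ^ 2 - (M / dens A) * (2 * g0 x * ind A x -
        M / dens A * ind A x) := by
      funext x
      simp only [hv, hG]
      have := indsq x
      linear_combination (M / dens A) ^ 2 * this
    have e2 : ∀ x, 2 * g0 x * ind A x - M / dens A * ind A x = 2 * g0 x - M / dens A * ind A x := by
      intro x
      unfold ind
      split_ifs with hx
      · ring
      · simp only [hg0]; rw [ks x hx]; ring
    have e3 : av (fun x => (2 * g0 x * ind A x - M / dens A * ind A x)) = 2 * M - M := by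
      have : (fun x => (2 * g0 x * ind A x - M / dens A * ind A x)) =
          fun x => 2 * g0 x - G x := funext e2
      rw [this, av_sub, av_mul, avg0, avG]
    rw [e1, av_sub, av_mul, e3]
    have e4 : av (fun x => g0 x ^ 2) ≤ B * M := by
      rw [← avg0, ← av_mul]
      refine av_mono fun x => ?_
      nlinarith [g00 x, g0B x]
    have : 0 ≤ M / dens A * (2 * M - M) := by
      have : 0 ≤ M / dens A := by positivity
      nlinarith
    linarith
  have hγ0 : 0 ≤ 1 - dens A ^ 2 / (144 * n) := by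
    have h1 := dens_le_one A
    have : dens A ^ 2 / (144 * n) ≤ 1 := by
      rw [div_le_one (by positivity)]
      nlinarith
    linarith
  have hit : ∀ s, av (((Pc A)^[s] v)) = 0 ∧ (∀ x, x ∉ A → ((Pc A)^[s] v) x = 0) ∧
      av (fun x => (((Pc A)^[s] v) x) ^ 2) ≤ (1 - dens A ^ 2 / (144 * n)) ^ s * (B * M) := by
    intro s
    induction s with
    | zero => exact ⟨avv, vs, by simpa using avv2⟩
    | succ s ih =>
      obtain ⟨i1, i2, i3⟩ := ih
      have hg := gap hK hLOC hO hGEN hn A hA ((Pc A)^[s] v) i2 i1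
      refine ⟨by rw [it_av hn hO A]; exact avv, it_supp hn hO A _ v vs, ?_⟩
      rw [Function.iterate_succ_apply']
      refine hg.trans ?_
      rw [pow_succ' (1 - dens A ^ 2 / (144 * (n : ℝ))) s]
      calc _ ≤ (1 - dens A ^ 2 / (144 * n)) *
            ((1 - dens A ^ 2 / (144 * n)) ^ s * (B * M)) := mul_le_mul_of_nonneg_left i3 hγ0
        _ = _ := by ring
  refine ⟨(Pc A)^[r] g0, it_nonneg hn hO A r g0 g00, it_mono hn hO A r g0 h g0h, ?_, ?_⟩
  · rw [it_av hn hO A]; exact avg0
  · have e : ∀ y, ((Pc A)^[r] g0) y - M / dens A * ind A y = ((Pc A)^[r] v) y := by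
      intro y
      rw [hv, it_sub hn hO A r g0 G, hG, it_ind hn hO A]
    simp only [e]
    have h1 := sq_av_le ((Pc A)^[r] v)
    have h2 := (hit r).2.2
    have h3 : (av fun x => |((Pc A)^[r] v) x|) ^ 2 ≤ (M / 2) ^ 2 := by
      calc _ ≤ _ := h1
        _ ≤ _ := h2
        _ = ((1 - dens A ^ 2 / (144 * n)) ^ r * B) * M := by ring
        _ ≤ M / 4 * M := mul_le_mul_of_nonneg_right hr hM.le
        _ = _ := by ring
    exact (abs_le_of_sq_le_sq' h3 (by positivity)).2

end Pool.Agent.Y984.MD
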