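import Pool.Agent.Y984.MD.Stm

set_option autoImplicit false

/-! Project MD: the decrease of the scale-free entropy in one step. -/

namespace Pool.Agent.Y984.MD

open Finset

namespace Basic

variable {n : ℕ}

lemma av_nonneg {F : Cube n → ℝ} (h : ∀ x, 0 ≤ F x) : 0 ≤ av F :=
  div_nonneg (sum_nonneg fun x _ => h x) (by positivity)

lemma av_mono {F G : Cube n → ℝ} (h : ∀ x, F x ≤ G x) : av F ≤ av G := by
  unfold av
  exact div_le_div_of_nonneg_right (sum_le_sum fun x _ => h x) (by positivity)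

lemma av_add (F G : Cube n → ℝ) : av (fun x => F x + G x) = av F + av G := by
  unfold av; rw [sum_add_distrib, add_div]

lemma av_sub (F G : Cube n → ℝ) : av (fun x => F x - G x) = av F - av G := by
  unfold av; rw [sum_sub_distrib, sub_div]

lemma av_mul (c : ℝ) (F : Cube n → ℝ) : av (fun x => c * F x) = c * av F := by
  unfold av; rw [← mul_sum, mul_div_assoc]

lemma av_sum {ι : Type*} (s : Finset ι) (F : ι → Cube n → ℝ) :
    av (fun x => ∑ i ∈ s, F i x) = ∑ i ∈ s, av (F i) := by
  unfold av; rw [sum_comm, sum_div]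

lemma av_ind (A : Finset (Cube n)) : av (ind A) = dens A := by
  unfold av dens ind
  congr 1
  simp

lemma dens_nonneg (A : Finset (Cube n)) : 0 ≤ dens A := by unfold dens; positivity

lemma dens_le_one (A : Finset (Cube n)) : dens A ≤ 1 := by
  unfold dens
  rw [div_le_one (by positivity)]
  have h := Finset.card_le_univ A
  rw [Fintype.card_fun, Fintype.card_bool, Fintype.card_fin] at h
  exact_mod_cast h

/-- Markov's inequality -/
lemma markov {h : Cube n → ℝ} (h0 : ∀ x, 0 ≤ h x) (c : ℝ) (hc : 0 < c) (V : Finset (Cube n))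
    (hV : ∀ x ∈ V, c ≤ h x) : dens V ≤ av h / c := by
  rw [le_div_iff₀ hc, ← av_ind, mul_comm, ← av_mul]
  apply av_mono
  intro x
  unfold ind
  split_ifs with hx
  · simpa using hV x hx
  · simpa using h0 x

lemma En_nonneg (A : Finset (Cube n)) (f : Cube n → ℝ) : 0 ≤ En A f :=
  sum_nonneg fun i _ => av_nonneg fun x => by split_ifs <;> positivity

end Basic

open Basic

/-- noise parameter of level `i` -/
noncomputable def th (J i : ℕ) : ℝ := (J : ℝ) / (J + i)

/-- The scale-free entropy. -/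
noncomputable def Hf {n : ℕ} (J : ℕ) (h : Cube n → ℝ) : ℝ :=
  ∑ i ∈ range n, th J i * (av (fun x => Psi (4 ^ (J + i + 1)) (h x)) / 4 ^ (J + i + 1))

lemma th_pos {J : ℕ} (hJ : 0 < J) (i : ℕ) : 0 < th J i := by
  unfold th; positivity

lemma th_le_one {J : ℕ} (hJ : 0 < J) (i : ℕ) : th J i ≤ 1 := by
  unfold th
  rw [div_le_one (by positivity)]
  have : (0 : ℝ) ≤ (i : ℝ) := by positivity
  linarith

lemma Hf_nonneg (hLEV : LEV) {n : ℕ} {J : ℕ} (hJ : 0 < J) (h : Cube n → ℝ) (h0 : ∀ x, 0 ≤ h x) :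
    0 ≤ Hf J h := by
  obtain ⟨-, -, -, h4⟩ := hLEV
  unfold Hf
  refine sum_nonneg fun i _ => mul_nonneg (th_pos hJ i).le (div_nonneg ?_ (by positivity))
  exact av_nonneg fun x => (h4 _ _ (by positivity) (h0 x)).1

lemma Hf_le (hLEV : LEV) {n : ℕ} {J : ℕ} (hJ : 0 < J) (h : Cube n → ℝ) (h0 : ∀ x, 0 ≤ h x)
    (h1 : av h = 1) : Hf J h ≤ 2 * ∑ i ∈ range n, th J i := by
  obtain ⟨-, -, -, h4⟩ := hLEV
  unfold Hf
  rw [mul_sum]
  refine sum_le_sum fun i _ => ?_
  have e : av (fun x => Psi (4 ^ (J + i + 1)) (h x)) ≤ 2 * 4 ^ (J + i + 1) * 1 := by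
    rw [← h1, ← av_mul]
    exact av_mono fun x => (h4 _ _ (by positivity) (h0 x)).2
  have e2 : av (fun x => Psi (4 ^ (J + i + 1)) (h x)) / 4 ^ (J + i + 1) ≤ 2 := by
    rw [div_le_iff₀ (by positivity)]
    linarith
  have := mul_le_mul_of_nonneg_left e2 (th_pos hJ i).le
  linarith

lemma young (κ u v : ℝ) (hκ : 0 < κ) :
    6 * (u * v) ≤ κ / 128 * u ^ 2 + 1152 / κ * v ^ 2 := by
  have h : κ / 128 * u ^ 2 + 1152 / κ * v ^ 2 - 6 * (u * v) =
      (1 / (128 * κ)) * (κ * u - 384 * v) ^ 2 := by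
    field_simp
    ring
  have h2 : 0 ≤ (1 / (128 * κ)) * (κ * u - 384 * v) ^ 2 := by positivity
  linarith

/-- one step -/
theorem step (hLOC : LOC) (hSUP : SUP) (hLEV : LEV) (hDIS : DIS)
    {n : ℕ} (hn : 0 < n) (A : Finset (Cube n)) (hA : IsUp A) (κ : ℝ) (hκ : 0 < κ) (hκ1 : κ ≤ 1)
    (J : ℕ) (hJ : 0 < J) (hJκ : (1 / 2 : ℝ) ^ J ≤ κ / 128) (h w : Cube n → ℝ)
    (h0 : ∀ x, 0 ≤ h x) (hsupp : ∀ x, x ∉ A → h x = 0) (hup : ∀ x, h x ≤ 2 ^ n)
    (hav : av h = 1) (w0 : ∀ x, 0 ≤ w x) (w1 : ∀ x, w x ≤ 1)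
    (hwT : ∀ i < n, ∀ x, w x ≤ T (1 - th J i) (ind A) x)
    (hw : 3 * κ / 4 ≤ av (fun x => h x * w x))
    (hsmall : av (fun x => if h x < 4 ^ (J + 1) then h x else 0) < κ / 4) :
    Hf J (Pc A h) ≤ Hf J h - κ ^ 2 / (73920 * n) := by
  obtain ⟨hL1, hL2, hL3, hL4⟩ := hLEV
  set f : Cube n → ℝ := fun x => Real.sqrt (h x) with hf
  have f0 : ∀ x, 0 ≤ f x := fun x => Real.sqrt_nonneg _
  have fsq : ∀ x, f x ^ 2 = h x := fun x => Real.sq_sqrt (h0 x)
  have cl0 : ∀ (j : ℕ) (s : ℝ), 0 ≤ cl j s := by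
    intro j s
    unfold cl
    exact le_min (le_max_right _ _) (by positivity)
  have clz : ∀ (j : ℕ) (s : ℝ), s ≤ 2 ^ j → cl j s = 0 := by
    intro j s hs
    unfold cl
    rw [max_eq_right (by linarith), min_eq_left (by positivity)]
  -- the pieces
  set F : ℕ → Cube n → ℝ := fun i x => cl (J + i) (f x) with hF
  set N : ℕ → ℝ := fun i => av (fun x => F i x ^ 2) with hN
  set E : ℕ → ℝ := fun i => En A (F i) with hE
  have N0 : ∀ i, 0 ≤ N i := fun i => av_nonneg fun x => sq_nonneg _
  have E0 : ∀ i, 0 ≤ E i := fun i => En_nonneg _ _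
  have key : ∀ i < n, av (fun x => F i x ^ 2 * w x) ≤ κ / 64 * N i + 1155 / κ * (th J i * E i) := by
    intro i hi
    have hth := th_pos hJ i
    have hth1 := th_le_one hJ i
    have hFs : ∀ x, x ∉ A → F i x = 0 := by
      intro x hx
      have : f x = 0 := by simp only [hf]; rw [hsupp x hx, Real.sqrt_zero]
      simp only [hF]
      rw [this]
      exact clz _ _ (by positivity)
    have hloc := hLOC n A hA (F i) hFs (1 - th J i) (by linarith) (by linarith)
    rw [show (1 : ℝ) - (1 - th J i) = th J i by ring] at hloc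
    classical
    set V : Finset (Cube n) := univ.filter (fun x => 2 ^ (J + i) < f x) with hV
    have hVs : ∀ x, x ∉ V → F i x = 0 := by
      intro x hx
      simp only [hV, mem_filter, mem_univ, true_and, not_lt] at hx
      exact clz _ _ hx
    have hsup := hSUP n V (F i) (fun x => cl0 _ _) hVs (1 - th J i) (by linarith) (by linarith)
    rw [show (1 : ℝ) - (1 - th J i) = th J i by ring] at hsup
    have hVd : dens V ≤ (1 / 2 : ℝ) ^ (2 * (J + i)) := by
      have hm := markov h0 ((2 : ℝ) ^ (2 * (J + i))) (by positivity) V (by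
        intro x hx
        simp only [hV, mem_filter, mem_univ, true_and] at hx
        rw [← fsq x, mul_comm, pow_mul]
        exact pow_le_pow_left₀ (by positivity) hx.le 2)
      rw [hav] at hm
      refine hm.trans (le_of_eq ?_)
      rw [one_div_pow]
    have hpow : (dens V) ^ (th J i / 2) ≤ κ / 128 := by
      refine le_trans ?_ hJκ
      have e1 : (dens V) ^ (th J i / 2) ≤ ((1 / 2 : ℝ) ^ (2 * (J + i))) ^ (th J i / 2) :=
        Real.rpow_le_rpow (dens_nonneg V) hVd (by positivity)
      refine e1.trans (le_of_eq ?_)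
      rw [← Real.rpow_natCast, ← Real.rpow_mul (by norm_num), ← Real.rpow_natCast]
      congr 1
      unfold th
      push_cast
      have : (J : ℝ) + i ≠ 0 := by positivity
      field_simp
    have hmid : 6 * Real.sqrt (th J i) * Real.sqrt (N i) * Real.sqrt (E i) ≤
        κ / 128 * N i + 1152 / κ * (th J i * E i) := by
      have hy := young κ (Real.sqrt (N i)) (Real.sqrt (th J i) * Real.sqrt (E i)) hκ
      rw [mul_pow, Real.sq_sqrt (N0 i), Real.sq_sqrt hth.le, Real.sq_sqrt (E0 i)] at hy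
      calc _ = 6 * (Real.sqrt (N i) * (Real.sqrt (th J i) * Real.sqrt (E i))) := by ring
        _ ≤ _ := hy
    have hwle : av (fun x => F i x ^ 2 * w x) ≤
        av (fun x => F i x ^ 2 * T (1 - th J i) (ind A) x) :=
      av_mono fun x => mul_le_mul_of_nonneg_left (hwT i hi x) (sq_nonneg _)
    have hd : (dens V) ^ (th J i / 2) * N i ≤ κ / 128 * N i :=
      mul_le_mul_of_nonneg_right hpow (N0 i)
    have h3 : 3 * th J i * E i ≤ 3 / κ * (th J i * E i) := by
      have : (3 : ℝ) ≤ 3 / κ := by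
        rw [le_div_iff₀ hκ]; linarith
      have h5 : 0 ≤ th J i * E i := mul_nonneg hth.le (E0 i)
      nlinarith
    calc av (fun x => F i x ^ 2 * w x) ≤ _ := hwle
      _ ≤ _ := hloc
      _ ≤ κ / 128 * N i + (κ / 128 * N i + 1152 / κ * (th J i * E i)) +
          3 / κ * (th J i * E i) := by
          have := hsup.trans hd
          linarith
      _ = _ := by ring
  -- sum over the levels
  have hsumN : ∑ i ∈ range n, N i ≤ 1 := by
    rw [hN]
    simp only
    rw [← av_sum, ← hav]
    refine av_mono fun x => ?_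
    have := hL1 J n (f x) (f0 x)
    rw [fsq] at this
    exact this
  have hsumW : κ / 32 ≤ ∑ i ∈ range n, av (fun x => F i x ^ 2 * w x) := by
    rw [← av_sum]
    have e1 : ∀ x, (1 / 16) * (h x * w x - (if h x < 4 ^ (J + 1) then h x else 0)) ≤
        ∑ i ∈ range n, F i x ^ 2 * w x := by
      intro x
      rw [← sum_mul]
      by_cases hx : h x < 4 ^ (J + 1)
      · rw [if_pos hx]
        have : 0 ≤ (∑ i ∈ range n, F i x ^ 2) * w x :=
          mul_nonneg (sum_nonneg fun i _ => sq_nonneg _) (w0 x)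
        nlinarith [mul_le_mul_of_nonneg_left (w1 x) (h0 x)]
      · rw [if_neg hx, sub_zero]
        push Not at hx
        have hfx : 2 ^ (J + 1) ≤ f x := by
          rw [hf]
          apply Real.le_sqrt_of_sq_le
          rw [← pow_mul, mul_comm, pow_mul]
          norm_num
          exact hx
        have hfx2 : f x ≤ 2 ^ (J + n) := by
          rw [hf]
          apply Real.sqrt_le_iff.2
          refine ⟨by positivity, (hup x).trans ?_⟩
          rw [← pow_mul]
          exact pow_le_pow_right₀ (by norm_num) (by omega)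
        have := hL2 J n (f x) hfx hfx2
        rw [fsq] at this
        have h5 := mul_le_mul_of_nonneg_right this (w0 x)
        calc _ = h x / 16 * w x := by ring
          _ ≤ _ := h5
    have e2 := av_mono e1
    rw [av_mul, av_sub] at e2
    linarith
  have hsumK := sum_le_sum (fun i (hi : i ∈ range n) => key i (mem_range.1 hi))
  rw [sum_add_distrib, ← mul_sum, ← mul_sum] at hsumK
  have hmain : κ ^ 2 / 73920 ≤ ∑ i ∈ range n, th J i * E i := by
    have h1 : κ / 64 * ∑ i ∈ range n, N i ≤ κ / 64 := by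
      have := mul_le_mul_of_nonneg_left hsumN (by positivity : 0 ≤ κ / 64)
      linarith
    have h2 : κ / 64 ≤ 1155 / κ * ∑ i ∈ range n, th J i * E i := by linarith
    have h3 : κ / 64 * (κ / 1155) ≤ (1155 / κ * ∑ i ∈ range n, th J i * E i) * (κ / 1155) :=
      mul_le_mul_of_nonneg_right h2 (by positivity)
    have h4 : (1155 / κ * ∑ i ∈ range n, th J i * E i) * (κ / 1155) =
        ∑ i ∈ range n, th J i * E i := by
      field_simp
    rw [h4] at h3
    calc κ ^ 2 / 73920 = κ / 64 * (κ / 1155) := by ring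
      _ ≤ _ := h3
  -- the decrease
  have hdec : ∀ i ∈ range n, th J i * (av (fun x => Psi (4 ^ (J + i + 1)) (Pc A h x)) /
      4 ^ (J + i + 1)) ≤ th J i * (av (fun x => Psi (4 ^ (J + i + 1)) (h x)) / 4 ^ (J + i + 1)) -
      (1 / n) * (th J i * E i) := by
    intro i hi
    have hth := th_pos hJ i
    set b : ℝ := 4 ^ (J + i + 1) with hb
    have hb0 : 0 < b := by positivity
    have hdis := hDIS n hn A hA h h0 b hb0
    have hEb : b * E i ≤ En A (fun x => min (h x) b) := by
      rw [hE]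
      simp only
      unfold En
      rw [mul_sum]
      refine sum_le_sum fun j _ => ?_
      rw [← av_mul]
      refine av_mono fun x => ?_
      split_ifs with hx
      · unfold D
        have := hL3 (J + i) (f (up j x)) (f (dn j x)) (f0 _) (f0 _)
        rw [fsq, fsq, ← hb, le_div_iff₀ hb0] at this
        simp only [hF]
        nlinarith
      · simp
    have hn' : (0 : ℝ) < n := by exact_mod_cast hn
    have h6 : av (fun x => Psi b (Pc A h x)) ≤ av (fun x => Psi b (h x)) - (1 / n) * (b * E i) := by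
      have : (1 / (n : ℝ)) * (b * E i) ≤ (1 / n) * En A (fun x => min (h x) b) :=
        mul_le_mul_of_nonneg_left hEb (by positivity)
      linarith
    have h7 : av (fun x => Psi b (Pc A h x)) / b ≤ av (fun x => Psi b (h x)) / b - (1 / n) * E i := by
      rw [div_le_iff₀ hb0]
      refine h6.trans (le_of_eq ?_)
      field_simp
    have h8 := mul_le_mul_of_nonneg_left h7 hth.le
    calc _ ≤ _ := h8
      _ = _ := by ring
  have hfin := sum_le_sum hdec
  rw [sum_sub_distrib, ← mul_sum] at hfin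
  have hn' : (0 : ℝ) < n := by exact_mod_cast hn
  have h9 : κ ^ 2 / (73920 * n) ≤ (1 / n) * ∑ i ∈ range n, th J i * E i := by
    have := mul_le_mul_of_nonneg_left hmain (by positivity : 0 ≤ 1 / (n : ℝ))
    calc κ ^ 2 / (73920 * n) = 1 / n * (κ ^ 2 / 73920) := by field_simp
      _ ≤ _ := this
  unfold Hf
  linarith

end Pool.Agent.Y984.MD
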