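import Pool.Agent.Y984.MD.Defs

set_option autoImplicit false

/-! Project MD: exact statements of the blocks. Each `X` below is a `Prop`; the job with title
`MD-X` proves `theorem t_X : X`. -/

namespace Pool.Agent.Y984.MD

open Finset

/-- MD-KER: kernel facts. -/
def KER : Prop :=
  (∀ (n : ℕ) (r : ℝ), 0 ≤ r → r ≤ 1 → ∀ x y : Cube n, 0 ≤ ker r x y) ∧
  (∀ (n : ℕ) (r : ℝ) (x y : Cube n), ker r x y = ker r y x) ∧
  (∀ (n : ℕ) (r : ℝ) (x : Cube n), av (fun y => ker r x y) = 1) ∧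
  (∀ (n : ℕ) (φ : Cube n → ℝ) (x : Cube n), T 1 φ x = φ x) ∧
  (∀ (n : ℕ) (φ : Cube n → ℝ) (x : Cube n), T 0 φ x = av φ) ∧
  (∀ (n : ℕ) (r : ℝ) (i : Fin n) (g : Cube n → ℝ), (∀ x, g (up i x) = g (dn i x)) →
    ∀ x, T r g (up i x) = T r g (dn i x)) ∧
  (∀ (n : ℕ) (i : Fin n) (F : Cube n → ℝ),
    av F = av (fun x => (F (up i x) + F (dn i x)) / 2))

/-- MD-MON: the noise operator preserves increasing functions. -/
def MON : Prop :=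
  ∀ (n : ℕ) (r : ℝ), 0 ≤ r → r ≤ 1 → ∀ φ : Cube n → ℝ, Incr φ → Incr (T r φ)

/-- MD-DER: derivative of the noise form. -/
def DER : Prop :=
  ∀ (n : ℕ) (φ ψ : Cube n → ℝ) (r : ℝ),
    HasDerivAt (fun s => av (fun x => φ x * T s ψ x))
      (∑ i, av (fun x => D i φ x * T r (D i ψ) x)) r

/-- MD-BES: pointwise gradient bound (Bessel inequality for the product measure `ker r x`). -/
def BES : Prop :=
  ∀ (n : ℕ) (r : ℝ), 0 ≤ r → r ≤ 1 → ∀ (φ : Cube n → ℝ) (x : Cube n),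
    (1 - r ^ 2) * ∑ i, (T r (D i φ) x) ^ 2 ≤ T r (fun y => φ y ^ 2) x - (T r φ x) ^ 2

/-- MD-LOC: the main inequality. -/
def LOC : Prop :=
  ∀ (n : ℕ) (A : Finset (Cube n)), IsUp A → ∀ f : Cube n → ℝ, (∀ x, x ∉ A → f x = 0) →
    ∀ ρ : ℝ, 0 ≤ ρ → ρ ≤ 1 →
    av (fun x => f x ^ 2 * T ρ (ind A) x) ≤ av (fun x => f x * T ρ f x) +
      6 * Real.sqrt (1 - ρ) * Real.sqrt (av (fun x => f x ^ 2)) * Real.sqrt (En A f) +
      3 * (1 - ρ) * En A f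

/-- MD-SUP: functions with small support (from hypercontractivity). -/
def SUP : Prop :=
  ∀ (n : ℕ) (V : Finset (Cube n)) (f : Cube n → ℝ), (∀ x, 0 ≤ f x) → (∀ x, x ∉ V → f x = 0) →
    ∀ ρ : ℝ, 0 ≤ ρ → ρ ≤ 1 →
    av (fun x => f x * T ρ f x) ≤ (dens V) ^ ((1 - ρ) / 2) * av (fun x => f x ^ 2)

/-- MD-LAB: simultaneous lower bound at all noise levels (maximal inequality). -/
def LAB : Prop :=
  ∀ (n : ℕ) (A : Finset (Cube n)) (ρ : ℕ → ℝ), Monotone ρ → (∀ i, 0 ≤ ρ i) → (∀ i, ρ i ≤ 1) →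
    ∀ m : ℕ, (dens A) ^ 2 / 4 ≤
      av (fun x => (range (m + 1)).inf' nonempty_range_add_one (fun i => T (ρ i) (ind A) x))

/-- MD-DIS: one step of the walk decreases the convex functionals. -/
def DIS : Prop :=
  ∀ (n : ℕ), 0 < n → ∀ A : Finset (Cube n), IsUp A → ∀ h : Cube n → ℝ, (∀ x, 0 ≤ h x) →
    ∀ b : ℝ, 0 < b →
    av (fun x => Psi b (Pc A h x)) ≤ av (fun x => Psi b (h x)) -
      (1 / n) * En A (fun x => min (h x) b)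

/-- MD-LEV: level decomposition. -/
def LEV : Prop :=
  (∀ (J m : ℕ) (s : ℝ), 0 ≤ s → ∑ i ∈ range m, (cl (J + i) s) ^ 2 ≤ s ^ 2) ∧
  (∀ (J m : ℕ) (s : ℝ), 2 ^ (J + 1) ≤ s → s ≤ 2 ^ (J + m) →
    s ^ 2 / 16 ≤ ∑ i ∈ range m, (cl (J + i) s) ^ 2) ∧
  (∀ (j : ℕ) (s t : ℝ), 0 ≤ s → 0 ≤ t →
    (cl j s - cl j t) ^ 2 ≤ (min (s ^ 2) (4 ^ (j + 1)) - min (t ^ 2) (4 ^ (j + 1))) ^ 2 /
      4 ^ (j + 1)) ∧
  (∀ (b v : ℝ), 0 < b → 0 ≤ v → 0 ≤ Psi b v ∧ Psi b v ≤ 2 * b * v)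

/-- MD-UPW: the censored walk stays above the free walk. -/
def UPW : Prop :=
  ∀ (n : ℕ), 0 < n → ∀ A : Finset (Cube n), IsUp A → ∀ w : Cube n → ℝ, Incr w → (∀ x, 0 ≤ w x) →
    ∀ (t : ℕ), ∀ x ∈ A, (1 - n * (1 - 1 / (n : ℝ)) ^ t) * av w ≤ ((Pc A)^[t] w) x

/-- MD-OPE: elementary facts on the operator `Pc`. -/
def OPE : Prop :=
  ∀ (n : ℕ), 0 < n → ∀ A : Finset (Cube n),
    (∀ φ ψ : Cube n → ℝ, av (fun x => φ x * Pc A ψ x) = av (fun x => Pc A φ x * ψ x)) ∧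
    (∀ φ : Cube n → ℝ, av (Pc A φ) = av φ) ∧
    (∀ φ ψ : Cube n → ℝ, (∀ x, φ x ≤ ψ x) → ∀ x, Pc A φ x ≤ Pc A ψ x) ∧
    (∀ φ ψ : Cube n → ℝ, ∀ x, Pc A (fun y => φ y + ψ y) x = Pc A φ x + Pc A ψ x) ∧
    (∀ (c : ℝ) (φ : Cube n → ℝ), ∀ x, Pc A (fun y => c * φ y) x = c * Pc A φ x) ∧
    (∀ (c : ℝ) (x : Cube n), Pc A (fun y => c * ind A y) x = c * ind A x) ∧
    (∀ φ : Cube n → ℝ, (∀ x, x ∉ A → φ x = 0) → ∀ x, x ∉ A → Pc A φ x = 0)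

/-- MD-GEN: energy identity and its consequence. -/
def GEN : Prop :=
  ∀ (n : ℕ), 0 < n → ∀ A : Finset (Cube n), IsUp A → ∀ f : Cube n → ℝ,
    av (fun x => f x * (f x - Pc A f x)) = (1 / n) * En A f ∧
    av (fun x => (Pc A f x) ^ 2) ≤ av (fun x => f x * Pc A f x)

/-- MD-MAT: the transition matrix and the operator. -/
def MAT : Prop :=
  ∀ (n : ℕ), 0 < n → ∀ (A : Finset (Cube n)) (t : ℕ) (x y : A),
    2 ^ n * (P A ^ t) x y = ((Pc A)^[t] (fun z => if z = x.1 then 2 ^ n else 0)) y.1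

/-- MD-FIN: the final contraction. -/
def FIN : Prop :=
  ∀ (n : ℕ), 0 < n → ∀ A : Finset (Cube n), A.Nonempty → ∀ (s : ℕ) (M : ℝ), 0 < M → M ≤ 1 →
    (∀ x ∈ A, ∃ g : Cube n → ℝ, (∀ y, 0 ≤ g y) ∧
      (∀ y, g y ≤ ((Pc A)^[s] (fun z => if z = x then 2 ^ n else 0)) y) ∧ av g = M ∧
      av (fun y => |g y - M / dens A * ind A y|) ≤ M / 2) →
    ∀ k : ℕ, ∀ x ∈ A,
      av (fun y => |((Pc A)^[k * s] (fun z => if z = x then 2 ^ n else 0)) y - ind A y / dens A|) ≤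
        2 * (1 - M / 2) ^ k

end Pool.Agent.Y984.MD
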